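import Pool.Agent.Work.MP_43901b_nt.H.TDefs

/-!
# Base: elementary identities
-/

namespace Pool.Agent.ZQ

open Polynomial Finset Filter

/-! ### `q`-th powers in characteristic `p` -/

section Frob

variable {p f q : ℕ} [Fact p.Prime] (hq : q = p ^ f) (hf : 1 ≤ f)

include hq in
theorem q_pos : 0 < q := by
  rw [hq]
  exact pow_pos (Fact.out : p.Prime).pos f

include hq hf in
theorem two_le_q : 2 ≤ q := by
  rw [hq]
  have h1 := (Fact.out : p.Prime).two_le
  calc 2 ≤ p := h1
    _ = p ^ 1 := (pow_one p).symm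
    _ ≤ p ^ f := Nat.pow_le_pow_right (by omega) hf

variable {R : Type*} [CommRing R] [CharP R p]

include hq in
theorem add_pow_q (a b : R) : (a + b) ^ q = a ^ q + b ^ q := by
  rw [hq]
  exact add_pow_char_pow a b _ _

include hq in
theorem sub_pow_q (a b : R) : (a - b) ^ q = a ^ q - b ^ q := by
  rw [hq]
  exact sub_pow_char_pow a b _

include hq hf in
theorem neg_pow_q (a : R) : (-a) ^ q = -a ^ q := by
  have h1 := sub_pow_q hq (0 : R) a
  rw [zero_sub, zero_pow (by have := two_le_q hq hf; omega), zero_sub] at h1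
  exact h1

include hq hf in
theorem sum_pow_q {ι : Type*} (T : Finset ι) (g : ι → R) :
    (∑ i ∈ T, g i) ^ q = ∑ i ∈ T, g i ^ q := by
  classical
  induction T using Finset.induction_on with
  | empty =>
    rw [Finset.sum_empty, Finset.sum_empty, zero_pow (by have := two_le_q hq hf; omega)]
  | insert a T ha ih =>
    rw [Finset.sum_insert ha, Finset.sum_insert ha, add_pow_q hq, ih]

include hq in
theorem add_pow_qq (a b : R) (n : ℕ) : (a + b) ^ q ^ n = a ^ q ^ n + b ^ q ^ n := by
  rw [hq, ← pow_mul]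
  exact add_pow_char_pow a b _ _

include hq in
theorem sub_pow_qq (a b : R) (n : ℕ) : (a - b) ^ q ^ n = a ^ q ^ n - b ^ q ^ n := by
  rw [hq, ← pow_mul]
  exact sub_pow_char_pow a b _

include hq in
omit [Fact p.Prime] in
theorem natCast_q_eq_zero (hf : 1 ≤ f) : ((q : ℕ) : R) = 0 := by
  rw [hq, CharP.cast_eq_zero_iff R p]
  exact dvd_pow_self p (by omega)

end Frob

/-! ### The sequences -/

section Seq

variable {K : Type*} [Field K] (q : ℕ) (D : K)

theorem br_zero : br q D 0 = 0 := by simp [br]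

theorem br_one : br q D 1 = D := by simp [br]

theorem br_succ (i : ℕ) : br q D (i + 1) = br q D i + D ^ q ^ i := by
  unfold br
  rw [Finset.sum_range_succ]

theorem ell_zero : ell q D 0 = 1 := by simp [ell]

theorem ell_succ (d : ℕ) : ell q D (d + 1) = ell q D d * (-br q D (d + 1)) := by
  unfold ell
  rw [Finset.prod_range_succ]

theorem SS_nil (d : ℕ) : SS q D [] d = 1 := by rw [SS]

theorem SS_cons (a : ℕ) (s : List ℕ) (d : ℕ) :
    SS q D (a :: s) d = ∑ i ∈ range d, ps q D i a * SS q D s i := by rw [SS]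

theorem SS_zero_cons (a : ℕ) (s : List ℕ) : SS q D (a :: s) 0 = 0 := by
  rw [SS, Finset.sum_range_zero]

theorem SS_succ (a : ℕ) (s : List ℕ) (d : ℕ) :
    SS q D (a :: s) (d + 1) = SS q D (a :: s) d + ps q D d a * SS q D s d := by
  rw [SS, SS, Finset.sum_range_succ]

theorem ev_zero : ev q D 0 = 1 := by rw [ev]

theorem ev_succ (i : ℕ) : ev q D (i + 1) =
    C (br q D (i + 1))⁻¹ * (C (br q D i ^ q) - C D * X) * ev q D i ^ q := by rw [ev]

end Seq

section Seq2

variable {p f q : ℕ} [Fact p.Prime] (hq : q = p ^ f) (hf : 1 ≤ f) {K : Type*} [Field K]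
  [CharP K p] (D : K)

include hq hf in
theorem br_succ' (i : ℕ) : br q D (i + 1) = D + br q D i ^ q := by
  unfold br
  rw [Finset.sum_range_succ', sum_pow_q hq hf, pow_zero, pow_one, add_comm]
  congr 1
  refine Finset.sum_congr rfl fun l _ => ?_
  rw [← pow_mul, ← pow_succ]

include hq in
theorem br_theta (θ : K) (i : ℕ) : br q (θ ^ q - θ) i = θ ^ q ^ i - θ := by
  induction i with
  | zero => rw [br_zero, pow_zero, pow_one, sub_self]
  | succ i ih =>
    rw [br_succ, ih, sub_pow_qq hq, ← pow_mul, ← pow_succ']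
    ring

include hq in
theorem br_add (i j : ℕ) : br q D (i + j) = br q D i + br q D j ^ q ^ i := by
  induction j with
  | zero =>
    rw [Nat.add_zero, br_zero, zero_pow (pow_ne_zero _ (q_pos hq).ne'), add_zero]
  | succ j ih =>
    rw [← Nat.add_assoc, br_succ, ih, br_succ, add_pow_qq hq, ← pow_mul, ← pow_add,
      Nat.add_comm j i, add_assoc]

include hq in
omit [CharP K p] in
theorem vv_zero : vv q D 0 = 0 := by
  rw [vv, br_zero, zero_pow (q_pos hq).ne', zero_div]

variable (hD : D ≠ 0)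

include hD in
omit [CharP K p] in
theorem D_mul_vv (d : ℕ) : D * vv q D d = br q D d ^ q := by
  rw [vv, mul_div_cancel₀ _ hD]

include hq hf hD in
theorem D_mul_one_add_vv (d : ℕ) : D * (1 + vv q D d) = br q D (d + 1) := by
  rw [mul_add, D_mul_vv D hD, mul_one, br_succ' hq hf]

include hq hf hD in
theorem vv_succ (d : ℕ) : vv q D (d + 1) = (vp q D).eval (vv q D d) := by
  rw [vv, vp, eval_mul, eval_C, eval_pow, eval_add, eval_one, eval_X,
    ← D_mul_one_add_vv hq hf D hD, mul_pow]
  have h1 : D ^ q = D * D ^ (q - 1) := by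
    rw [← pow_succ', Nat.sub_add_cancel (q_pos hq)]
  rw [h1]
  field_simp

include hq hf hD in
theorem ell_succ' (d : ℕ) : ell q D (d + 1) = (bet D).eval (vv q D d) * ell q D d := by
  rw [ell_succ, bet, eval_neg, eval_mul, eval_C, eval_add, eval_one, eval_X,
    D_mul_one_add_vv hq hf D hD, mul_comm]

variable (hb : ∀ i, br q D (i + 1) ≠ 0)

include hb in
omit [CharP K p] in
theorem ell_ne (d : ℕ) : ell q D d ≠ 0 := by
  unfold ell
  exact Finset.prod_ne_zero_iff.2 fun i _ => neg_ne_zero.2 (hb i)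

include hb in
omit [CharP K p] in
theorem ps_mul_ell (d n : ℕ) : ps q D d n * ell q D d ^ n = (PP q D n).eval (vv q D d) := by
  rw [ps, div_mul_cancel₀ _ (pow_ne_zero _ (ell_ne D hb d))]

end Seq2

end Pool.Agent.ZQ
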