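import Pool.Agent.Work.MP_43901b_nt.H.KinfS
import Pool.Agent.Work.MP_b19acb_nt.MainT
import Pool.Agent.Work.MP_b19acb_nt.PowS

/-!
# Bin: the case of two elements, from the classification of MP_b19acb_nt
-/

namespace Pool.Agent.ZQ

open Polynomial Finset Filter

open Pool.Agent.ZL (Fam geo)

/-- consecutive entries `x, y` satisfy `x ≤ y ≤ 3 x` -/
private def Good (x y : ℕ) : Prop := x ≤ y ∧ y ≤ 3 * x

private theorem chain_geo (x : ℕ) : ∀ k : ℕ, List.IsChain Good (geo x k)
  | 0 => List.isChain_nil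
  | 1 => List.isChain_singleton _
  | k + 2 => by
      have h := chain_geo (2 * x) (k + 1)
      rw [geo, geo]
      rw [geo] at h
      exact List.isChain_cons_cons.mpr ⟨⟨by omega, by omega⟩, h⟩

private theorem chain_cons_geo {y x : ℕ} (h : Good y x) : ∀ k : ℕ, List.IsChain Good (y :: geo x k)
  | 0 => List.isChain_singleton _
  | k + 1 => by
      have h' := chain_geo x (k + 1)
      rw [geo] at h' ⊢
      exact List.isChain_cons_cons.mpr ⟨h, h'⟩

private theorem chain_fam {s : List ℕ} (h : Fam s) : List.IsChain Good s := by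
  cases h with
  | I e n k hn hk =>
      refine chain_cons_geo ?_ k
      obtain ⟨m, rfl⟩ : ∃ m, n = m + 1 := ⟨n - 1, by omega⟩
      have h1 : 2 ^ (e + (m + 1)) = 2 ^ e * (2 * 2 ^ m) := by ring
      have h2 : 2 ^ (m + 1) = 2 * 2 ^ m := by ring
      have h3 : 1 ≤ 2 ^ m := Nat.one_le_two_pow
      constructor
      · rw [h1]
        exact Nat.mul_le_mul_left _ (by omega)
      · rw [h1, h2, mul_left_comm 3]
        exact Nat.mul_le_mul_left _ (by omega)
  | II e k hk => exact chain_cons_geo ⟨le_rfl, by omega⟩ k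
  | III e k =>
      have h1 : 2 ^ (e + 2) = 4 * 2 ^ e := by ring
      exact List.isChain_cons_cons.mpr ⟨⟨by omega, le_rfl⟩,
        chain_cons_geo ⟨by omega, by omega⟩ k⟩
  | IV e => exact List.isChain_cons_cons.mpr ⟨⟨by omega, by omega⟩, List.isChain_singleton _⟩
  | V e n hn =>
      refine List.isChain_cons_cons.mpr ⟨?_, List.isChain_singleton _⟩
      have h1 : 2 ^ (e + n) = 2 ^ e * 2 ^ n := by ring
      have h3 : 1 ≤ 2 ^ n := Nat.one_le_two_pow
      constructor
      · rw [h1]
        exact Nat.mul_le_mul_left _ (by omega)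
      · rw [h1, mul_left_comm 3]
        exact Nat.mul_le_mul_left _ (by omega)
  | VI e =>
      have h1 : 2 ^ (e + 1) = 2 * 2 ^ e := by ring
      exact List.isChain_cons_cons.mpr ⟨⟨by omega, by omega⟩,
        List.isChain_cons_cons.mpr ⟨⟨by omega, by omega⟩, List.isChain_singleton _⟩⟩

section

variable {F : Type*} [Field F] [Fintype F] (h2 : Fintype.card F = 2) [CharP F 2]

/-- the embedding of the prime field -/
private noncomputable def emb (F : Type*) [Field F] [CharP F 2] : ZMod 2 →+* F :=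
  ZMod.castHom (dvd_refl 2) F

include h2 in
private theorem emb_bij : Function.Bijective (emb F) := by
  rw [Fintype.bijective_iff_injective_and_card]
  refine ⟨(emb F).injective, ?_⟩
  rw [ZMod.card, h2]

include h2 in
private theorem sum_mon {K : Type*} [Field K] (ψ : F[X] →+* K) (d n : ℕ) :
    ∑ m ∈ ZL.mon d, ((ψ.comp (mapRingHom (emb F)) m)⁻¹) ^ n = ∑ m ∈ mon F d, ((ψ m)⁻¹) ^ n := by
  obtain ⟨e, he⟩ : ∃ e : ZMod 2 ≃+* F, (e : ZMod 2 →+* F) = emb F :=
    ⟨RingEquiv.ofBijective (emb F) (emb_bij h2), by ext; rfl⟩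
  refine Finset.sum_nbij' (fun m => m.map (emb F)) (fun m => m.map (e.symm : F →+* ZMod 2))
    ?_ ?_ ?_ ?_ ?_
  · intro m hm
    obtain ⟨h3, h4⟩ := ZL.mem_mon.1 hm
    exact mem_mon.2 ⟨h3.map _, by rw [h3.natDegree_map, h4]⟩
  · intro m hm
    obtain ⟨h3, h4⟩ := mem_mon.1 hm
    exact ZL.mem_mon.2 ⟨h3.map _, by rw [h3.natDegree_map, h4]⟩
  · intro m _
    rw [← he]
    ext i
    simp
  · intro m _
    rw [← he]
    ext i
    simp
  · intro m _
    rfl

end

open scoped Valued

section

variable {F : Type*} [Field F] [Fintype F] (h2 : Fintype.card F = 2) [CharP F 2]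

private noncomputable def set2 (F : Type*) [Field F] [CharP F 2] :
    ZL.Setup (RatFunc F) (Kinf F) where
  φ := algebraMap (RatFunc F) (Kinf F)
  O := (algebraMap F[X] (RatFunc F)).range
  θ := RatFunc.X
  norm_ge := by
    rintro _ ⟨P, rfl⟩ hP
    have hP0 : P ≠ 0 := by
      intro h
      rw [h, map_zero] at hP
      exact hP rfl
    rw [Valued.toNormedField.one_le_norm_iff, ks_alg, RatFunc.inftyValuation.polynomial _ hP0]
    rw [← WithZero.exp_zero, WithZero.exp_le_exp]
    exact Int.natCast_nonneg _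
  frac := by
    intro x
    refine ⟨algebraMap F[X] (RatFunc F) x.denom, ⟨_, rfl⟩, ?_, x.num, ?_⟩
    · exact (map_ne_zero_iff _ (IsFractionRing.injective F[X] (RatFunc F))).2
        x.denom_ne_zero
    · have h1 := x.num_div_denom
      have h2 : algebraMap F[X] (RatFunc F) x.denom ≠ 0 :=
        (map_ne_zero_iff _ (IsFractionRing.injective F[X] (RatFunc F))).2
          x.denom_ne_zero
      rw [div_eq_iff h2] at h1
      rw [h1, mul_comm]
  θ_mem := ⟨X, RatFunc.algebraMap_X⟩
  hθ := by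
    rw [Valued.toNormedField.one_lt_norm_iff, ks_X, ← WithZero.exp_zero, WithZero.exp_lt_exp]
    exact zero_lt_one

theorem binary_bounds (h2 : Fintype.card F = 2) {s : List ℕ} (hs : ∀ a ∈ s, 1 ≤ a)
    (h : ZetaLike F s) (i : ℕ) (hi : i + 1 < s.length) :
    s[i] ≤ s[i + 1] ∧ s[i + 1] ≤ 3 * s[i] := by
  haveI : Fact (Nat.Prime 2) := ⟨Nat.prime_two⟩
  have hq : Fintype.card F = 2 ^ 1 := by rw [h2, pow_one]
  obtain ⟨c, hc⟩ := zetaLike_zeta le_rfl hq hs h
  set S := theSetup (F := F) (p := 2) le_rfl hq with hS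
  set T := set2 F with hT
  have hφ : S.φ = T.φ := rfl
  have hθ : S.θ = T.θ := rfl
  have hD : S.D = T.D := by
    rw [Setup.D, ZL.Setup.D, hθ, CharTwo.sub_eq_add]
    congr 1
    rw [h2]
  have hps : ∀ (d : ℕ) {n : ℕ}, 1 ≤ n → ps (Fintype.card F) S.D d n = ZL.ps T.D d n := by
    intro d n hn
    have e1 := ps_eq_sum hq le_rfl S.D S.br_ne' rfl (ψ := algebraMap F[X] (RatFunc F))
      (by rw [RatFunc.algebraMap_X]; rfl) (IsFractionRing.injective F[X] (RatFunc F)) d hn
    have e2 := ZL.ps_eq_sum T.D T.br_ne'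
      (ψ := (algebraMap F[X] (RatFunc F)).comp (mapRingHom (emb F)))
      (by
        rw [RingHom.comp_apply, coe_mapRingHom, map_X, RatFunc.algebraMap_X]
        rfl)
      (by
        rw [RingHom.coe_comp]
        refine (IsFractionRing.injective F[X] (RatFunc F)).comp ?_
        rw [coe_mapRingHom]
        exact Polynomial.map_injective _ (emb F).injective) d hn
    rw [← e1, ← e2, sum_mon h2]
  have hzg : ∀ (l : List ℕ), (∀ a ∈ l, 1 ≤ a) → ∀ d, S.zg l d = T.zg l d := by
    intro l
    induction l with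
    | nil =>
      intro _ d
      rw [Setup.zg, ZL.Setup.zg]
    | cons n l ih =>
      intro hl d
      rw [Setup.zg, ZL.Setup.zg]
      refine tsum_congr fun e => ?_
      rw [hps _ (hl n List.mem_cons_self), ih (fun b hb => hl b (List.mem_cons_of_mem n hb)), hφ]
  have hzeta : ∀ l : List ℕ, (∀ a ∈ l, 1 ≤ a) → S.zeta l = T.zeta l := by
    intro l hl
    rw [Setup.zeta, ZL.Setup.zeta]
    exact hzg _ (fun a ha => hl a (List.mem_reverse.1 ha)) 0
  have hsum : 1 ≤ s.sum := by
    rcases s with _ | ⟨a, s⟩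
    · simp at hi
    · have := hs a (by simp)
      rw [List.sum_cons]
      omega
  rw [hzeta s hs, hzeta [s.sum] (by simpa using hsum)] at hc
  have hfam : Fam s := (T.zeta_like_iff hs (by omega)).1 ⟨c, hc⟩
  have h1 := chain_fam hfam
  exact List.isChain_iff_getElem.mp h1 i hi

end

end Pool.Agent.ZQ
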