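import Mathlib

/-!
# MP_43901b, block H: definitions (power sums of `F_q[θ]` through polynomials in `v`)

`q` is a prime power, `D = θ^q - θ`, `[i] = θ^(q^i) - θ = br q D i`, `ℓ_d = ell q D d = ∏_{1≤i≤d} (-[i])`,
`v_d = [d]^q/D`.  Everything depends only on `q` and `D`.
-/

namespace Pool.Agent.ZQ

open Polynomial Finset

/-! ### A generating function over a commutative ring -/

section Ring

variable {R : Type*} [CommRing R]

/-- The power series `c_0 z + c_1 z^q + c_2 z^(q^2) + ...`. -/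
noncomputable def ser (q : ℕ) (c : ℕ → R) : PowerSeries R :=
  PowerSeries.mk fun n => if n = q ^ Nat.log q n then c (Nat.log q n) else 0

/-- Coefficients of `1 / (1 - c_0 z - c_1 z^q - c_2 z^(q^2) - ...)`. -/
noncomputable def gg (q : ℕ) (c : ℕ → R) (n : ℕ) : R :=
  PowerSeries.coeff n (PowerSeries.invOfUnit (1 - ser q c) 1)

end Ring

section Field

variable {K : Type*} [Field K]

/-- The bracket `[i] = θ^(q^i) - θ = D + D^q + ... + D^(q^(i-1))`, where `D = θ^q - θ`. -/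
noncomputable def br (q : ℕ) (D : K) (i : ℕ) : K := ∑ l ∈ range i, D ^ q ^ l

/-- `ℓ_d = ∏_{1 ≤ i ≤ d} (-[i])`. -/
noncomputable def ell (q : ℕ) (D : K) (d : ℕ) : K := ∏ i ∈ range d, (-br q D (i + 1))

/-- `v_d = [d]^q / D`. -/
noncomputable def vv (q : ℕ) (D : K) (d : ℕ) : K := br q D d ^ q / D

/-- The polynomials `e_i(v)`: `e_0 = 1`, `e_(i+1) = ([i]^q - D v)/[i+1] * e_i^q`. -/
noncomputable def ev (q : ℕ) (D : K) : ℕ → K[X]
  | 0 => 1
  | i + 1 => C (br q D (i + 1))⁻¹ * (C (br q D i ^ q) - C D * X) * ev q D i ^ q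

/-- The polynomial `P_n(v)`, `n ≥ 1`: `S_d(n) = P_n(v_d)/ℓ_d^n`. -/
noncomputable def PP (q : ℕ) (D : K) (n : ℕ) : K[X] := gg q (ev q D) (n - 1)

/-- The power sum `S_d(n)` over the monic polynomials of degree `d`. -/
noncomputable def ps (q : ℕ) (D : K) (d n : ℕ) : K :=
  (PP q D n).eval (vv q D d) / ell q D d ^ n

/-- The multiple power sum `S_{<d}(s_1, ..., s_r)`, the sum over `d > d_1 > ... > d_r ≥ 0`. -/
noncomputable def SS (q : ℕ) (D : K) : List ℕ → ℕ → K
  | [], _ => 1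
  | k :: s, d => ∑ i ∈ range d, ps q D i k * SS q D s i

/-- `v_(d+1) = vp(v_d)`. -/
noncomputable def vp (q : ℕ) (D : K) : K[X] := C (D ^ (q - 1)) * (1 + X) ^ q

/-- `ℓ_(d+1) = bet(v_d) ℓ_d`. -/
noncomputable def bet (D : K) : K[X] := -(C D * (1 + X))

/-- `R` is the polynomial of the tuple `s`: `S_{<d}(s) = R(v_d)/ℓ_d^|s|` for all `d`; the degree of `R`
is exactly `|s|/(q-1)`, and the same for all the suffixes of `s`. -/
def Ch (q : ℕ) (D : K) : List ℕ → K[X] → Prop
  | [], R => R = 1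
  | a :: s, R => ∃ R' : K[X], Ch q D s R' ∧
      R.comp (vp q D) = bet D ^ (a + s.sum) * (R + PP q D a * R') ∧
      (q - 1) * R.natDegree = a + s.sum

end Field

end Pool.Agent.ZQ
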