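import Pool.Agent.Work.MP_43901b_nt.H.Base

/-!
# GG: coefficients of 1/(1 - c_0 z - c_1 z^q - c_2 z^(q^2) - ...)
-/

namespace Pool.Agent.ZQ

open Polynomial Finset

section

variable {R : Type*} [CommRing R] {q : ℕ} (hq2 : 2 ≤ q)

theorem coeff_ser (q : ℕ) (c : ℕ → R) (n : ℕ) : PowerSeries.coeff n (ser q c) =
    if n = q ^ Nat.log q n then c (Nat.log q n) else 0 := PowerSeries.coeff_mk _ _

include hq2

/-- coefficients of a product with `ser c` -/
theorem coeff_ser_mul (c : ℕ → R) (F : PowerSeries R) (n : ℕ) :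
    PowerSeries.coeff n (ser q c * F) = ∑ i ∈ range (n + 1),
      if q ^ i ≤ n then c i * PowerSeries.coeff (n - q ^ i) F else 0 := by
  rw [PowerSeries.coeff_mul,
    Finset.Nat.sum_antidiagonal_eq_sum_range_succ_mk]
  have h1 : ∀ k ∈ range (n + 1), PowerSeries.coeff k (ser q c) * PowerSeries.coeff (n - k) F =
      if k = q ^ Nat.log q k then c (Nat.log q k) * PowerSeries.coeff (n - k) F else 0 := by
    intro k _
    rw [coeff_ser]
    split_ifs
    · rfl
    · rw [zero_mul]
  rw [Finset.sum_congr rfl h1, ← Finset.sum_filter, ← Finset.sum_filter]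
  refine Finset.sum_nbij' (Nat.log q) (fun i => q ^ i) ?_ ?_ ?_ ?_ ?_
  · intro k hk
    rw [Finset.mem_filter, Finset.mem_range] at hk ⊢
    refine ⟨lt_of_le_of_lt (Nat.log_le_self q k) hk.1, ?_⟩
    rw [← hk.2]
    omega
  · intro i hi
    rw [Finset.mem_filter, Finset.mem_range] at hi
    rw [Finset.mem_filter, Finset.mem_range, Nat.log_pow (by omega)]
    exact ⟨by omega, rfl⟩
  · intro k hk
    rw [Finset.mem_filter] at hk
    exact hk.2.symm
  · intro i _
    exact Nat.log_pow (by omega) i
  · intro k hk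
    rw [Finset.mem_filter] at hk
    rw [← hk.2]

theorem constantCoeff_ser (c : ℕ → R) : PowerSeries.constantCoeff (ser q c) = 0 := by
  rw [← PowerSeries.coeff_zero_eq_constantCoeff_apply, coeff_ser, if_neg]
  have : 0 < q ^ Nat.log q 0 := pow_pos (by omega) _
  omega

theorem gg_const (c : ℕ → R) :
    PowerSeries.constantCoeff (1 - ser q c) = ((1 : Rˣ) : R) := by
  rw [map_sub, constantCoeff_ser hq2, sub_zero, map_one, Units.val_one]

omit hq2 in
theorem gg_mk (c : ℕ → R) : (PowerSeries.mk fun n => gg q c n) =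
    PowerSeries.invOfUnit (1 - ser q c) 1 := by
  ext n
  rw [PowerSeries.coeff_mk]
  rfl

omit hq2 in
/-- inverses of power series are unique -/
theorem ser_inv_unique {P A B : PowerSeries R} (hA : P * A = 1) (hB : P * B = 1) : A = B := by
  calc A = A * (P * B) := by rw [hB, mul_one]
    _ = (P * A) * B := by ring
    _ = B := by rw [hA, one_mul]

omit hq2 in
theorem gg_zero (c : ℕ → R) : gg q c 0 = 1 := by
  unfold gg
  rw [PowerSeries.coeff_zero_eq_constantCoeff_apply, PowerSeries.constantCoeff_invOfUnit]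
  simp

theorem gg_inv (c : ℕ → R) :
    (1 - ser q c) * (PowerSeries.mk fun n => gg q c n) = (1 : PowerSeries R) := by
  rw [gg_mk]
  exact PowerSeries.mul_invOfUnit _ _ (gg_const hq2 c)

theorem gg_map {S : Type*} [CommRing S] (f : R →+* S) (c : ℕ → R) (n : ℕ) :
    f (gg q c n) = gg q (fun i => f (c i)) n := by
  have h1 : PowerSeries.map f (1 - ser q c) = 1 - ser q (fun i => f (c i)) := by
    rw [map_sub, map_one]
    congr 1
    ext n
    rw [PowerSeries.coeff_map, coeff_ser, coeff_ser]
    split_ifs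
    · rfl
    · rw [map_zero]
  have h2 : (1 - ser q (fun i => f (c i))) * PowerSeries.map f (PowerSeries.mk fun n => gg q c n) =
      1 := by
    rw [← h1, ← map_mul, gg_inv hq2, map_one]
  have h3 := ser_inv_unique h2 (gg_inv hq2 fun i => f (c i))
  have h4 := congrArg (PowerSeries.coeff n) h3
  rw [PowerSeries.coeff_map, PowerSeries.coeff_mk, PowerSeries.coeff_mk] at h4
  exact h4

theorem gg_rec (c : ℕ → R) {n : ℕ} (hn : 1 ≤ n) :
    gg q c n = ∑ i ∈ range (n + 1), if q ^ i ≤ n then c i * gg q c (n - q ^ i) else 0 := by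
  have h1 := congrArg (PowerSeries.coeff n) (gg_inv hq2 c)
  rw [sub_mul, one_mul, map_sub, PowerSeries.coeff_mk, coeff_ser_mul hq2, PowerSeries.coeff_one,
    if_neg (by omega), sub_eq_zero] at h1
  rw [h1]
  refine Finset.sum_congr rfl fun i _ => ?_
  rw [PowerSeries.coeff_mk]

theorem gg_scale (c : ℕ → R) (a : R) (n : ℕ) :
    gg q (fun i => a ^ q ^ i * c i) n = a ^ n * gg q c n := by
  induction n using Nat.strong_induction_on with
  | _ n ih =>
    rcases Nat.eq_zero_or_pos n with rfl | hn
    · rw [gg_zero, gg_zero, pow_zero, one_mul]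
    · rw [gg_rec hq2 _ hn, gg_rec hq2 c hn, Finset.mul_sum]
      refine Finset.sum_congr rfl fun i _ => ?_
      by_cases h : q ^ i ≤ n
      · rw [if_pos h, if_pos h, ih (n - q ^ i) (Nat.sub_lt hn (pow_pos (by omega) _))]
        have e : a ^ n = a ^ q ^ i * a ^ (n - q ^ i) := by
          rw [← pow_add, Nat.add_sub_cancel' h]
        rw [e]
        ring
      · rw [if_neg h, if_neg h, mul_zero]

end

/-! ### Degrees -/

section Deg

variable {K : Type*} [Field K] {q : ℕ} (hq2 : 2 ≤ q) (D : K)

include hq2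

theorem ev_natDegree (i : ℕ) : (q - 1) * (ev q D i).natDegree ≤ q ^ i - 1 := by
  induction i with
  | zero => rw [ev_zero, natDegree_one]; omega
  | succ i ih =>
    have h1 : (ev q D (i + 1)).natDegree ≤ 1 + q * (ev q D i).natDegree := by
      rw [ev_succ]
      refine (natDegree_mul_le).trans ?_
      refine add_le_add ((natDegree_C_mul_le _ _).trans ?_) natDegree_pow_le
      refine (natDegree_sub_le _ _).trans (max_le (by rw [natDegree_C]; omega) ?_)
      exact (natDegree_C_mul_le _ _).trans natDegree_X_le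
    have h2 : 1 ≤ q ^ i := Nat.one_le_pow _ _ (by omega)
    calc (q - 1) * (ev q D (i + 1)).natDegree ≤ (q - 1) * (1 + q * (ev q D i).natDegree) :=
          Nat.mul_le_mul_left _ h1
      _ = (q - 1) + q * ((q - 1) * (ev q D i).natDegree) := by ring
      _ ≤ (q - 1) + q * (q ^ i - 1) := by
          exact Nat.add_le_add_left (Nat.mul_le_mul_left _ ih) _
      _ = q ^ (i + 1) - 1 := by
          obtain ⟨m, hm⟩ : ∃ m, q ^ i = m + 1 := ⟨q ^ i - 1, by omega⟩
          obtain ⟨r, rfl⟩ : ∃ r, q = r + 1 := ⟨q - 1, by omega⟩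
          rw [pow_succ, hm]
          simp only [Nat.add_sub_cancel]
          have : (m + 1) * (r + 1) = r + (r + 1) * m + 1 := by ring
          omega

theorem gg_natDegree (n : ℕ) : (q - 1) * (gg q (ev q D) n).natDegree ≤ n := by
  induction n using Nat.strong_induction_on with
  | _ n ih =>
    rcases Nat.eq_zero_or_pos n with rfl | hn
    · rw [gg_zero, natDegree_one, mul_zero]
    · rw [gg_rec hq2 _ hn]
      have h1 : ∀ i ∈ range (n + 1), (q - 1) * (if q ^ i ≤ n then ev q D i *
          gg q (ev q D) (n - q ^ i) else 0).natDegree ≤ n := by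
        intro i _
        split_ifs with h
        · have h2 := ih (n - q ^ i) (Nat.sub_lt hn (pow_pos (by omega) _))
          have h3 := ev_natDegree hq2 D i
          have h4 : 1 ≤ q ^ i := Nat.one_le_pow _ _ (by omega)
          calc (q - 1) * (ev q D i * gg q (ev q D) (n - q ^ i)).natDegree
              ≤ (q - 1) * ((ev q D i).natDegree + (gg q (ev q D) (n - q ^ i)).natDegree) :=
                Nat.mul_le_mul_left _ natDegree_mul_le
            _ ≤ (q ^ i - 1) + (n - q ^ i) := by
                rw [mul_add]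
                exact add_le_add h3 h2
            _ ≤ n := by omega
        · rw [natDegree_zero, mul_zero]
          exact Nat.zero_le _
      by_cases hq : q - 1 = 0
      · rw [hq, zero_mul]
        exact Nat.zero_le _
      · have h5 : (∑ i ∈ range (n + 1), if q ^ i ≤ n then ev q D i *
            gg q (ev q D) (n - q ^ i) else 0).natDegree ≤ n / (q - 1) := by
          refine natDegree_sum_le_of_forall_le _ _ fun i hi => ?_
          rw [Nat.le_div_iff_mul_le (by omega), mul_comm]
          exact h1 i hi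
        calc _ ≤ (q - 1) * (n / (q - 1)) := Nat.mul_le_mul_left _ h5
          _ ≤ n := Nat.mul_div_le _ _

theorem PP_natDegree (n : ℕ) : (q - 1) * (PP q D n).natDegree ≤ n - 1 := gg_natDegree hq2 D _

theorem PP_natDegree' (n : ℕ) : (PP q D n).natDegree ≤ (n - 1) / (q - 1) := by
  rw [Nat.le_div_iff_mul_le (by omega), mul_comm]
  exact PP_natDegree hq2 D n

end Deg

end Pool.Agent.ZQ
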