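import Pool.Agent.Work.MP_43901b_nt.H.Norms
import Pool.Agent.Work.MP_43901b_nt.H.GG

/-!
# Integ: integrality of `e_i`, `P_n`; norms of the power sums
-/

namespace Pool.Agent.ZQ

open Polynomial Finset

/-- all the coefficients have norm at most 1 -/
def IntP {L : Type*} [NormedField L] (P : L[X]) : Prop := ∀ j, ‖P.coeff j‖ ≤ 1

section IntP

variable {L : Type*} [NormedField L] [IsUltrametricDist L]

omit [IsUltrametricDist L] in
theorem intP_zero : IntP (0 : L[X]) := fun j => by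
  rw [coeff_zero, norm_zero]
  exact zero_le_one

omit [IsUltrametricDist L] in
theorem intP_one : IntP (1 : L[X]) := fun j => by
  rw [coeff_one]
  split_ifs
  · rw [norm_one]
  · rw [norm_zero]
    exact zero_le_one

omit [IsUltrametricDist L] in
theorem intP_C {c : L} (hc : ‖c‖ ≤ 1) : IntP (C c) := fun j => by
  rw [coeff_C]
  split_ifs
  · exact hc
  · rw [norm_zero]
    exact zero_le_one

omit [IsUltrametricDist L] in
theorem intP_X : IntP (X : L[X]) := fun j => by
  rw [coeff_X]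
  split_ifs
  · rw [norm_one]
  · rw [norm_zero]
    exact zero_le_one

theorem intP_add {P Q : L[X]} (hP : IntP P) (hQ : IntP Q) : IntP (P + Q) := fun j => by
  rw [coeff_add]
  exact (IsUltrametricDist.norm_add_le_max _ _).trans (max_le (hP j) (hQ j))

omit [IsUltrametricDist L] in
theorem intP_neg {P : L[X]} (hP : IntP P) : IntP (-P) := fun j => by
  rw [coeff_neg, norm_neg]
  exact hP j

theorem intP_sub {P Q : L[X]} (hP : IntP P) (hQ : IntP Q) : IntP (P - Q) := by
  rw [sub_eq_add_neg]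
  exact intP_add hP (intP_neg hQ)

theorem intP_mul {P Q : L[X]} (hP : IntP P) (hQ : IntP Q) : IntP (P * Q) := fun j => by
  rw [coeff_mul]
  refine IsUltrametricDist.norm_sum_le_of_forall_le_of_nonneg zero_le_one fun x _ => ?_
  rw [norm_mul]
  exact mul_le_one₀ (hP _) (norm_nonneg _) (hQ _)

theorem intP_pow {P : L[X]} (hP : IntP P) (n : ℕ) : IntP (P ^ n) := by
  induction n with
  | zero => rw [pow_zero]; exact intP_one
  | succ n ih => rw [pow_succ]; exact intP_mul ih hP

theorem intP_sum {ι : Type*} {T : Finset ι} {P : ι → L[X]} (hP : ∀ i ∈ T, IntP (P i)) :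
    IntP (∑ i ∈ T, P i) := fun j => by
  rw [finsetSum_coeff]
  exact IsUltrametricDist.norm_sum_le_of_forall_le_of_nonneg zero_le_one fun i hi => hP i hi j

theorem intP_gg {q : ℕ} (hq2 : 2 ≤ q) {c : ℕ → L[X]} (hc : ∀ i, IntP (c i)) (n : ℕ) :
    IntP (gg q c n) := by
  induction n using Nat.strong_induction_on with
  | _ n ih =>
    rcases Nat.eq_zero_or_pos n with rfl | hn
    · rw [gg_zero]
      exact intP_one
    · rw [gg_rec hq2 _ hn]
      refine intP_sum fun i _ => ?_
      split_ifs with h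
      · exact intP_mul (hc i) (ih _ (Nat.sub_lt hn (pow_pos (by omega) _)))
      · exact intP_zero

/-- the value of an integral polynomial of degree `≤ n` -/
theorem intP_eval {P : L[X]} (hP : IntP P) {n : ℕ} (hn : P.natDegree ≤ n) {x : L}
    (hx : 1 ≤ ‖x‖) : ‖P.eval x‖ ≤ ‖x‖ ^ n := by
  rw [eval_eq_sum_range]
  refine IsUltrametricDist.norm_sum_le_of_forall_le_of_nonneg (pow_nonneg (norm_nonneg _) _)
    fun j hj => ?_
  rw [Finset.mem_range] at hj
  rw [norm_mul, norm_pow]
  calc ‖P.coeff j‖ * ‖x‖ ^ j ≤ 1 * ‖x‖ ^ n :=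
        mul_le_mul (hP j) (pow_le_pow_right₀ hx (by omega)) (pow_nonneg (norm_nonneg _) _)
          zero_le_one
    _ = _ := one_mul _

theorem intP_eval_one {P : L[X]} (hP : IntP P) {x : L} (hx : ‖x‖ ≤ 1) : ‖P.eval x‖ ≤ 1 := by
  rw [eval_eq_sum_range]
  refine IsUltrametricDist.norm_sum_le_of_forall_le_of_nonneg zero_le_one fun j hj => ?_
  rw [norm_mul, norm_pow]
  exact mul_le_one₀ (hP j) (pow_nonneg (norm_nonneg _) _) (pow_le_one₀ (norm_nonneg _) hx)

end IntP

variable {p f q : ℕ} [Fact p.Prime] (hq : q = p ^ f) (hf : 1 ≤ f) {L : Type*} [NormedField L]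
  [IsUltrametricDist L] [CharP L p] (D : L) (hD : 1 < ‖D‖)

include hq hf hD

omit [CharP L p] in
theorem intP_ev (i : ℕ) : IntP (ev q D i) := by
  have h2 := two_le_q hq hf
  have h0 : 0 < ‖D‖ := zero_lt_one.trans hD
  induction i with
  | zero => rw [ev_zero]; exact intP_one
  | succ i ih =>
    rw [ev_succ, mul_sub, ← mul_assoc, ← C_mul, ← C_mul]
    refine intP_mul (intP_sub (intP_C ?_) (intP_mul (intP_C ?_) intP_X)) (intP_pow ih q)
    · rw [norm_mul, norm_inv, norm_pow, norm_br hq hf D hD]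
      rcases Nat.eq_zero_or_pos i with rfl | hi
      · rw [br_zero, norm_zero, zero_pow (by omega), mul_zero]
        exact zero_le_one
      · obtain ⟨j, rfl⟩ : ∃ j, i = j + 1 := ⟨i - 1, by omega⟩
        rw [norm_br hq hf D hD, ← pow_mul, ← pow_succ, inv_mul_cancel₀ (pow_pos h0 _).ne']
    · rw [norm_mul, norm_inv, norm_br hq hf D hD, inv_mul_le_iff₀ (pow_pos h0 _), mul_one]
      calc ‖D‖ = ‖D‖ ^ 1 := (pow_one _).symm
        _ ≤ ‖D‖ ^ q ^ i := pow_le_pow_right₀ hD.le (Nat.one_le_pow _ _ (by omega))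

omit [CharP L p] in
theorem intP_PP (n : ℕ) : IntP (PP q D n) :=
  intP_gg (two_le_q hq hf) (intP_ev hq hf D hD) _

omit [CharP L p] in
/-- the norm of a power sum -/
theorem norm_ps_le (d : ℕ) {n : ℕ} (hn : 1 ≤ n) :
    ‖ps q D d n‖ ≤ ‖D‖⁻¹ ^ (rr q d * (n - (q - 1) * ((n - 1) / (q - 1)))) := by
  have h2 := two_le_q hq hf
  have h0 : 0 < ‖D‖ := zero_lt_one.trans hD
  rcases Nat.eq_zero_or_pos d with rfl | hd
  · rw [rr_zero, zero_mul, pow_zero, ps, vv_zero hq, ell_zero, one_pow, div_one]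
    exact intP_eval_one (intP_PP hq hf D hD n) (by rw [norm_zero]; exact zero_le_one)
  · have hv : 1 ≤ ‖vv q D d‖ := by
      rw [norm_vv' hq hf D hD hd]
      exact one_le_pow₀ hD.le
    have h3 := intP_eval (intP_PP hq hf D hD n) (PP_natDegree' h2 D n) hv
    have h4 : (q - 1) * ((n - 1) / (q - 1)) ≤ n - 1 := Nat.mul_div_le _ _
    have h5 : rr q d * n = rr q d * (n - (q - 1) * ((n - 1) / (q - 1))) +
        (q - 1) * rr q d * ((n - 1) / (q - 1)) := by
      have h6 : n = (n - (q - 1) * ((n - 1) / (q - 1))) + (q - 1) * ((n - 1) / (q - 1)) := by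
        omega
      conv_lhs => rw [h6]
      ring
    rw [ps, norm_div, norm_pow, norm_ell hq hf D hD, div_le_iff₀ (pow_pos (pow_pos h0 _) _)]
    refine h3.trans ?_
    rw [norm_vv' hq hf D hD hd, ← pow_mul, ← pow_mul, h5, pow_add, ← mul_assoc, inv_pow,
      inv_mul_cancel₀ (pow_pos h0 _).ne', one_mul]

end Pool.Agent.ZQ
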