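import Pool.Agent.Work.MP_43901b_nt.H.Tbase
import Pool.Agent.Work.MP_43901b_nt.H.Integ

/-!
# Zg: the tails of the multizeta series and the splitting identity
-/

namespace Pool.Agent.ZQ

open Polynomial Finset Filter

/-- the sum of the `⌊(a-1)/(q-1)⌋` -/
def NN (q : ℕ) : List ℕ → ℕ
  | [] => 0
  | n :: l => (n - 1) / (q - 1) + NN q l

theorem NN_le (q : ℕ) {l : List ℕ} (hl : ∀ a ∈ l, 1 ≤ a) :
    (q - 1) * NN q l + l.length ≤ l.sum := by
  induction l with
  | nil => simp [NN]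
  | cons n l ih =>
    have h1 := ih fun b hb => hl b (List.mem_cons_of_mem n hb)
    have h2 := hl n List.mem_cons_self
    have h3 : (q - 1) * ((n - 1) / (q - 1)) ≤ n - 1 := Nat.mul_div_le _ _
    rw [NN, List.length_cons, List.sum_cons, mul_add]
    omega

variable {p q : ℕ} {k L : Type*} [Fact p.Prime] [Field k] [CharP k p] [NormedField L]
  [CompleteSpace L] [IsUltrametricDist L] [CharP L p] (S : Setup p q k L)

namespace Setup

private theorem zg_q : 0 < ‖S.φ S.D‖⁻¹ ∧ ‖S.φ S.D‖⁻¹ < 1 :=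
  ⟨inv_pos.2 (zero_lt_one.trans S.one_lt_D), inv_lt_one_of_one_lt₀ S.one_lt_D⟩

theorem norm_ps (d : ℕ) {n : ℕ} (hn : 1 ≤ n) :
    ‖S.φ (ps q S.D d n)‖ ≤
      ‖S.φ S.D‖⁻¹ ^ (rr q d * (n - (q - 1) * ((n - 1) / (q - 1)))) := by
  rw [S.map_ps]
  exact norm_ps_le S.hq S.one_le_f (S.φ S.D) S.one_lt_D d hn

private theorem zg_ps_one (d : ℕ) {n : ℕ} (hn : 1 ≤ n) : ‖S.φ (ps q S.D d n)‖ ≤ 1 :=
  (S.norm_ps d hn).trans (pow_le_one₀ S.zg_q.1.le S.zg_q.2.le)

theorem norm_SS_le {s : List ℕ} (hs : ∀ a ∈ s, 1 ≤ a) (d : ℕ) : ‖S.φ (SS q S.D s d)‖ ≤ 1 := by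
  induction s generalizing d with
  | nil => rw [SS_nil, map_one, norm_one]
  | cons a s ih =>
    rw [SS, map_sum]
    refine IsUltrametricDist.norm_sum_le_of_forall_le_of_nonneg zero_le_one fun i _ => ?_
    rw [map_mul, norm_mul]
    exact mul_le_one₀ (S.zg_ps_one i (hs a List.mem_cons_self)) (norm_nonneg _)
      (ih (fun b hb => hs b (List.mem_cons_of_mem a hb)) i)

private theorem zg_exp {n : ℕ} {l : List ℕ} (hn : 1 ≤ n) (hl : ∀ a ∈ l, 1 ≤ a) :
    (n :: l).sum - (q - 1) * NN q (n :: l) =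
      (n - (q - 1) * ((n - 1) / (q - 1))) + (l.sum - (q - 1) * NN q l) := by
  have h1 := NN_le q hl
  have h3 : (q - 1) * ((n - 1) / (q - 1)) ≤ n - 1 := Nat.mul_div_le _ _
  rw [List.sum_cons, NN, mul_add]
  omega

theorem norm_zg {l : List ℕ} (hl : ∀ a ∈ l, 1 ≤ a) (d : ℕ) :
    ‖S.zg l d‖ ≤ ‖S.φ S.D‖⁻¹ ^ (rr q d * (l.sum - (q - 1) * NN q l)) := by
  induction l generalizing d with
  | nil => rw [zg, norm_one, List.sum_nil, Nat.zero_sub, mul_zero, pow_zero]
  | cons n l ih =>
    have hn := hl n List.mem_cons_self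
    have hl' : ∀ a ∈ l, 1 ≤ a := fun b hb => hl b (List.mem_cons_of_mem n hb)
    rw [zg]
    refine IsUltrametricDist.norm_tsum_le_of_forall_le fun e => ?_
    rw [norm_mul]
    refine (mul_le_mul (S.norm_ps (d + e) hn) (ih hl' (d + e + 1)) (norm_nonneg _)
      (pow_nonneg S.zg_q.1.le _)).trans ?_
    rw [← pow_add]
    refine pow_le_pow_of_le_one S.zg_q.1.le S.zg_q.2.le ?_
    rw [zg_exp hn hl', mul_add]
    exact add_le_add (Nat.mul_le_mul_right _ (rr_mono (by omega)))
      (Nat.mul_le_mul_right _ (rr_mono (by omega)))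

theorem norm_zg_le {l : List ℕ} (hl : ∀ a ∈ l, 1 ≤ a) (d : ℕ) : ‖S.zg l d‖ ≤ 1 :=
  (S.norm_zg hl d).trans (pow_le_one₀ S.zg_q.1.le S.zg_q.2.le)

private theorem zg_term {n : ℕ} {l : List ℕ} (hn : 1 ≤ n) (hl : ∀ a ∈ l, 1 ≤ a) (d : ℕ) :
    ‖S.φ (ps q S.D d n) * S.zg l (d + 1)‖ ≤ ‖S.φ S.D‖⁻¹ ^ d := by
  rw [norm_mul]
  have h1 : ‖S.φ (ps q S.D d n)‖ ≤ ‖S.φ S.D‖⁻¹ ^ d := by
    refine (S.norm_ps d hn).trans (pow_le_pow_of_le_one S.zg_q.1.le S.zg_q.2.le ?_)
    have h3 : (q - 1) * ((n - 1) / (q - 1)) ≤ n - 1 := Nat.mul_div_le _ _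
    have h4 : d ≤ rr q d := le_rr (by have := S.two_le; omega) d
    calc d ≤ rr q d * 1 := by rw [mul_one]; exact h4
      _ ≤ _ := Nat.mul_le_mul_left _ (by omega)
  calc ‖S.φ (ps q S.D d n)‖ * ‖S.zg l (d + 1)‖ ≤ ‖S.φ S.D‖⁻¹ ^ d * 1 :=
        mul_le_mul h1 (S.norm_zg_le hl _) (norm_nonneg _) (pow_nonneg S.zg_q.1.le _)
    _ = _ := mul_one _

private theorem zg_summable {n : ℕ} {l : List ℕ} (hn : 1 ≤ n) (hl : ∀ a ∈ l, 1 ≤ a) (d : ℕ) :
    Summable fun e : ℕ => S.φ (ps q S.D (d + e) n) * S.zg l (d + e + 1) := by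
  refine NonarchimedeanAddGroup.summable_of_tendsto_cofinite_zero ?_
  rw [Nat.cofinite_eq_atTop, tendsto_zero_iff_norm_tendsto_zero]
  refine squeeze_zero (fun e => norm_nonneg _) (fun e => S.zg_term hn hl (d + e)) ?_
  have h := (tendsto_pow_atTop_nhds_zero_of_lt_one S.zg_q.1.le S.zg_q.2).comp
    (tendsto_add_atTop_nat d)
  refine h.congr fun e => ?_
  simp only [Function.comp_apply]
  rw [Nat.add_comm e d]

theorem zg_succ {n : ℕ} {l : List ℕ} (hn : 1 ≤ n) (hl : ∀ a ∈ l, 1 ≤ a) (d : ℕ) :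
    S.zg (n :: l) d = S.φ (ps q S.D d n) * S.zg l (d + 1) + S.zg (n :: l) (d + 1) := by
  rw [zg, (S.zg_summable hn hl d).tsum_eq_zero_add, zg]
  congr 1
  refine tsum_congr fun e => ?_
  rw [show d + (e + 1) = d + 1 + e from by omega]

theorem zg_tendsto {l : List ℕ} (hl : ∀ a ∈ l, 1 ≤ a) (hne : l ≠ []) :
    Tendsto (S.zg l) atTop (nhds 0) := by
  rw [tendsto_zero_iff_norm_tendsto_zero]
  refine squeeze_zero (fun e => norm_nonneg _) (fun e => ?_)
    (tendsto_pow_atTop_nhds_zero_of_lt_one S.zg_q.1.le S.zg_q.2)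
  refine (S.norm_zg hl e).trans (pow_le_pow_of_le_one S.zg_q.1.le S.zg_q.2.le ?_)
  have h1 := NN_le q hl
  have h2 : 0 < l.length := List.length_pos_iff.2 hne
  have h4 : e ≤ rr q e := le_rr (by have := S.two_le; omega) e
  calc e ≤ rr q e * 1 := by rw [mul_one]; exact h4
    _ ≤ _ := Nat.mul_le_mul_left _ (by omega)

/-- the sum of `split`, by recursion with a reversed front part -/
private noncomputable def Sp : List ℕ → List ℕ → ℕ → L
  | l, [], d => S.zg l d
  | l, a :: s, d => S.zg l d * S.φ (SS q S.D (a :: s) d) + Sp (a :: l) s d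

private theorem sp_eq (s l : List ℕ) (d : ℕ) :
    ∑ j ∈ range (s.length + 1), S.zg ((s.take j).reverse ++ l) d * S.φ (SS q S.D (s.drop j) d) =
      S.Sp l s d := by
  induction s generalizing l with
  | nil => simp [Sp, SS_nil]
  | cons a s ih =>
    rw [List.length_cons, Finset.sum_range_succ', Sp, ← ih (a :: l), add_comm]
    congr 1
    refine Finset.sum_congr rfl fun j _ => ?_
    simp

private theorem sp_step (s l : List ℕ) (hs : ∀ a ∈ s, 1 ≤ a) (hl : ∀ a ∈ l, 1 ≤ a) (n : ℕ)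
    (hn : 1 ≤ n) (d : ℕ) :
    S.Sp (n :: l) s d = S.Sp (n :: l) s (d + 1) +
      S.zg l (d + 1) * S.φ (ps q S.D d n) * S.φ (SS q S.D s d) := by
  induction s generalizing l n with
  | nil =>
    rw [Sp, Sp, SS_nil, map_one, mul_one, S.zg_succ hn hl d]
    ring
  | cons a s ih =>
    rw [Sp, Sp, ih (n :: l) (fun b hb => hs b (List.mem_cons_of_mem a hb))
      (fun b hb => by
        rcases List.mem_cons.1 hb with rfl | hb
        · exact hn
        · exact hl b hb) a (hs a List.mem_cons_self), SS_succ, S.zg_succ hn hl d, map_add, map_mul]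
    ring

private theorem sp_zero (s l : List ℕ) : S.Sp l s 0 = S.zg (s.reverse ++ l) 0 := by
  induction s generalizing l with
  | nil => rw [Sp, List.reverse_nil, List.nil_append]
  | cons a s ih =>
    rw [Sp, SS_zero_cons, map_zero, mul_zero, zero_add, ih (a :: l), List.reverse_cons,
      List.append_assoc, List.singleton_append]

private theorem sp_nil {s : List ℕ} (hs : ∀ a ∈ s, 1 ≤ a) (d : ℕ) : S.Sp [] s d = S.zeta s := by
  have h0 : S.Sp [] s 0 = S.zeta s := by
    rw [sp_zero, List.append_nil, zeta]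
  rw [← h0]
  induction d with
  | zero => rfl
  | succ d ih =>
    rw [← ih]
    cases s with
    | nil => rw [Sp, Sp, zg, zg]
    | cons a s =>
      rw [Sp, Sp, S.sp_step s [] (fun b hb => hs b (List.mem_cons_of_mem a hb))
        (fun b hb => absurd hb List.not_mem_nil) a (hs a List.mem_cons_self) d, SS_succ,
        map_add, map_mul, zg, zg]
      ring

theorem split {s : List ℕ} (hs : ∀ a ∈ s, 1 ≤ a) (d : ℕ) :
    ∑ j ∈ range (s.length + 1), S.zg (s.take j).reverse d * S.φ (SS q S.D (s.drop j) d) =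
      S.zeta s := by
  rw [← S.sp_nil hs d, ← S.sp_eq s [] d]
  refine Finset.sum_congr rfl fun j _ => ?_
  rw [List.append_nil]

private theorem sp_tendsto (s l : List ℕ) (hs : ∀ a ∈ s, 1 ≤ a) (hl : ∀ a ∈ l, 1 ≤ a)
    (hne : l ≠ []) : Tendsto (S.Sp l s) atTop (nhds 0) := by
  induction s generalizing l with
  | nil =>
    refine (S.zg_tendsto hl hne).congr fun d => ?_
    rw [Sp]
  | cons a s ih =>
    have ha := hs a List.mem_cons_self
    have h1 := ih (a :: l) (fun b hb => hs b (List.mem_cons_of_mem a hb))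
      (fun b hb => by
        rcases List.mem_cons.1 hb with rfl | hb
        · exact ha
        · exact hl b hb) (List.cons_ne_nil a l)
    have h2 : Tendsto (fun d => S.zg l d * S.φ (SS q S.D (a :: s) d)) atTop (nhds 0) := by
      rw [tendsto_zero_iff_norm_tendsto_zero]
      refine squeeze_zero (fun d => norm_nonneg _) (fun d => ?_)
        (tendsto_zero_iff_norm_tendsto_zero.1 (S.zg_tendsto hl hne))
      rw [norm_mul]
      exact mul_le_of_le_one_right (norm_nonneg _) (S.norm_SS_le hs d)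
    have h3 := h2.add h1
    rw [add_zero] at h3
    refine h3.congr fun d => ?_
    rw [Sp]

theorem tendsto_SS {s : List ℕ} (hs : ∀ a ∈ s, 1 ≤ a) :
    Tendsto (fun d => S.φ (SS q S.D s d)) atTop (nhds (S.zeta s)) := by
  cases s with
  | nil =>
    have h : ∀ d : ℕ, S.φ (SS q S.D [] d) = S.zeta [] := fun d => by
      rw [SS_nil, map_one, zeta, List.reverse_nil, zg]
    simp only [h]
    exact tendsto_const_nhds
  | cons a s =>
    have h1 := S.sp_tendsto s [a] (fun b hb => hs b (List.mem_cons_of_mem a hb))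
      (fun b hb => by
        rw [List.mem_singleton.1 hb]
        exact hs a List.mem_cons_self) (List.cons_ne_nil a [])
    have h2 := (tendsto_const_nhds (x := S.zeta (a :: s)) (f := atTop (α := ℕ))).sub h1
    rw [sub_zero] at h2
    refine h2.congr fun d => ?_
    have h3 := S.sp_nil hs d
    rw [Sp, zg, one_mul] at h3
    rw [← h3]
    ring

/-- `ζ(n) ≠ 0` for a positive integer `n` -/
theorem zeta_single_ne {n : ℕ} (hn : 1 ≤ n) : S.zeta [n] ≠ 0 := by
  intro h0
  have h1 : ∀ a ∈ [n], 1 ≤ a := fun a ha => by rw [List.mem_singleton.1 ha]; exact hn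
  have h2 : S.zeta [n] = S.φ (ps q S.D 0 n) + S.zg [n] 1 := by
    rw [zeta, List.reverse_singleton, S.zg_succ hn (fun b hb => absurd hb List.not_mem_nil) 0, zg,
      mul_one]
  have hgg : ∀ m : ℕ, (gg q (ev q S.D) m).eval 0 = 1 := by
    intro m
    have hev : ∀ i, (ev q S.D i).eval 0 = if i = 0 then 1 else 0 := by
      intro i
      induction i with
      | zero => rw [ev_zero, eval_one, if_pos rfl]
      | succ i ih =>
        rw [ev_succ, eval_mul, eval_mul, eval_sub, eval_C, eval_C, eval_mul, eval_C, eval_X,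
          eval_pow, ih, if_neg (Nat.succ_ne_zero i)]
        have hq0 : q ≠ 0 := by have := S.two_le; omega
        rcases Nat.eq_zero_or_pos i with rfl | hi
        · rw [br_zero, zero_pow hq0]
          ring
        · rw [if_neg (by omega), zero_pow hq0, mul_zero]
    induction m using Nat.strong_induction_on with
    | _ m ih =>
      rcases Nat.eq_zero_or_pos m with rfl | hm
      · rw [gg_zero, eval_one]
      · rw [gg_rec S.two_le _ hm, eval_finsetSum, Finset.sum_eq_single 0]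
        · rw [pow_zero, if_pos (by omega), eval_mul, hev, if_pos rfl, one_mul, ih _ (by omega)]
        · intro i _ hi
          split_ifs
          · rw [eval_mul, hev, if_neg hi, zero_mul]
          · rw [eval_zero]
        · intro h
          exact absurd (Finset.mem_range.2 (by omega)) h
  have h3 : S.φ (ps q S.D 0 n) = 1 := by
    rw [ps, vv_zero S.hq, ell_zero, one_pow, div_one, PP, hgg, map_one]
  have h4 : ‖S.zg [n] 1‖ < 1 := by
    refine (S.norm_zg h1 1).trans_lt ?_
    refine pow_lt_one₀ S.zg_q.1.le S.zg_q.2 ?_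
    have h5 := NN_le q h1
    rw [List.length_singleton] at h5
    have h6 : 1 ≤ rr q 1 := le_rr (by have := S.two_le; omega) 1
    have h7 : 1 ≤ [n].sum - (q - 1) * NN q [n] := by omega
    have := Nat.mul_le_mul h6 h7
    omega
  rw [h2, h3] at h0
  have h5 : S.zg [n] 1 = -1 := by linear_combination h0
  rw [h5, norm_neg, norm_one] at h4
  exact lt_irrefl _ h4

end Setup

end Pool.Agent.ZQ
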