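import Pool.Agent.Work.MP_43901b_nt.H.RatPoly
import Pool.Agent.Work.MP_43901b_nt.H.Zg

/-!
# DegR: the degree of a solution of the functional equation
-/

namespace Pool.Agent.ZQ

open Polynomial Finset Filter

/-- there is no solution of the homogeneous equation of too small degree -/
def NoTop (q : ℕ) {K : Type*} [Field K] (D : K) : Prop :=
  ∀ (a : ℕ) (s : List ℕ) (R R' : K[X]), 1 ≤ a → (∀ b ∈ s, 1 ≤ b) → Ch q D s R' →
    R.comp (vp q D) = bet D ^ (a + s.sum) * (R + PP q D a * R') →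
    (q - 1) * R.natDegree < a + s.sum → False

section

variable {q : ℕ} (hq2 : 2 ≤ q) {K : Type*} [Field K] {D : K} (hD : D ≠ 0)

include hq2 hD

omit hq2 in
theorem vp_natDegree : (vp q D).natDegree = q := by
  rw [vp, natDegree_C_mul (pow_ne_zero _ hD), natDegree_pow, add_comm,
    show (1 : K[X]) = C 1 from C_1.symm, natDegree_X_add_C, mul_one]

omit hq2 in
theorem bet_natDegree : (bet D).natDegree = 1 := by
  rw [bet, natDegree_neg, natDegree_C_mul hD, add_comm,
    show (1 : K[X]) = C 1 from C_1.symm, natDegree_X_add_C]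

omit hq2 in
theorem bet_ne : bet D ≠ 0 := by
  intro h
  have := bet_natDegree hD
  rw [h, natDegree_zero] at this
  omega

theorem natDegree_le_of_fe {w : ℕ} {R G : K[X]} (h : R.comp (vp q D) = bet D ^ w * (R + G))
    (hG : (q - 1) * G.natDegree ≤ w) : (q - 1) * R.natDegree ≤ w := by
  by_contra hcon
  push Not at hcon
  have h1 : G.natDegree < R.natDegree := by
    have : (q - 1) * G.natDegree < (q - 1) * R.natDegree := lt_of_le_of_lt hG hcon
    exact lt_of_mul_lt_mul_left this (Nat.zero_le _)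
  have h2 : (R + G).natDegree = R.natDegree := natDegree_add_eq_left_of_natDegree_lt h1
  have h3 : R + G ≠ 0 := by
    intro h0
    rw [h0, natDegree_zero] at h2
    omega
  have h4 := congrArg natDegree h
  rw [natDegree_comp, vp_natDegree hD, natDegree_mul (pow_ne_zero _ (bet_ne hD)) h3,
    natDegree_pow, bet_natDegree hD, mul_one, h2] at h4
  have h5 : R.natDegree * q = R.natDegree + (q - 1) * R.natDegree := by
    obtain ⟨r, rfl⟩ : ∃ r, q = r + 1 := ⟨q - 1, by omega⟩
    simp only [Nat.add_sub_cancel]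
    ring
  omega

end

/-- `Ch` determines the partial sums -/
theorem Ch.sum {p f q : ℕ} [Fact p.Prime] (hq : q = p ^ f) (hf : 1 ≤ f) {K : Type*} [Field K]
    [CharP K p] {D : K} (hb : ∀ i, br q D (i + 1) ≠ 0) {s : List ℕ} (hs : ∀ a ∈ s, 1 ≤ a)
    {R : K[X]} (h : Ch q D s R) (d : ℕ) :
    SS q D s d * ell q D d ^ s.sum = R.eval (vv q D d) := by
  induction s generalizing R d with
  | nil =>
    rw [Ch] at h
    rw [h, SS_nil, List.sum_nil, pow_zero, mul_one, eval_one]
  | cons a s ih =>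
    obtain ⟨R', hR', hfe, -⟩ := h
    have ha := hs a List.mem_cons_self
    have ih' := ih (fun b hb => hs b (List.mem_cons_of_mem a hb)) hR'
    rw [← tel_sum hq hf D hb (by omega) hfe d, SS_cons, List.sum_cons]
    congr 1
    refine Finset.sum_congr rfl fun i _ => ?_
    rw [eval_mul, ← ih', ps, pow_add]
    have h1 := ell_ne D hb i
    field_simp

theorem Ch.natDegree {q : ℕ} {K : Type*} [Field K] {D : K} {s : List ℕ} {R : K[X]}
    (h : Ch q D s R) : (q - 1) * R.natDegree = s.sum := by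
  cases s with
  | nil =>
    rw [Ch] at h
    rw [h, natDegree_one, mul_zero, List.sum_nil]
  | cons a s =>
    obtain ⟨R', -, -, h1⟩ := h
    rw [h1, List.sum_cons]

theorem Ch.unique {p f q : ℕ} [Fact p.Prime] (hq : q = p ^ f) (hf : 1 ≤ f) {K : Type*} [Field K]
    [CharP K p] {D : K} (hb : ∀ i, br q D (i + 1) ≠ 0) (hinj : Function.Injective (vv q D))
    {s : List ℕ} (hs : ∀ a ∈ s, 1 ≤ a) {R R' : K[X]} (h : Ch q D s R) (h' : Ch q D s R') :
    R = R' := by
  refine Polynomial.eq_of_infinite_eval_eq _ _ ((Set.infinite_range_of_injective hinj).mono ?_)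
  rintro _ ⟨d, rfl⟩
  show R.eval _ = R'.eval _
  rw [← h.sum hq hf hb hs, ← h'.sum hq hf hb hs]

section Map

variable {p q : ℕ} {k L : Type*} [Fact p.Prime] [Field k] [CharP k p] [NormedField L]
  [CompleteSpace L] [IsUltrametricDist L] [CharP L p] (S : Setup p q k L)

namespace Setup

theorem map_vp : (vp q S.D).map S.φ = vp q (S.φ S.D) := by
  rw [vp, vp, Polynomial.map_mul, Polynomial.map_pow, Polynomial.map_add, Polynomial.map_one,
    map_X, map_C, map_pow]

theorem map_bet : (bet S.D).map S.φ = bet (S.φ S.D) := by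
  rw [bet, bet, Polynomial.map_neg, Polynomial.map_mul, Polynomial.map_add, Polynomial.map_one,
    map_X, map_C]

theorem map_Ch {s : List ℕ} {R : k[X]} (h : Ch q S.D s R) : Ch q (S.φ S.D) s (R.map S.φ) := by
  induction s generalizing R with
  | nil =>
    rw [Ch] at h ⊢
    rw [h, Polynomial.map_one]
  | cons a s ih =>
    obtain ⟨R', h1, h2, h3⟩ := h
    refine ⟨R'.map S.φ, ih h1, ?_, ?_⟩
    · have h4 := congrArg (Polynomial.map S.φ) h2
      rw [Polynomial.map_comp, S.map_vp, Polynomial.map_mul, Polynomial.map_pow, S.map_bet,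
        Polynomial.map_add, Polynomial.map_mul, S.map_PP] at h4
      exact h4
    · rw [natDegree_map]
      exact h3

theorem noTop_of_map (h : NoTop q (S.φ S.D)) : NoTop q S.D := by
  intro a s R R' ha hs h1 h2 h3
  refine h a s (R.map S.φ) (R'.map S.φ) ha hs (S.map_Ch h1) ?_ ?_
  · have h4 := congrArg (Polynomial.map S.φ) h2
    rw [Polynomial.map_comp, S.map_vp, Polynomial.map_mul, Polynomial.map_pow, S.map_bet,
      Polynomial.map_add, Polynomial.map_mul, S.map_PP] at h4
    exact h4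
  · rw [natDegree_map]
    exact h3

end Setup

end Map

section Lim

variable {p q : ℕ} {k L : Type*} [Fact p.Prime] [Field k] [CharP k p] [NormedField L]
  [CompleteSpace L] [IsUltrametricDist L] [CharP L p] (S : Setup p q k L)

namespace Setup

theorem tendsto_vv : Tendsto (fun d => ‖S.φ (vv q S.D d)‖) atTop atTop := by
  have hD := S.one_lt_D
  refine tendsto_atTop_mono' atTop ?_ (tendsto_pow_atTop_atTop_of_one_lt hD)
  filter_upwards [eventually_ge_atTop 1] with d hd
  rw [S.map_vv, norm_vv' S.hq S.one_le_f (S.φ S.D) hD hd]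
  refine pow_le_pow_right₀ hD.le ?_
  have h1 : d ≤ rr q d := le_rr (by have := S.two_le; omega) d
  calc d ≤ 1 * rr q d := by rw [one_mul]; exact h1
    _ ≤ _ := Nat.mul_le_mul_right _ (by have := S.two_le; omega)

/-- the values of a polynomial at large arguments -/
theorem norm_eval_vv {R : k[X]} (hR : R ≠ 0) : ∀ᶠ d in atTop,
    ‖S.φ (R.eval (vv q S.D d))‖ =
      ‖S.φ R.leadingCoeff‖ * ‖S.φ (vv q S.D d)‖ ^ R.natDegree := by
  have hlc : 0 < ‖S.φ R.leadingCoeff‖ :=
    norm_pos_iff.2 ((map_ne_zero S.φ).2 (leadingCoeff_ne_zero.2 hR))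
  set K : ℝ := ∑ i ∈ range R.natDegree, ‖S.φ (R.coeff i)‖ with hK
  filter_upwards [S.tendsto_vv.eventually_gt_atTop (K / ‖S.φ R.leadingCoeff‖),
    S.tendsto_vv.eventually_ge_atTop 1] with d h1 h2
  set x := S.φ (vv q S.D d) with hx
  have hx0 : 0 < ‖x‖ := zero_lt_one.trans_le h2
  have e1 : S.φ (R.eval (vv q S.D d)) = (∑ i ∈ range R.natDegree, S.φ (R.coeff i) * x ^ i) +
      S.φ R.leadingCoeff * x ^ R.natDegree := by
    rw [eval_eq_sum_range, map_sum, Finset.sum_range_succ]
    congr 1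
    · exact Finset.sum_congr rfl fun i _ => by rw [map_mul, map_pow]
    · rw [map_mul, map_pow]
      rfl
  have e2 : ‖S.φ R.leadingCoeff * x ^ R.natDegree‖ =
      ‖S.φ R.leadingCoeff‖ * ‖x‖ ^ R.natDegree := by rw [norm_mul, norm_pow]
  have e3 : ‖∑ i ∈ range R.natDegree, S.φ (R.coeff i) * x ^ i‖ <
      ‖S.φ R.leadingCoeff‖ * ‖x‖ ^ R.natDegree := by
    rcases Nat.eq_zero_or_pos R.natDegree with h0 | h0
    · rw [h0, Finset.sum_range_zero, norm_zero, pow_zero, mul_one]
      exact hlc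
    · obtain ⟨m, hm⟩ : ∃ m, R.natDegree = m + 1 := ⟨R.natDegree - 1, by omega⟩
      have e4 : ‖∑ i ∈ range R.natDegree, S.φ (R.coeff i) * x ^ i‖ ≤ K * ‖x‖ ^ m := by
        rw [hK, Finset.sum_mul]
        refine (norm_sum_le _ _).trans (Finset.sum_le_sum fun i hi => ?_)
        rw [Finset.mem_range] at hi
        rw [norm_mul, norm_pow]
        exact mul_le_mul_of_nonneg_left (pow_le_pow_right₀ h2 (by omega)) (norm_nonneg _)
      refine e4.trans_lt ?_
      rw [hm, pow_succ]
      rw [div_lt_iff₀ hlc] at h1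
      calc K * ‖x‖ ^ m < (‖x‖ * ‖S.φ R.leadingCoeff‖) * ‖x‖ ^ m :=
            mul_lt_mul_of_pos_right h1 (pow_pos hx0 _)
        _ = _ := by ring
  rw [e1, IsUltrametricDist.norm_add_eq_max_of_norm_ne_norm (by rw [e2]; exact e3.ne), e2,
    max_eq_right e3.le]

/-- if the partial sums tend to 0 the degree is too small -/
theorem natDegree_lt_of_tendsto {w : ℕ} (hw : 1 ≤ w) {R : k[X]} {Z : ℕ → k}
    (h1 : (q - 1) * R.natDegree ≤ w)
    (h2 : ∀ᶠ d in atTop, Z d * ell q S.D d ^ w = R.eval (vv q S.D d))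
    (h3 : Tendsto (fun d => S.φ (Z d)) atTop (nhds 0)) : (q - 1) * R.natDegree < w := by
  by_contra hcon
  have he : (q - 1) * R.natDegree = w := by omega
  have hR : R ≠ 0 := by
    rintro rfl
    rw [natDegree_zero, mul_zero] at he
    omega
  have hlc : 0 < ‖S.φ R.leadingCoeff‖ :=
    norm_pos_iff.2 ((map_ne_zero S.φ).2 (leadingCoeff_ne_zero.2 hR))
  have h4 : ∀ᶠ d in atTop, ‖S.φ (Z d)‖ = ‖S.φ R.leadingCoeff‖ := by
    filter_upwards [h2, S.norm_eval_vv hR, eventually_ge_atTop 1] with d e1 e2 hd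
    have hD := S.one_lt_D
    have h0 : 0 < ‖S.φ S.D‖ := zero_lt_one.trans hD
    rw [← e1, map_mul, norm_mul, map_pow, norm_pow, S.map_ell,
      norm_ell S.hq S.one_le_f (S.φ S.D) hD, S.map_vv, norm_vv' S.hq S.one_le_f (S.φ S.D) hD hd,
      ← pow_mul, ← pow_mul] at e2
    have e3 : (q - 1) * rr q d * R.natDegree = rr q d * w := by
      rw [← he]
      ring
    rw [e3] at e2
    exact mul_right_cancel₀ (pow_pos h0 _).ne' e2
  have h5 : Tendsto (fun d => ‖S.φ (Z d)‖) atTop (nhds 0) := by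
    have := h3.norm
    rwa [norm_zero] at this
  have h6 : Tendsto (fun _ : ℕ => ‖S.φ R.leadingCoeff‖) atTop (nhds 0) := h5.congr' h4
  have h7 := tendsto_nhds_unique h6 tendsto_const_nhds
  rw [← h7] at hlc
  exact lt_irrefl _ hlc

end Setup

end Lim

end Pool.Agent.ZQ
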