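import Pool.Agent.Work.MP_43901b_nt.H.Zg

/-!
# DenSS: denominators and growth of `S_{<d}(s) ℓ_d^|s|`
-/

namespace Pool.Agent.ZQ

open Polynomial Finset Filter

variable {p q : ℕ} {k L : Type*} [Fact p.Prime] [Field k] [CharP k p] [NormedField L]
  [CompleteSpace L] [IsUltrametricDist L] [CharP L p] (S : Setup p q k L)

namespace Setup

theorem D_mem : S.D ∈ S.O := S.O.sub_mem (S.O.pow_mem S.θ_mem q) S.θ_mem

theorem br_mem (i : ℕ) : br q S.D i ∈ S.O :=
  S.O.sum_mem fun _ _ => S.O.pow_mem S.D_mem _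

theorem ell_mem (d : ℕ) : ell q S.D d ∈ S.O :=
  S.O.prod_mem fun _ _ => S.O.neg_mem (S.br_mem _)

private theorem dn_div_mem {i d : ℕ} (h : i ≤ d) : ell q S.D d / ell q S.D i ∈ S.O := by
  induction d, h using Nat.le_induction with
  | base =>
    rw [div_self (S.ell_ne' i)]
    exact S.O.one_mem
  | succ d _ ih =>
    rw [ell_succ, mul_div_right_comm]
    exact S.O.mul_mem ih (S.O.neg_mem (S.br_mem _))

theorem den_add {ρ σ : ℕ → k} (h1 : S.Den ρ) (h2 : S.Den σ) :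
    S.Den fun d => ρ d + σ d := by
  obtain ⟨e, he, he0, h⟩ := h1
  obtain ⟨f, hf, hf0, h'⟩ := h2
  refine ⟨e * f, S.O.mul_mem he hf, mul_ne_zero he0 hf0, fun d => ?_⟩
  have h3 : e * f * (ρ d + σ d) = f * (e * ρ d) + e * (f * σ d) := by ring
  rw [h3]
  exact S.O.add_mem (S.O.mul_mem hf (h d)) (S.O.mul_mem he (h' d))

theorem den_mul {ρ σ : ℕ → k} (h1 : S.Den ρ) (h2 : S.Den σ) :
    S.Den fun d => ρ d * σ d := by
  obtain ⟨e, he, he0, h⟩ := h1
  obtain ⟨f, hf, hf0, h'⟩ := h2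
  refine ⟨e * f, S.O.mul_mem he hf, mul_ne_zero he0 hf0, fun d => ?_⟩
  have h3 : e * f * (ρ d * σ d) = (e * ρ d) * (f * σ d) := by ring
  rw [h3]
  exact S.O.mul_mem (h d) (h' d)

theorem den_const (c : k) : S.Den fun _ => c := by
  obtain ⟨e, he, he0, h⟩ := S.frac c
  exact ⟨e, he, he0, fun _ => h⟩

theorem gro_const (c : k) : S.Gro fun _ => c := by
  refine ⟨0, ‖S.φ c‖, Eventually.of_forall fun d => ?_⟩
  rw [pow_zero, mul_one]

private theorem den_vv : S.Den fun d => vv q S.D d :=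
  ⟨S.D, S.D_mem, S.D_ne, fun d => by
    rw [D_mul_vv S.D S.D_ne]
    exact S.O.pow_mem (S.br_mem d) _⟩

private theorem den_pow {ρ : ℕ → k} (h : S.Den ρ) (n : ℕ) : S.Den fun d => ρ d ^ n := by
  induction n with
  | zero =>
    simp only [pow_zero]
    exact S.den_const 1
  | succ n ih =>
    simp only [pow_succ]
    exact S.den_mul ih h

/-- the values of a polynomial at `v_d` have bounded denominators -/
theorem den_poly (P : k[X]) : S.Den fun d => P.eval (vv q S.D d) := by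
  induction P using Polynomial.induction_on' with
  | add P Q hP hQ =>
    simp only [eval_add]
    exact S.den_add hP hQ
  | monomial n a =>
    simp only [eval_monomial]
    exact S.den_mul (S.den_const a) (S.den_pow S.den_vv n)

theorem den_SS (s : List ℕ) : S.Den fun d => SS q S.D s d * ell q S.D d ^ s.sum := by
  induction s with
  | nil =>
    simp only [SS, List.sum_nil, pow_zero, mul_one]
    exact S.den_const 1
  | cons a s ih =>
    obtain ⟨e, he, he0, h⟩ := S.den_poly (PP q S.D a)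
    obtain ⟨f, hf, hf0, h'⟩ := ih
    refine ⟨e * f, S.O.mul_mem he hf, mul_ne_zero he0 hf0, fun d => ?_⟩
    have h3 : e * f * (SS q S.D (a :: s) d * ell q S.D d ^ (a :: s).sum) =
        ∑ i ∈ range d, (e * (PP q S.D a).eval (vv q S.D i)) *
          (f * (SS q S.D s i * ell q S.D i ^ s.sum)) *
            (ell q S.D d / ell q S.D i) ^ (a + s.sum) := by
      rw [SS, List.sum_cons, Finset.sum_mul, Finset.mul_sum]
      refine Finset.sum_congr rfl fun i _ => ?_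
      have hx := S.ell_ne' i
      rw [ps, div_pow, pow_add (ell q S.D i)]
      field_simp
    rw [h3]
    refine S.O.sum_mem fun i hi => ?_
    exact S.O.mul_mem (S.O.mul_mem (h i) (h' i))
      (S.O.pow_mem (S.dn_div_mem (Finset.mem_range.1 hi).le) _)

/-- growth of `ρ_d ℓ_d^w` for bounded `ρ` -/
theorem gro_bdd {ρ : ℕ → k} (w : ℕ) {C : ℝ} (h : ∀ d, ‖S.φ (ρ d)‖ ≤ C) :
    S.Gro fun d => ρ d * ell q S.D d ^ w := by
  refine ⟨w, C, Eventually.of_forall fun d => ?_⟩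
  have hC : 0 ≤ C := (norm_nonneg _).trans (h d)
  have hθ := S.hθ
  have h0 : 0 < ‖S.φ S.θ‖ := zero_lt_one.trans hθ
  have h1 : ‖S.φ (ell q S.D d)‖ = ‖S.φ S.θ‖ ^ (q * rr q d) := by
    rw [S.map_ell, norm_ell S.hq S.one_le_f (S.φ S.D) S.one_lt_D, S.norm_D, pow_mul]
  rw [map_mul, norm_mul, map_pow, norm_pow, h1, S.norm_t, mul_assoc, ← mul_pow]
  have h3 : ‖S.φ S.θ‖ ^ (q * rr q d) * ‖S.φ S.θ‖⁻¹ ^ q ^ (d + 1) ≤ 1 := by
    have hle : q * rr q d ≤ q ^ (d + 1) := by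
      have h2 := S.two_le
      have h4 := rr_mul (q := q) (by omega) d
      rw [pow_succ', ← h4]
      refine Nat.mul_le_mul_left _ ?_
      have : 1 * rr q d ≤ (q - 1) * rr q d := Nat.mul_le_mul_right _ (by omega)
      omega
    calc ‖S.φ S.θ‖ ^ (q * rr q d) * ‖S.φ S.θ‖⁻¹ ^ q ^ (d + 1)
        ≤ ‖S.φ S.θ‖ ^ q ^ (d + 1) * ‖S.φ S.θ‖⁻¹ ^ q ^ (d + 1) :=
          mul_le_mul_of_nonneg_right (pow_le_pow_right₀ hθ.le hle) (by positivity)
      _ = 1 := by rw [← mul_pow, mul_inv_cancel₀ h0.ne', one_pow]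
  calc ‖S.φ (ρ d)‖ * (‖S.φ S.θ‖ ^ (q * rr q d) * ‖S.φ S.θ‖⁻¹ ^ q ^ (d + 1)) ^ w
      ≤ C * 1 := mul_le_mul (h d) (pow_le_one₀ (by positivity) h3) (by positivity) hC
    _ = C := mul_one C

end Setup

end Pool.Agent.ZQ
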