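import Pool.Agent.Work.MP_43901b_nt.H.GG

/-!
# EvId: the functional equations of the polynomials e_i

`[i] e_i(vp) = bet^(q^i) e_{i-1}^q`, `e_i(vp) = bet^(q^i-1) (e_i - e_{i-1}^q)`.
-/

namespace Pool.Agent.ZQ

open Polynomial Finset

variable {p f q : ℕ} [Fact p.Prime] (hq : q = p ^ f) (hf : 1 ≤ f) {K : Type*} [Field K]
  [CharP K p] (D : K)

include hq hf

theorem D_mul_vp : C D * vp q D = -bet D ^ q := by
  have h1 : C D * C (D ^ (q - 1)) = (C D) ^ q := by
    rw [← C_mul, ← pow_succ', Nat.sub_add_cancel (q_pos hq), C_pow]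
  rw [vp, bet, neg_pow_q hq hf, neg_neg, mul_pow, ← h1]
  ring

variable (hb : ∀ i, br q D (i + 1) ≠ 0)

include hb

theorem br_mul_ev_succ (i : ℕ) : C (br q D (i + 1)) * ev q D (i + 1) =
    (C (br q D i ^ q) - C D * X) * ev q D i ^ q := by
  have h1 : C (br q D (i + 1)) * C (br q D (i + 1))⁻¹ = (1 : K[X]) := by
    rw [← C_mul, mul_inv_cancel₀ (hb i), C_1]
  rw [ev_succ, ← mul_assoc, ← mul_assoc, h1, one_mul]

/-- `[i+1] (e_{i+1} - e_i^q) = bet e_i^q` -/
theorem br_mul_sub (i : ℕ) : C (br q D (i + 1)) * (ev q D (i + 1) - ev q D i ^ q) =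
    bet D * ev q D i ^ q := by
  rw [mul_sub, br_mul_ev_succ hq hf D hb, br_succ' hq hf, bet, C_add]
  ring

/-- `[i+1] e_{i+1}(vp) = bet^(q^(i+1)) e_i^q` -/
theorem br_mul_ev_comp (i : ℕ) : C (br q D (i + 1)) * (ev q D (i + 1)).comp (vp q D) =
    bet D ^ q ^ (i + 1) * ev q D i ^ q := by
  induction i with
  | zero =>
    have h1 := congrArg (fun P : K[X] => P.comp (vp q D)) (br_mul_ev_succ hq hf D hb 0)
    simp only [mul_comp, C_comp, sub_comp, X_comp, pow_comp] at h1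
    rw [h1, br_zero, zero_pow (q_pos hq).ne', C_0, zero_sub, D_mul_vp hq hf, ev_zero, one_comp,
      zero_add, pow_one, neg_neg]
  | succ i ih =>
    have h1 := congrArg (fun P : K[X] => P.comp (vp q D)) (br_mul_ev_succ hq hf D hb (i + 1))
    simp only [mul_comp, C_comp, sub_comp, X_comp, pow_comp] at h1
    rw [h1, D_mul_vp hq hf]
    have h2 : C (br q D (i + 1) ^ q) * (ev q D (i + 1)).comp (vp q D) ^ q =
        (bet D ^ q ^ (i + 1) * ev q D i ^ q) ^ q := by
      rw [← ih, C_pow, mul_pow]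
    have h3 : bet D ^ q * (C (br q D (i + 1)) * (ev q D (i + 1)).comp (vp q D)) ^ q =
        (bet D ^ q ^ (i + 1)) ^ q * (C (br q D (i + 1)) *
          (ev q D (i + 1) - ev q D i ^ q)) ^ q := by
      rw [ih, br_mul_sub hq hf D hb]
      ring
    have h4 : (C (br q D (i + 1)) : K[X]) ^ q ≠ 0 := by
      refine pow_ne_zero _ ?_
      rw [Ne, C_eq_zero]
      exact hb i
    have h5 : bet D ^ q * (ev q D (i + 1)).comp (vp q D) ^ q =
        (bet D ^ q ^ (i + 1)) ^ q * (ev q D (i + 1) - ev q D i ^ q) ^ q := by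
      apply mul_left_cancel₀ h4
      rw [mul_pow (C (br q D (i + 1))), mul_pow (C (br q D (i + 1)))] at h3
      linear_combination h3
    rw [sub_pow_q hq] at h5
    have h6 : (bet D ^ q ^ (i + 1)) ^ q = bet D ^ q ^ (i + 1 + 1) := by
      rw [← pow_mul, ← pow_succ]
    rw [h6] at h5
    rw [sub_neg_eq_add, add_mul, h2, h5, mul_pow, h6]
    ring

theorem ev_comp (i : ℕ) : (ev q D (i + 1)).comp (vp q D) =
    bet D ^ (q ^ (i + 1) - 1) * (ev q D (i + 1) - ev q D i ^ q) := by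
  have h4 : (C (br q D (i + 1)) : K[X]) ≠ 0 := by
    rw [Ne, C_eq_zero]
    exact hb i
  apply mul_left_cancel₀ h4
  have h7 : bet D ^ q ^ (i + 1) = bet D ^ (q ^ (i + 1) - 1) * bet D := by
    rw [← pow_succ, Nat.sub_add_cancel (Nat.one_le_pow _ _ (q_pos hq))]
  rw [br_mul_ev_comp hq hf D hb, h7, mul_left_comm, br_mul_sub hq hf D hb]
  ring

/-- `e_i(v_d) = 0` for `i > d` -/
theorem ev_eval_gt {d i : ℕ} (h : d < i) : (ev q D i).eval (vv q D d) = 0 := by
  have hD : D ≠ 0 := by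
    have := hb 0
    rwa [zero_add, br_one] at this
  induction i, h using Nat.le_induction with
  | base =>
    rw [ev_succ, eval_mul, eval_mul, eval_sub, eval_C, eval_C, eval_mul, eval_C, eval_X,
      D_mul_vv D hD, sub_self, mul_zero, zero_mul]
  | succ i _ ih =>
    rw [ev_succ, eval_mul, eval_pow, ih, zero_pow (q_pos hq).ne', mul_zero]

end Pool.Agent.ZQ
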