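import Pool.Agent.Work.MP_43901b_nt.H.RepB

/-!
# RepRec: solutions of α(d) = β(d) α(d+1) + η(d), where β is small

`rec_series`: `G = B * sq G + H` has a solution if `B` has constant coefficient 0 (iteration).
`rep_rec`: a bounded solution of the recursion is represented by this `G`.  Fix `M`, `P = trunc M G`,
`α' d = α d - φ (P(t_d))`.  Then `α' d = β d α' (d+1) + η' d` with `η' d = O(‖t_d‖^M)` and
`β d = O(‖t_d‖)`; by induction on `m ≤ M`: `α' d = O(‖t_d‖^m)`.
-/

namespace Pool.Agent.ZQ

open Polynomial Finset Filter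

/-- one step of the recursion for the coefficients -/
private noncomputable def rrStep (q : ℕ) {k : Type*} [Field k] (B H : PowerSeries k)
    (G : PowerSeries k) : PowerSeries k := B * sq q G + H

theorem rec_series {q : ℕ} (hq0 : q ≠ 0) {k : Type*} [Field k] (B H : PowerSeries k)
    (hB : PowerSeries.constantCoeff B = 0) :
    ∃ G : PowerSeries k, G = B * sq q G + H := by
  have hXB : PowerSeries.X ∣ B := PowerSeries.X_dvd_iff.2 hB
  -- iterate the step
  let it : ℕ → PowerSeries k := fun n => (rrStep q B H)^[n] 0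
  have it_succ : ∀ n, it (n + 1) = B * sq q (it n) + H := by
    intro n
    show (rrStep q B H)^[n + 1] 0 = _
    rw [Function.iterate_succ_apply']
    rfl
  have hq1 : ∀ n, n ≤ q * n := fun n => Nat.le_mul_of_pos_left n (Nat.pos_of_ne_zero hq0)
  have hBdvd : ∀ (n : ℕ) (F : PowerSeries k), PowerSeries.X ^ n ∣ F →
      PowerSeries.X ^ (n + 1) ∣ B * sq q F := by
    intro n F hF
    rw [pow_succ']
    exact mul_dvd_mul hXB ((pow_dvd_pow _ (hq1 n)).trans (sq_dvd hq0 hF))
  have hstep : ∀ n, PowerSeries.X ^ n ∣ it (n + 1) - it n := by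
    intro n
    induction n with
    | zero => rw [pow_zero]; exact one_dvd _
    | succ n ih =>
      have h1 : it (n + 1 + 1) - it (n + 1) = B * sq q (it (n + 1) - it n) := by
        rw [it_succ (n + 1), sq_sub hq0]
        conv_lhs => rw [it_succ n]
        rw [it_succ n]
        ring
      rw [h1]
      exact hBdvd n _ ih
  have hstab : ∀ n m j, n < m → PowerSeries.coeff n (it (m + j)) = PowerSeries.coeff n (it m) := by
    intro n m j hnm
    induction j with
    | zero => rfl
    | succ j ih =>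
      rw [← ih]
      have h1 := PowerSeries.X_pow_dvd_iff.1 (hstep (m + j)) n (by omega)
      rw [map_sub, sub_eq_zero] at h1
      exact h1
  let G : PowerSeries k := PowerSeries.mk fun n => PowerSeries.coeff n (it (n + 1))
  have hG : ∀ n m, n < m → PowerSeries.coeff n G = PowerSeries.coeff n (it m) := by
    intro n m hnm
    rw [PowerSeries.coeff_mk]
    obtain ⟨j, rfl⟩ := Nat.exists_eq_add_of_le (Nat.succ_le_of_lt hnm)
    exact (hstab n (n + 1) j (Nat.lt_succ_self n)).symm
  have hdvd : ∀ m, PowerSeries.X ^ m ∣ G - it m := by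
    intro m
    rw [PowerSeries.X_pow_dvd_iff]
    intro n hn
    rw [map_sub, hG n m hn, sub_self]
  refine ⟨G, ?_⟩
  rw [← sub_eq_zero]
  ext n
  have h1 : G - (B * sq q G + H) = (G - it (n + 1)) - B * sq q (G - it n) := by
    rw [sq_sub hq0, it_succ n]
    ring
  have h5 : PowerSeries.X ^ (n + 1) ∣ G - (B * sq q G + H) := by
    rw [h1]
    exact dvd_sub (hdvd (n + 1)) (hBdvd n _ (hdvd n))
  rw [PowerSeries.X_pow_dvd_iff.1 h5 n (Nat.lt_succ_self n), map_zero]

namespace Setup

variable {p q : ℕ} {k L : Type*} [Fact p.Prime] [Field k] [CharP k p] [NormedField L]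
  [CompleteSpace L] [IsUltrametricDist L] [CharP L p] (S : Setup p q k L)

theorem rep_neg {α : ℕ → L} {G : PowerSeries k} (h : S.Rep α G) :
    S.Rep (fun d => -α d) (-G) := by
  have h1 := S.rep_mul (S.rep_C (-1 : k)) h
  have e2 : PowerSeries.C (-1) * G = -G := by
    rw [map_neg, map_one, neg_one_mul]
  rw [e2] at h1
  refine S.rep_congr h1 (Eventually.of_forall fun d => ?_)
  rw [map_neg, map_one, neg_one_mul]

theorem rep_sub {α β : ℕ → L} {G H : PowerSeries k} (h : S.Rep α G) (h' : S.Rep β H) :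
    S.Rep (fun d => α d - β d) (G - H) := by
  have h1 := S.rep_add h (S.rep_neg h')
  rw [← sub_eq_add_neg] at h1
  refine S.rep_congr h1 (Eventually.of_forall fun d => ?_)
  rw [sub_eq_add_neg]

theorem rep_rec {α β η : ℕ → L} {B H : PowerSeries k} (hB : S.Rep β B) (hH : S.Rep η H)
    (hB0 : PowerSeries.constantCoeff B = 0)
    (hrec : ∀ᶠ d in atTop, α d = β d * α (d + 1) + η d)
    (hbd : ∃ C : ℝ, ∀ᶠ d in atTop, ‖α d‖ ≤ C) :
    ∃ G : PowerSeries k, S.Rep α G ∧ G = B * sq q G + H := by
  have hq0 : q ≠ 0 := by have := S.two_le; omega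
  obtain ⟨G, hG⟩ := rec_series hq0 B H hB0
  refine ⟨G, fun M => ?_, hG⟩
  set P : k[X] := PowerSeries.trunc M G with hP
  have hPd : S.Rep (fun d => S.φ (P.eval (S.t d))) (P : PowerSeries k) := S.rep_poly P
  have hPd1 : S.Rep (fun d => S.φ (P.eval (S.t (d + 1)))) (sq q (P : PowerSeries k)) :=
    S.rep_shift hPd
  -- the remainder term
  have hη : S.Rep (fun d => β d * S.φ (P.eval (S.t (d + 1))) + η d - S.φ (P.eval (S.t d)))
      (B * sq q (P : PowerSeries k) + H - (P : PowerSeries k)) :=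
    S.rep_sub (S.rep_add (S.rep_mul hB hPd1) hH) hPd
  have hPG : PowerSeries.X ^ M ∣ G - (P : PowerSeries k) := by
    rw [PowerSeries.X_pow_dvd_iff]
    intro n hn
    rw [map_sub, Polynomial.coeff_coe, hP, PowerSeries.coeff_trunc, if_pos hn, sub_self]
  have hdvd : PowerSeries.X ^ M ∣ B * sq q (P : PowerSeries k) + H - (P : PowerSeries k) := by
    have h1 : B * sq q (P : PowerSeries k) + H - (P : PowerSeries k) =
        (G - (P : PowerSeries k)) - B * sq q (G - (P : PowerSeries k)) := by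
      rw [sq_sub hq0]
      linear_combination (-1 : PowerSeries k) * hG
    rw [h1]
    refine dvd_sub hPG (Dvd.dvd.mul_left ?_ B)
    exact (pow_dvd_pow _ (Nat.le_mul_of_pos_left M (Nat.pos_of_ne_zero hq0))).trans
      (sq_dvd hq0 hPG)
  obtain ⟨C, hC⟩ := S.rep_dvd hη hdvd
  -- β is O(t)
  obtain ⟨C', hC'⟩ := S.rep_dvd (M := 1) hB (by rw [pow_one]; exact PowerSeries.X_dvd_iff.2 hB0)
  set α' : ℕ → L := fun d => α d - S.φ (P.eval (S.t d)) with hα'
  have hbd' : ∃ C : ℝ, ∀ᶠ d in atTop, ‖α' d‖ ≤ C := by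
    obtain ⟨C1, hC1⟩ := hbd
    obtain ⟨C2, hC2⟩ := S.poly_bdd P
    refine ⟨C1 + C2, hC1.mono fun d hd => ?_⟩
    exact (norm_sub_le _ _).trans (add_le_add hd (hC2 d))
  have key : ∀ m ≤ M, ∃ K : ℝ, ∀ᶠ d in atTop, ‖α' d‖ ≤ K * ‖S.φ (S.t d)‖ ^ m := by
    intro m
    induction m with
    | zero =>
      intro _
      obtain ⟨K, hK⟩ := hbd'
      exact ⟨K, hK.mono fun d hd => by rwa [pow_zero, mul_one]⟩
    | succ m ih =>
      intro hm
      obtain ⟨K, hK⟩ := ih (by omega)
      have hK1 := (tendsto_add_atTop_nat 1).eventually hK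
      refine ⟨max C' 0 * max K 0 + max C 0, ?_⟩
      filter_upwards [hrec, hC, hC', hK1] with d h1 h2 h3 h4
      set x := ‖S.φ (S.t d)‖ with hx
      have hx0 : 0 ≤ x := norm_nonneg _
      have hx1 : x ≤ 1 := (S.norm_t_lt d).le
      have e1 : α' d = β d * α' (d + 1) +
          (β d * S.φ (P.eval (S.t (d + 1))) + η d - S.φ (P.eval (S.t d))) := by
        simp only [hα']
        rw [h1]
        ring
      have e2 : ‖β d * α' (d + 1)‖ ≤ max C' 0 * max K 0 * x ^ (m + 1) := by
        rw [norm_mul]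
        have e3 : ‖β d‖ ≤ max C' 0 * x := by
          rw [pow_one] at h3
          exact h3.trans (mul_le_mul_of_nonneg_right (le_max_left _ _) hx0)
        have e4 : ‖α' (d + 1)‖ ≤ max K 0 * x ^ m := by
          refine h4.trans (mul_le_mul (le_max_left _ _) ?_ (pow_nonneg (norm_nonneg _) _)
            (le_max_right _ _))
          exact pow_le_pow_left₀ (norm_nonneg _) (S.norm_t_succ_le d) m
        calc ‖β d‖ * ‖α' (d + 1)‖ ≤ (max C' 0 * x) * (max K 0 * x ^ m) :=
              mul_le_mul e3 e4 (norm_nonneg _) (mul_nonneg (le_max_right _ _) hx0)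
          _ = _ := by rw [pow_succ]; ring
      have e5 : ‖β d * S.φ (P.eval (S.t (d + 1))) + η d - S.φ (P.eval (S.t d))‖ ≤
          max C 0 * x ^ (m + 1) := by
        refine h2.trans (mul_le_mul (le_max_left _ _) ?_ (pow_nonneg hx0 _) (le_max_right _ _))
        exact pow_le_pow_of_le_one hx0 hx1 hm
      rw [e1, add_mul]
      exact (norm_add_le _ _).trans (add_le_add e2 e5)
  exact key M le_rfl

end Setup

end Pool.Agent.ZQ
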