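import Pool.Agent.Work.MP_43901b_nt.H.Zg
import Pool.Agent.Work.MP_43901b_nt.H.RepRec

/-!
# Gam: the power series of the normalised tails

`gl l d = φ (t_d^(N_l) ℓ_d^(|l|)) * zg l d`, `N_l = NN q l`.  With `E = 1 - θ X`,
`F_l = (-1)^(|l|) X^(|l| - (q-1) N_l)` and `Ph n (t_d) = t_d^(⌊(n-1)/(q-1)⌋) P_n(v_d)`:
`E(t_d)^(n+|l|) gl (n::l) d = F_{n::l}(t_d) gl (n::l) (d+1) + E(t_d)^n Ph_n(t_d) F_l(t_d) gl l (d+1)`.
-/

namespace Pool.Agent.ZQ

open Polynomial Finset Filter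

variable {p q : ℕ} {k L : Type*} [Fact p.Prime] [Field k] [CharP k p] [NormedField L]
  [CompleteSpace L] [IsUltrametricDist L] [CharP L p] (S : Setup p q k L)

namespace Setup

/-- `1 - θ X` -/
noncomputable def Ee : k[X] := 1 - C S.θ * X

theorem Ee_eval (d : ℕ) : S.Ee.eval (S.t d) = 1 - S.θ * S.t d := by
  rw [Ee, eval_sub, eval_one, eval_mul, eval_C, eval_X]

theorem Ee_ne (d : ℕ) : S.Ee.eval (S.t d) ≠ 0 := by
  rw [Ee_eval]
  exact S.br_t_ne d

theorem Ee_ne_zero : S.Ee ≠ 0 := by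
  intro h
  have := S.Ee_ne 0
  rw [h, eval_zero] at this
  exact this rfl

/-- `(-1)^w X^(w - (q-1) N)` -/
noncomputable def Fl (q : ℕ) {k : Type*} [Field k] (l : List ℕ) : k[X] :=
  C ((-1) ^ l.sum) * X ^ (l.sum - (q - 1) * NN q l)

omit [Fact p.Prime] [CharP k p] [CompleteSpace L] [IsUltrametricDist L] [CharP L p] in
theorem Fl_nil : (Fl q [] : k[X]) = 1 := by
  rw [Fl, List.sum_nil, pow_zero, C_1, Nat.zero_sub, pow_zero, one_mul]

theorem Fl_ne (l : List ℕ) : (Fl q l : k[X]) ≠ 0 := by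
  unfold Fl
  refine mul_ne_zero ?_ (pow_ne_zero _ X_ne_zero)
  rw [Ne, C_eq_zero]
  exact pow_ne_zero _ (neg_ne_zero.2 one_ne_zero)

/-- `Ph n (t_d) = t_d^(⌊(n-1)/(q-1)⌋) P_n(v_d)` -/
noncomputable def Ph (n : ℕ) : k[X] :=
  ∑ i ∈ range ((n - 1) / (q - 1) + 1), C ((PP q S.D n).coeff i * (S.D⁻¹) ^ i) *
    (1 - C (S.θ ^ q) * X) ^ i * X ^ ((n - 1) / (q - 1) - i)

theorem Ph_eval (n d : ℕ) : (S.Ph n).eval (S.t d) =
    S.t d ^ ((n - 1) / (q - 1)) * (PP q S.D n).eval (vv q S.D d) := by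
  rw [Ph, eval_finsetSum, eval_eq_sum_range' (p := PP q S.D n) (n := (n - 1) / (q - 1) + 1)
    (Nat.lt_succ_of_le (PP_natDegree' S.two_le S.D n)), Finset.mul_sum]
  refine Finset.sum_congr rfl fun i hi => ?_
  have hi' : i ≤ (n - 1) / (q - 1) := by rw [Finset.mem_range] at hi; omega
  have h1 : S.t d ^ ((n - 1) / (q - 1)) = S.t d ^ ((n - 1) / (q - 1) - i) * S.t d ^ i := by
    rw [← pow_add, Nat.sub_add_cancel hi']
  have h2 : 1 - S.θ ^ q * S.t d = S.D * (vv q S.D d * S.t d) := by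
    rw [← S.vv_t, mul_assoc]
  simp only [eval_mul, eval_C, eval_pow, eval_X, eval_sub, eval_one]
  rw [h1, h2, mul_pow, mul_pow]
  have h3 : (S.D⁻¹) ^ i * S.D ^ i = 1 := by
    rw [← mul_pow, inv_mul_cancel₀ S.D_ne, one_pow]
  linear_combination ((PP q S.D n).coeff i * vv q S.D d ^ i * S.t d ^ i *
    S.t d ^ ((n - 1) / (q - 1) - i)) * h3

/-- the normalising factor `t_d^(N_l) ℓ_d^(|l|)` -/
noncomputable def nl (l : List ℕ) (d : ℕ) : k := S.t d ^ NN q l * ell q S.D d ^ l.sum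

theorem nl_ne (l : List ℕ) (d : ℕ) : S.nl l d ≠ 0 :=
  mul_ne_zero (pow_ne_zero _ (S.t_ne d)) (pow_ne_zero _ (S.ell_ne' d))

theorem nl_nil (d : ℕ) : S.nl [] d = 1 := by
  rw [nl, NN, List.sum_nil, pow_zero, pow_zero, one_mul]

theorem nl_cons (n : ℕ) (l : List ℕ) (d : ℕ) : S.nl (n :: l) d =
    S.t d ^ ((n - 1) / (q - 1)) * ell q S.D d ^ n * S.nl l d := by
  rw [nl, nl, NN, List.sum_cons, pow_add, pow_add]
  ring

/-- `E^(|l|) nl l d = F_l nl l (d+1)` -/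
theorem nl_succ {l : List ℕ} (hl : ∀ a ∈ l, 1 ≤ a) (d : ℕ) :
    S.Ee.eval (S.t d) ^ l.sum * S.nl l d = (Fl q l : k[X]).eval (S.t d) * S.nl l (d + 1) := by
  have h1 : S.Ee.eval (S.t d) * ell q S.D d = -(S.t d * ell q S.D (d + 1)) := by
    rw [Ee_eval, ← S.br_t, ell_succ]
    ring
  have h2 : S.Ee.eval (S.t d) ^ l.sum * ell q S.D d ^ l.sum =
      (-1) ^ l.sum * S.t d ^ l.sum * ell q S.D (d + 1) ^ l.sum := by
    rw [← mul_pow, h1, neg_pow, mul_pow]
    ring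
  have h3 := NN_le q hl
  have h4 : S.t d ^ l.sum * S.t d ^ NN q l =
      S.t d ^ (l.sum - (q - 1) * NN q l) * S.t (d + 1) ^ NN q l := by
    rw [S.t_succ, ← pow_mul, ← pow_add, ← pow_add]
    congr 1
    have h5 : q * NN q l = (q - 1) * NN q l + NN q l := by
      have := S.two_le
      obtain ⟨r, hr⟩ : ∃ r, q = r + 1 := ⟨q - 1, by omega⟩
      rw [hr]
      simp only [Nat.add_sub_cancel]
      ring
    omega
  rw [nl, nl, Fl, eval_mul, eval_C, eval_pow, eval_X]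
  linear_combination (S.t d ^ NN q l) * h2 + ((-1) ^ l.sum * ell q S.D (d + 1) ^ l.sum) * h4

/-- the normalised tails -/
noncomputable def gl (l : List ℕ) (d : ℕ) : L := S.φ (S.nl l d) * S.zg l d

theorem gl_rec {n : ℕ} {l : List ℕ} (hn : 1 ≤ n) (hl : ∀ a ∈ l, 1 ≤ a) (d : ℕ) :
    S.φ ((S.Ee ^ (n :: l).sum).eval (S.t d)) * S.gl (n :: l) d =
      S.φ ((Fl q (n :: l) : k[X]).eval (S.t d)) * S.gl (n :: l) (d + 1) +
      S.φ ((S.Ee ^ n * S.Ph n * Fl q l : k[X]).eval (S.t d)) * S.gl l (d + 1) := by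
  have hnl : ∀ a ∈ n :: l, 1 ≤ a := fun b hb => by
    rcases List.mem_cons.1 hb with rfl | hb
    · exact hn
    · exact hl b hb
  have h1 := S.nl_succ hnl d
  have h2 := S.nl_succ hl d
  have h3 := S.nl_cons n l d
  have h4 := S.Ph_eval n d
  have h5 := ps_mul_ell S.D S.br_ne' d n
  have h6 : S.Ee.eval (S.t d) ^ (n :: l).sum * S.nl (n :: l) d * ps q S.D d n =
      (S.Ee ^ n * S.Ph n * Fl q l : k[X]).eval (S.t d) * S.nl l (d + 1) := by
    rw [List.sum_cons, eval_mul, eval_mul, eval_pow, h4, h3, pow_add]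
    linear_combination (S.Ee.eval (S.t d) ^ n * S.Ee.eval (S.t d) ^ l.sum *
      S.t d ^ ((n - 1) / (q - 1)) * S.nl l d) * h5 +
      (S.Ee.eval (S.t d) ^ n * S.t d ^ ((n - 1) / (q - 1)) *
        (PP q S.D n).eval (vv q S.D d)) * h2
  have h7 := congrArg S.φ h1
  have h8 := congrArg S.φ h6
  simp only [map_mul, map_pow] at h7 h8
  unfold gl
  rw [S.zg_succ hn hl d]
  simp only [eval_pow, eval_mul, map_mul, map_pow] at h8 ⊢
  linear_combination (S.zg (n :: l) (d + 1)) * h7 + (S.zg l (d + 1)) * h8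

theorem norm_gl_le {l : List ℕ} (hl : ∀ a ∈ l, 1 ≤ a) (d : ℕ) : ‖S.gl l d‖ ≤ 1 := by
  have hθ : 0 < ‖S.φ S.θ‖ := zero_lt_one.trans S.hθ
  have hD := zero_lt_one.trans S.one_lt_D
  have h1 := S.norm_zg hl d
  have h2 := NN_le q hl
  have h3 : ‖S.φ (ell q S.D d)‖ = ‖S.φ S.D‖ ^ rr q d := by
    rw [S.map_ell, norm_ell S.hq S.one_le_f (S.φ S.D) S.one_lt_D]
  have h4 : ‖S.φ S.D‖ ^ (rr q d * l.sum) * ‖S.φ S.D‖⁻¹ ^ (rr q d * (l.sum - (q - 1) * NN q l)) =
      ‖S.φ S.D‖ ^ (rr q d * ((q - 1) * NN q l)) := by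
    have h5 : rr q d * l.sum = rr q d * ((q - 1) * NN q l) +
        rr q d * (l.sum - (q - 1) * NN q l) := by
      rw [← mul_add]
      congr 1
      omega
    rw [h5, pow_add, mul_assoc, ← mul_pow, mul_inv_cancel₀ hD.ne', one_pow, mul_one]
  have h6 : ‖S.φ (S.t d)‖ * ‖S.φ S.D‖ ^ ((q - 1) * rr q d) ≤ 1 := by
    have h7 := rr_mul (q := q) (by have := S.two_le; omega) d
    rw [S.norm_t, S.norm_D, ← pow_mul, inv_pow, inv_mul_le_iff₀ (pow_pos hθ _), mul_one]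
    refine pow_le_pow_right₀ S.hθ.le ?_
    rw [pow_succ', ← h7]
    exact Nat.mul_le_mul_left _ (Nat.le_succ _)
  rw [gl, nl, norm_mul, map_mul, map_pow, map_pow, norm_mul, norm_pow, norm_pow, h3, ← pow_mul]
  calc ‖S.φ (S.t d)‖ ^ NN q l * ‖S.φ S.D‖ ^ (rr q d * l.sum) * ‖S.zg l d‖
      ≤ ‖S.φ (S.t d)‖ ^ NN q l * ‖S.φ S.D‖ ^ (rr q d * l.sum) *
        ‖S.φ S.D‖⁻¹ ^ (rr q d * (l.sum - (q - 1) * NN q l)) :=
        mul_le_mul_of_nonneg_left h1 (by positivity)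
    _ = (‖S.φ (S.t d)‖ * ‖S.φ S.D‖ ^ ((q - 1) * rr q d)) ^ NN q l := by
        rw [mul_assoc, h4, mul_pow, ← pow_mul]
        congr 2
        ring
    _ ≤ 1 := pow_le_one₀ (by positivity) h6

theorem gl_nil (d : ℕ) : S.gl [] d = 1 := by
  rw [gl, nl_nil, map_one, zg, one_mul]

private theorem Ee_const : PowerSeries.constantCoeff ((S.Ee : k[X]) : PowerSeries k) = 1 := by
  rw [Polynomial.constantCoeff_coe, Ee, coeff_sub, coeff_one_zero, coeff_C_mul, coeff_X_zero,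
    mul_zero, sub_zero]

private theorem rep_one : S.Rep (fun _ => (1 : L)) 1 := by
  have h := S.rep_C 1
  rw [map_one, map_one] at h
  exact h

theorem exists_gam {l : List ℕ} (hl : ∀ a ∈ l, 1 ≤ a) :
    ∃ G : PowerSeries k, S.Rep (S.gl l) G := by
  induction l with
  | nil =>
    refine ⟨1, S.rep_congr S.rep_one (Eventually.of_forall fun d => ?_)⟩
    rw [S.gl_nil]
  | cons n l ih =>
    have hn := hl n List.mem_cons_self
    have hl' : ∀ a ∈ l, 1 ≤ a := fun b hb => hl b (List.mem_cons_of_mem n hb)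
    obtain ⟨G, hG⟩ := ih hl'
    have hEc : PowerSeries.constantCoeff ((S.Ee ^ (n :: l).sum : k[X]) : PowerSeries k) ≠ 0 := by
      rw [Polynomial.coe_pow, map_pow, S.Ee_const, one_pow]
      exact one_ne_zero
    have hI := S.rep_inv (S.rep_poly (S.Ee ^ (n :: l).sum)) hEc
    have hB := S.rep_mul hI (S.rep_poly (Fl q (n :: l)))
    have hη := S.rep_mul hI (S.rep_mul (S.rep_poly (S.Ee ^ n * S.Ph n * Fl q l))
      (S.rep_shift hG))
    have hB0 : PowerSeries.constantCoeff ((((S.Ee ^ (n :: l).sum : k[X]) : PowerSeries k))⁻¹ *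
        ((Fl q (n :: l) : k[X]) : PowerSeries k)) = 0 := by
      have h1 := NN_le q hl
      rw [List.length_cons] at h1
      rw [map_mul, Polynomial.constantCoeff_coe (Fl q (n :: l)), Fl, coeff_C_mul,
        coeff_X_pow, if_neg (by omega), mul_zero, mul_zero]
    obtain ⟨G', hG', -⟩ := S.rep_rec hB hη hB0 (α := S.gl (n :: l))
      (Eventually.of_forall fun d => by
        have h2 := S.gl_rec hn hl' d
        have h3 : S.φ ((S.Ee ^ (n :: l).sum).eval (S.t d)) ≠ 0 := by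
          rw [_root_.map_ne_zero, eval_pow]
          exact pow_ne_zero _ (S.Ee_ne d)
        rw [mul_assoc, ← mul_add, ← h2, inv_mul_cancel_left₀ h3])
      ⟨1, Eventually.of_forall fun d => S.norm_gl_le hl d⟩
    exact ⟨G', hG'⟩

open Classical in
/-- the power series of the normalised tails -/
noncomputable def Gam (l : List ℕ) : PowerSeries k :=
  if h : ∃ G : PowerSeries k, S.Rep (S.gl l) G then h.choose else 0

theorem gam_rep {l : List ℕ} (hl : ∀ a ∈ l, 1 ≤ a) : S.Rep (S.gl l) (S.Gam l) := by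
  have h := S.exists_gam hl
  unfold Gam
  rw [dif_pos h]
  exact h.choose_spec

theorem gam_nil : S.Gam [] = 1 := by
  refine S.rep_unique (S.gam_rep fun b hb => absurd hb List.not_mem_nil) ?_
  refine S.rep_congr S.rep_one (Eventually.of_forall fun d => ?_)
  rw [S.gl_nil]

theorem gam_fe {n : ℕ} {l : List ℕ} (hn : 1 ≤ n) (hl : ∀ a ∈ l, 1 ≤ a) :
    ((S.Ee ^ (n :: l).sum : k[X]) : PowerSeries k) * S.Gam (n :: l) =
      ((Fl q (n :: l) : k[X]) : PowerSeries k) * sq q (S.Gam (n :: l)) +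
      ((S.Ee ^ n * S.Ph n * Fl q l : k[X]) : PowerSeries k) * sq q (S.Gam l) := by
  have hnl : ∀ a ∈ n :: l, 1 ≤ a := fun b hb => by
    rcases List.mem_cons.1 hb with rfl | hb
    · exact hn
    · exact hl b hb
  have h1 := S.rep_mul (S.rep_poly (S.Ee ^ (n :: l).sum)) (S.gam_rep hnl)
  have h2 := S.rep_add (S.rep_mul (S.rep_poly (Fl q (n :: l))) (S.rep_shift (S.gam_rep hnl)))
    (S.rep_mul (S.rep_poly (S.Ee ^ n * S.Ph n * Fl q l)) (S.rep_shift (S.gam_rep hl)))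
  refine S.rep_unique h1 (S.rep_congr h2 (Eventually.of_forall fun d => ?_))
  exact (S.gl_rec hn hl d).symm

end Setup

end Pool.Agent.ZQ
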