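import Pool.Agent.Work.MP_43901b_nt.H.RepB

/-!
# RelRec: a relation satisfies the transposed functional equation
-/

namespace Pool.Agent.ZQ

open Polynomial Finset

variable {k : Type*} [Field k] {q : ℕ} (hq0 : q ≠ 0)

/-- the section with residue `a` modulo `q` -/
noncomputable def sec (q a : ℕ) (P : k[X]) : k[X] :=
  ∑ i ∈ range (P.natDegree + 1), C (P.coeff (q * i + a)) * X ^ i

include hq0

theorem sec_coeff (a : ℕ) (P : k[X]) (n : ℕ) : (sec q a P).coeff n = P.coeff (q * n + a) := by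
  unfold sec
  rw [finsetSum_coeff]
  simp only [coeff_C_mul, coeff_X_pow, mul_ite, mul_one, mul_zero]
  rw [Finset.sum_ite_eq]
  split_ifs with h
  · rfl
  · rw [Finset.mem_range] at h
    refine (coeff_eq_zero_of_natDegree_lt ?_).symm
    have : n ≤ q * n := Nat.le_mul_of_pos_left n (Nat.pos_of_ne_zero hq0)
    omega

theorem sec_split (P : k[X]) : P = ∑ a ∈ range q, X ^ a * expand k q (sec q a P) := by
  have hq : 0 < q := Nat.pos_of_ne_zero hq0
  ext n
  rw [finsetSum_coeff, Finset.sum_eq_single (n % q)]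
  · have h1 : n % q ≤ n := Nat.mod_le n q
    rw [coeff_X_pow_mul', if_pos h1, coeff_expand hq]
    have h2 : q ∣ n - n % q := Nat.dvd_sub_mod n
    rw [if_pos h2, sec_coeff hq0]
    congr 1
    have h3 := Nat.mul_div_cancel' h2
    omega
  · intro a ha hne
    rw [Finset.mem_range] at ha
    rw [coeff_X_pow_mul']
    split_ifs with h1
    · rw [coeff_expand hq, if_neg]
      intro h2
      apply hne
      have h3 := (Nat.modEq_iff_dvd' h1).2 h2
      rw [← Nat.mod_eq_of_lt ha]
      exact h3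
    · rfl
  · intro h
    exact absurd (Finset.mem_range.2 (Nat.mod_lt n hq)) h

theorem coeff_mul_sq (b : k[X]) (G : PowerSeries k) (m : ℕ) {a : ℕ} (ha : a < q) :
    PowerSeries.coeff (q * m + a) ((b : PowerSeries k) * sq q G) =
      PowerSeries.coeff m (((sec q a b : k[X]) : PowerSeries k) * G) := by
  have hq : 0 < q := Nat.pos_of_ne_zero hq0
  have h1 : (b : PowerSeries k) * sq q G =
      ∑ a ∈ range q, PowerSeries.X ^ a * sq q (((sec q a b : k[X]) : PowerSeries k) * G) := by
    conv_lhs => rw [sec_split hq0 b]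
    rw [← Polynomial.coeToPowerSeries.ringHom_apply, map_sum, Finset.sum_mul]
    refine Finset.sum_congr rfl fun i _ => ?_
    rw [map_mul, map_pow, Polynomial.coeToPowerSeries.ringHom_apply,
      Polynomial.coeToPowerSeries.ringHom_apply, Polynomial.coe_X, ← sq_coe hq0, sq_mul hq0]
    ring
  rw [h1, map_sum, Finset.sum_eq_single a]
  · rw [PowerSeries.coeff_X_pow_mul', if_pos (Nat.le_add_left a (q * m)), Nat.add_sub_cancel, sq,
      PowerSeries.coeff_mk, if_pos (Dvd.intro _ rfl), Nat.mul_div_cancel_left _ hq]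
  · intro i hi hne
    rw [Finset.mem_range] at hi
    rw [PowerSeries.coeff_X_pow_mul']
    split_ifs with h2
    · rw [sq, PowerSeries.coeff_mk, if_neg]
      intro h3
      apply hne
      have h4 := (Nat.modEq_iff_dvd' h2).2 h3
      have h5 : (q * m + a) % q = a := by
        rw [Nat.mul_add_mod, Nat.mod_eq_of_lt ha]
      have h6 : i % q = (q * m + a) % q := h4
      rw [h5, Nat.mod_eq_of_lt hi] at h6
      exact h6
    · rfl
  · intro h
    exact absurd (Finset.mem_range.2 ha) h

theorem sq_indep {r : ℕ} {Γ : ℕ → PowerSeries k}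
    (h : ∀ Q : ℕ → k[X], ∑ j ∈ range r, (Q j : PowerSeries k) * Γ j = 0 → ∀ j < r, Q j = 0)
    (b : ℕ → k[X]) (hb : ∑ j ∈ range r, (b j : PowerSeries k) * sq q (Γ j) = 0) :
    ∀ j < r, b j = 0 := by
  have h1 : ∀ a < q, ∑ j ∈ range r, ((sec q a (b j) : k[X]) : PowerSeries k) * Γ j = 0 := by
    intro a ha
    ext m
    have h2 := congrArg (PowerSeries.coeff (q * m + a)) hb
    rw [map_sum, map_zero] at h2 ⊢
    rw [← h2]
    exact Finset.sum_congr rfl fun j _ => (coeff_mul_sq hq0 (b j) (Γ j) m ha).symm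
  intro j hj
  rw [sec_split hq0 (b j)]
  refine Finset.sum_eq_zero fun a ha => ?_
  rw [h (fun j => sec q a (b j)) (h1 a (Finset.mem_range.1 ha)) j hj, map_zero, mul_zero]

theorem rel_rec {r : ℕ} {Γ : ℕ → PowerSeries k} {E : k[X]} {F A : ℕ → k[X]} {σ : ℕ → ℕ}
    (hσ0 : σ 0 = 0) (hσ : Monotone σ) (hF0 : F 0 = 1) (hΓ0 : Γ 0 = 1)
    (hfe : ∀ j < r, ((E ^ σ (j + 1) : k[X]) : PowerSeries k) * Γ (j + 1) =
      ((F (j + 1) : k[X]) : PowerSeries k) * sq q (Γ (j + 1)) +
        ((A (j + 1) * F j : k[X]) : PowerSeries k) * sq q (Γ j))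
    (h : ∀ Q : ℕ → k[X], ∑ j ∈ range r, (Q j : PowerSeries k) * Γ j = 0 → ∀ j < r, Q j = 0)
    (Q : ℕ → k[X]) (hQ : ∑ j ∈ range (r + 1), (Q j : PowerSeries k) * Γ j = 0) {j : ℕ}
    (hj : j < r) :
    expand k q (Q r) * (F j * (Q j * E ^ (σ r - σ j) + Q (j + 1) * E ^ (σ r - σ (j + 1)) *
      A (j + 1))) = Q r * F r * expand k q (Q j) := by
  -- first relation
  have h1 : ∑ i ∈ range r, (((F i * (Q i * E ^ (σ r - σ i) + Q (i + 1) *
      E ^ (σ r - σ (i + 1)) * A (i + 1)) : k[X]) : PowerSeries k)) * sq q (Γ i) +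
      ((Q r * F r : k[X]) : PowerSeries k) * sq q (Γ r) = 0 := by
    have e1 : ∑ i ∈ range (r + 1), ((E ^ σ r : k[X]) : PowerSeries k) *
        ((Q i : PowerSeries k) * Γ i) = 0 := by
      rw [← Finset.mul_sum, hQ, mul_zero]
    have e2 : ∑ i ∈ range (r + 1), ((E ^ σ r : k[X]) : PowerSeries k) *
        ((Q i : PowerSeries k) * Γ i) =
        ∑ i ∈ range (r + 1), ((Q i * E ^ (σ r - σ i) * F i : k[X]) : PowerSeries k) *
          sq q (Γ i) +
        ∑ i ∈ range r, ((Q (i + 1) * E ^ (σ r - σ (i + 1)) * (A (i + 1) * F i) : k[X]) :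
          PowerSeries k) * sq q (Γ i) := by
      rw [Finset.sum_range_succ', Finset.sum_range_succ' (fun i =>
        ((Q i * E ^ (σ r - σ i) * F i : k[X]) : PowerSeries k) * sq q (Γ i)), add_right_comm,
        ← Finset.sum_add_distrib]
      congr 1
      · refine Finset.sum_congr rfl fun i hi => ?_
        have hi' := Finset.mem_range.1 hi
        have hle : σ (i + 1) ≤ σ r := hσ (by omega)
        have e3 : (E ^ σ r : k[X]) = E ^ (σ r - σ (i + 1)) * E ^ σ (i + 1) := by
          rw [← pow_add]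
          congr 1
          omega
        rw [e3]
        have e4 := hfe i hi'
        simp only [Polynomial.coe_mul] at e4 ⊢
        linear_combination ((Q (i + 1) : k[X]) : PowerSeries k) *
          ((E ^ (σ r - σ (i + 1)) : k[X]) : PowerSeries k) * e4
      · rw [hσ0, hΓ0, sq_one hq0, Nat.sub_zero, hF0, mul_one, mul_one, mul_one,
          Polynomial.coe_mul]
        ring
    rw [e2, Finset.sum_range_succ, Nat.sub_self, pow_zero, mul_one, add_right_comm,
      ← Finset.sum_add_distrib] at e1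
    rw [← e1]
    congr 1
    refine Finset.sum_congr rfl fun i _ => ?_
    simp only [Polynomial.coe_mul, Polynomial.coe_add]
    ring
  -- second relation
  have h2 : ∑ i ∈ range r, ((expand k q (Q i) : k[X]) : PowerSeries k) * sq q (Γ i) +
      ((expand k q (Q r) : k[X]) : PowerSeries k) * sq q (Γ r) = 0 := by
    have e1 := congrArg (sq q) hQ
    rw [sq_sum hq0, sq_zero hq0, Finset.sum_range_succ, sq_mul hq0, sq_coe hq0] at e1
    rw [← e1]
    congr 1
    refine Finset.sum_congr rfl fun i _ => ?_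
    rw [sq_mul hq0, sq_coe hq0]
  -- combination
  have h3 : ∑ i ∈ range r, (((expand k q (Q r) * (F i * (Q i * E ^ (σ r - σ i) + Q (i + 1) *
      E ^ (σ r - σ (i + 1)) * A (i + 1))) - Q r * F r * expand k q (Q i) : k[X]) :
      PowerSeries k)) * sq q (Γ i) = 0 := by
    have e1 : ∑ i ∈ range r, (((expand k q (Q r) * (F i * (Q i * E ^ (σ r - σ i) +
        Q (i + 1) * E ^ (σ r - σ (i + 1)) * A (i + 1))) - Q r * F r * expand k q (Q i) :
        k[X]) : PowerSeries k)) * sq q (Γ i) =
        ((expand k q (Q r) : k[X]) : PowerSeries k) * ∑ i ∈ range r, (((F i * (Q i *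
          E ^ (σ r - σ i) + Q (i + 1) * E ^ (σ r - σ (i + 1)) * A (i + 1)) : k[X]) :
          PowerSeries k)) * sq q (Γ i) -
        ((Q r * F r : k[X]) : PowerSeries k) *
          ∑ i ∈ range r, ((expand k q (Q i) : k[X]) : PowerSeries k) * sq q (Γ i) := by
      rw [Finset.mul_sum, Finset.mul_sum, ← Finset.sum_sub_distrib]
      refine Finset.sum_congr rfl fun i _ => ?_
      simp only [Polynomial.coe_sub, Polynomial.coe_mul]
      ring
    rw [e1]
    linear_combination ((expand k q (Q r) : k[X]) : PowerSeries k) * h1 -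
      ((Q r * F r : k[X]) : PowerSeries k) * h2
  have h4 := sq_indep hq0 h (fun i => expand k q (Q r) * (F i * (Q i * E ^ (σ r - σ i) +
    Q (i + 1) * E ^ (σ r - σ (i + 1)) * A (i + 1))) - Q r * F r * expand k q (Q i)) h3 j hj
  exact sub_eq_zero.1 h4

end Pool.Agent.ZQ
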