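import Pool.Agent.Work.MP_43901b_nt.H.Gam
import Pool.Agent.Work.MP_43901b_nt.H.RelRec
import Pool.Agent.Work.MP_43901b_nt.H.DegR

/-!
# Indep: the power series of the tails are linearly independent over k[X]
-/

namespace Pool.Agent.ZQ

open Polynomial Finset Filter

variable {p q : ℕ} {k L : Type*} [Fact p.Prime] [Field k] [CharP k p] [NormedField L]
  [CompleteSpace L] [IsUltrametricDist L] [CharP L p] (S : Setup p q k L)

namespace Setup

theorem sum_take_drop (s : List ℕ) (j : ℕ) : (s.take j).reverse.sum + (s.drop j).sum = s.sum := by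
  rw [List.sum_reverse, ← List.sum_append, List.take_append_drop]

theorem take_pos {s : List ℕ} (hs : ∀ a ∈ s, 1 ≤ a) (j : ℕ) : ∀ a ∈ (s.take j).reverse, 1 ≤ a := by
  intro a ha
  exact hs a (List.mem_of_mem_take (List.mem_reverse.mp ha))

theorem drop_pos {s : List ℕ} (hs : ∀ a ∈ s, 1 ≤ a) (j : ℕ) : ∀ a ∈ s.drop j, 1 ≤ a := by
  intro a ha
  exact hs a (List.mem_of_mem_drop ha)

theorem rev_take (s : List ℕ) {j : ℕ} (hj : j < s.length) :
    (s.take (j + 1)).reverse = s[j] :: (s.take j).reverse := by
  rw [List.take_succ_eq_append_getElem hj, List.reverse_append]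
  rfl

theorem sigma_mono (s : List ℕ) : Monotone fun j => (s.take j).sum := by
  refine monotone_nat_of_le_succ fun j => ?_
  by_cases hj : j < s.length
  · rw [List.take_succ_eq_append_getElem hj, List.sum_append]
    omega
  · rw [List.take_of_length_le (by omega), List.take_of_length_le (by omega)]

/-- rational telescoping functions are the partial sums -/
theorem desc (hN : NoTop q S.D) {s : List ℕ} (hs : ∀ a ∈ s, 1 ≤ a) (j0 : ℕ) {Z : ℕ → ℕ → k}
    {M N : ℕ → k[X]} (hM : ∀ j, M j ≠ 0) (h0 : ∀ᶠ d in atTop, Z s.length d = 1)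
    (h1 : ∀ j, j0 ≤ j → j < s.length → ∀ᶠ d in atTop,
      Z j d * ell q S.D d ^ (s.drop j).sum * (M j).eval (S.t d) = (N j).eval (S.t d))
    (h2 : ∀ j, j0 ≤ j → ∀ hj : j < s.length, ∀ᶠ d in atTop,
      Z j (d + 1) = Z j d + ps q S.D d s[j] * Z (j + 1) d) :
    ∀ j, j0 ≤ j → j ≤ s.length → ∃ R : k[X], Ch q S.D (s.drop j) R ∧
      ∀ᶠ d in atTop, Z j d = SS q S.D (s.drop j) d := by
  have key : ∀ m, ∀ j, j0 ≤ j → j ≤ s.length → s.length - j = m → ∃ R : k[X],
      Ch q S.D (s.drop j) R ∧ ∀ᶠ d in atTop, Z j d = SS q S.D (s.drop j) d := by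
    intro m
    induction m with
    | zero =>
      intro j _ hj hm
      have hj' : j = s.length := by omega
      subst hj'
      refine ⟨1, ?_, ?_⟩
      · rw [List.drop_length, Ch]
      · filter_upwards [h0] with d hd
        rw [hd, List.drop_length, SS_nil]
    | succ m ih =>
      intro j hj0 hj hm
      have hjl : j < s.length := by omega
      obtain ⟨R', hR', hZ'⟩ := ih (j + 1) (by omega) (by omega) (by omega)
      have ha : 1 ≤ s[j] := hs _ (List.getElem_mem hjl)
      have hdrop : s.drop j = s[j] :: s.drop (j + 1) := List.drop_eq_getElem_cons hjl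
      have hpos := drop_pos hs (j + 1)
      have hsum : (s.drop j).sum = s[j] + (s.drop (j + 1)).sum := by rw [hdrop, List.sum_cons]
      obtain ⟨Φ, hfe, hΦ⟩ := S.rat_tel (W := s[j] + (s.drop (j + 1)).sum)
        (G := PP q S.D s[j] * R') (Z := Z j) (hM j)
        (by
          filter_upwards [h1 j hj0 hjl] with d hd
          rw [hsum] at hd
          exact hd)
        (by
          filter_upwards [h2 j hj0 hjl, hZ'] with d hd hd'
          rw [hd, hd', add_sub_cancel_left, eval_mul, ← hR'.sum S.hq S.one_le_f S.br_ne' hpos,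
            ← ps_mul_ell S.D S.br_ne', pow_add]
          ring)
      have hdeg : (q - 1) * Φ.natDegree = s[j] + (s.drop (j + 1)).sum := by
        have e1 : (q - 1) * Φ.natDegree ≤ s[j] + (s.drop (j + 1)).sum := by
          refine natDegree_le_of_fe S.two_le S.D_ne hfe ?_
          calc (q - 1) * (PP q S.D s[j] * R').natDegree
              ≤ (q - 1) * ((PP q S.D s[j]).natDegree + R'.natDegree) :=
                Nat.mul_le_mul_left _ natDegree_mul_le
            _ ≤ (s[j] - 1) + (s.drop (j + 1)).sum := by
                rw [mul_add, hR'.natDegree]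
                exact Nat.add_le_add_right (PP_natDegree S.two_le S.D s[j]) _
            _ ≤ _ := by omega
        refine le_antisymm e1 (not_lt.1 fun hlt => ?_)
        exact hN s[j] (s.drop (j + 1)) Φ R' ha hpos hR' hfe hlt
      have hCh : Ch q S.D (s.drop j) Φ := by
        rw [hdrop]
        exact ⟨R', hR', hfe, hdeg⟩
      refine ⟨Φ, hCh, ?_⟩
      filter_upwards [hΦ] with d hd
      have e2 := hCh.sum S.hq S.one_le_f S.br_ne' (drop_pos hs j) d
      rw [← hd, hsum] at e2
      exact (mul_right_cancel₀ (pow_ne_zero _ (S.ell_ne' d)) e2).symm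
  intro j hj0 hj
  exact key _ j hj0 hj rfl

theorem small_const {a : ℕ → k} {x : L} {n : ℕ} {c : ℝ} (hc : 0 < c)
    (ha : ∀ᶠ d in atTop, c * ‖S.φ (S.t d)‖ ^ n ≤ ‖S.φ (a d)‖)
    (h : S.Small fun d => S.φ (a d) * x) : x = 0 := by
  by_contra hx
  have hx' : 0 < ‖x‖ := norm_pos_iff.2 hx
  obtain ⟨C, hC⟩ := h (n + 1)
  have h1 : ∀ᶠ d in atTop, C * ‖S.φ (S.t d)‖ < c * ‖x‖ := by
    have h2 := S.tendsto_t.const_mul C
    rw [mul_zero] at h2
    exact h2.eventually (gt_mem_nhds (mul_pos hc hx'))
  obtain ⟨d, e1, e2, e3⟩ := (ha.and (hC.and h1)).exists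
  have ht : 0 < ‖S.φ (S.t d)‖ ^ n := pow_pos (S.norm_t_pos d) n
  rw [norm_mul] at e2
  have e4 : c * ‖S.φ (S.t d)‖ ^ n * ‖x‖ ≤ C * ‖S.φ (S.t d)‖ ^ (n + 1) :=
    (mul_le_mul_of_nonneg_right e1 hx'.le).trans e2
  have e5 : (c * ‖x‖) * ‖S.φ (S.t d)‖ ^ n ≤ (C * ‖S.φ (S.t d)‖) * ‖S.φ (S.t d)‖ ^ n := by
    calc (c * ‖x‖) * ‖S.φ (S.t d)‖ ^ n = c * ‖S.φ (S.t d)‖ ^ n * ‖x‖ := by ring
      _ ≤ C * ‖S.φ (S.t d)‖ ^ (n + 1) := e4
      _ = _ := by rw [pow_succ]; ring
  exact absurd e3 (not_lt.2 (le_of_mul_le_mul_right e5 ht))

theorem nl_lower (l : List ℕ) (d : ℕ) : ‖S.φ (S.t d)‖ ^ NN q l ≤ ‖S.φ (S.nl l d)‖ := by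
  rw [nl, map_mul, norm_mul, map_pow, norm_pow, map_pow, norm_pow]
  refine le_mul_of_one_le_right (pow_nonneg (norm_nonneg _) _) (one_le_pow₀ ?_)
  rw [S.map_ell]
  exact one_le_norm_ell S.hq S.one_le_f (S.φ S.D) S.one_lt_D d

theorem NN_take_mono (s : List ℕ) {i j : ℕ} (h : i ≤ j) :
    NN q (s.take i).reverse ≤ NN q (s.take j).reverse := by
  induction j, h using Nat.le_induction with
  | base => exact le_rfl
  | succ j _ ih =>
    refine ih.trans ?_
    by_cases hj : j < s.length
    · rw [rev_take s hj, NN]
      exact Nat.le_add_left _ _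
    · rw [List.take_of_length_le (by omega), List.take_of_length_le (by omega)]

theorem indep (hN : NoTop q S.D) {s : List ℕ} (hs : ∀ a ∈ s, 1 ≤ a) (Q : ℕ → k[X])
    (h : ∑ j ∈ range (s.length + 1), (Q j : PowerSeries k) * S.Gam (s.take j).reverse = 0) :
    ∀ j ≤ s.length, Q j = 0 := by
  have hq0 : q ≠ 0 := by have := S.two_le; omega
  induction hr : s.length generalizing s Q with
  | zero =>
    intro j hj
    have hj' : j = 0 := by omega
    subst hj'
    rw [hr, Finset.sum_range_one, List.take_zero, List.reverse_nil, S.gam_nil, mul_one] at h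
    exact Polynomial.coe_eq_zero_iff.1 h
  | succ r ih =>
    have htake : ∀ j ≤ r, (s.take r).take j = s.take j := by
      intro j hj
      rw [List.take_take, min_eq_left hj]
    have hlen : (s.take r).length = r := by
      rw [List.length_take, hr]
      omega
    have hind : ∀ Q : ℕ → k[X], ∑ j ∈ range (r + 1), (Q j : PowerSeries k) *
        S.Gam (s.take j).reverse = 0 → ∀ j < r + 1, Q j = 0 := by
      intro Q' hQ' j hj
      refine ih (s := s.take r) (fun a ha => hs a (List.mem_of_mem_take ha)) Q' ?_ hlen j
        (by omega)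
      rw [hlen, ← hQ']
      refine Finset.sum_congr rfl fun i hi => ?_
      rw [Finset.mem_range] at hi
      rw [htake i (by omega)]
    by_cases hQr : Q (r + 1) = 0
    · rw [hr, Finset.sum_range_succ, hQr, Polynomial.coe_zero, zero_mul, add_zero] at h
      intro j hj
      rcases Nat.lt_or_ge j (r + 1) with h1 | h1
      · exact hind Q h j h1
      · have : j = r + 1 := by omega
        subst this
        exact hQr
    · exfalso
      rw [hr] at h
      -- the functional equation
      have hrel : ∀ j < r + 1, expand k q (Q (r + 1)) * ((Fl q (s.take j).reverse : k[X]) *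
          (Q j * S.Ee ^ ((s.take (r + 1)).sum - (s.take j).sum) + Q (j + 1) *
          S.Ee ^ ((s.take (r + 1)).sum - (s.take (j + 1)).sum) *
          (S.Ee ^ (s.getD j 0) * S.Ph (s.getD j 0)))) =
          Q (r + 1) * (Fl q (s.take (r + 1)).reverse : k[X]) * expand k q (Q j) := by
        intro j hj
        refine rel_rec hq0 (r := r + 1) (Γ := fun j => S.Gam (s.take j).reverse) (E := S.Ee)
          (F := fun j => (Fl q (s.take j).reverse : k[X]))
          (A := fun j => S.Ee ^ (s.getD (j - 1) 0) * S.Ph (s.getD (j - 1) 0))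
          (σ := fun j => (s.take j).sum) ?_ (sigma_mono s) ?_ ?_ ?_ hind Q h hj
        · rw [List.take_zero, List.sum_nil]
        · simp only [List.take_zero, List.reverse_nil, Fl_nil]
        · simp only [List.take_zero, List.reverse_nil, S.gam_nil]
        · intro i hi
          have hil : i < s.length := by omega
          have hn : 1 ≤ s[i] := hs _ (List.getElem_mem hil)
          have h1 := S.gam_fe hn (take_pos hs i)
          rw [← rev_take s hil, List.sum_reverse] at h1
          have h2 : s.getD (i + 1 - 1) 0 = s[i] := by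
            rw [Nat.add_sub_cancel, List.getD_eq_getElem _ _ hil]
          simp only [h2]
          exact h1
      -- the rational functions
      set Z : ℕ → ℕ → k := fun j d => (Q j).eval (S.t d) * S.nl (s.take j).reverse d /
        ((Q (r + 1)).eval (S.t d) * S.nl (s.take (r + 1)).reverse d) with hZ
      have hne := S.poly_ne hQr
      have hne1 := (tendsto_add_atTop_nat 1).eventually hne
      have hstep : ∀ j, 0 ≤ j → ∀ hj : j < s.length, ∀ᶠ d in atTop,
          Z j (d + 1) = Z j d + ps q S.D d s[j] * Z (j + 1) d := by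
        intro j _ hj
        filter_upwards [hne, hne1] with d e1 e2
        have h1 := congrArg (Polynomial.eval (S.t d)) (hrel j (by omega))
        have h2 : s.getD j 0 = s[j] := List.getD_eq_getElem _ _ hj
        simp only [h2, eval_mul, eval_add, eval_pow, Polynomial.expand_eval, ← S.t_succ,
          S.Ph_eval] at h1
        have n1 := S.nl_succ (take_pos hs j) d
        have n2 := S.nl_succ (take_pos hs (r + 1)) d
        have n3 := S.nl_cons s[j] (s.take j).reverse d
        rw [← rev_take s hj] at n3
        have n4 := ps_mul_ell S.D S.br_ne' d s[j]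
        rw [List.sum_reverse] at n1 n2
        have hE := S.Ee_ne d
        have hs1 : (s.take j).sum ≤ (s.take (r + 1)).sum := sigma_mono s (by omega)
        have hs2 : (s.take (j + 1)).sum = (s.take j).sum + s[j] := by
          rw [List.take_succ_eq_append_getElem hj, List.sum_append, List.sum_singleton]
        have hs3 : (s.take (j + 1)).sum ≤ (s.take (r + 1)).sum := sigma_mono s (by omega)
        have p1 : S.Ee.eval (S.t d) ^ ((s.take (r + 1)).sum) =
            S.Ee.eval (S.t d) ^ ((s.take (r + 1)).sum - (s.take j).sum) *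
            S.Ee.eval (S.t d) ^ (s.take j).sum := by
          rw [← pow_add]
          congr 1
          omega
        have p2 : S.Ee.eval (S.t d) ^ ((s.take (r + 1)).sum - (s.take j).sum) =
            S.Ee.eval (S.t d) ^ ((s.take (r + 1)).sum - (s.take (j + 1)).sum) *
            S.Ee.eval (S.t d) ^ s[j] := by
          rw [← pow_add]
          congr 1
          omega
        have f1 := S.nl_ne (s.take j).reverse d
        have f2 := S.nl_ne (s.take (r + 1)).reverse d
        have f3 := S.nl_ne (s.take (r + 1)).reverse (d + 1)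
        have f4 : (Fl q (s.take j).reverse : k[X]).eval (S.t d) ≠ 0 := by
          intro h0
          rw [h0, zero_mul] at n1
          exact mul_ne_zero (pow_ne_zero _ hE) f1 n1
        simp only [hZ]
        rw [div_add' _ _ _ (mul_ne_zero e1 f2), div_eq_div_iff (mul_ne_zero e2 f3)
          (mul_ne_zero e1 f2)]
        have hx : ps q S.D d s[j] * ((Q (j + 1)).eval (S.t d) * S.nl (s.take (j + 1)).reverse d /
            ((Q (r + 1)).eval (S.t d) * S.nl (s.take (r + 1)).reverse d)) *
            ((Q (r + 1)).eval (S.t d) * S.nl (s.take (r + 1)).reverse d) =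
            (Q (j + 1)).eval (S.t d) * (S.t d ^ ((s[j] - 1) / (q - 1)) *
              (PP q S.D s[j]).eval (vv q S.D d)) * S.nl (s.take j).reverse d := by
          rw [mul_assoc, div_mul_cancel₀ _ (mul_ne_zero e1 f2), n3]
          linear_combination ((Q (j + 1)).eval (S.t d) * S.t d ^ ((s[j] - 1) / (q - 1)) *
            S.nl (s.take j).reverse d) * n4
        rw [hx]
        apply mul_left_cancel₀ (mul_ne_zero f4 (pow_ne_zero (s.take (r + 1)).sum hE))
        rw [p2] at h1 p1
        set A := (Q j).eval (S.t d)
        set B := (Q (j + 1)).eval (S.t d)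
        set A1 := (Q j).eval (S.t (d + 1))
        set q0 := (Q (r + 1)).eval (S.t d)
        set q1 := (Q (r + 1)).eval (S.t (d + 1))
        set Fj := (Fl q (s.take j).reverse : k[X]).eval (S.t d)
        set FR := (Fl q (s.take (r + 1)).reverse : k[X]).eval (S.t d)
        set nj := S.nl (s.take j).reverse d
        set nj1 := S.nl (s.take j).reverse (d + 1)
        set nR := S.nl (s.take (r + 1)).reverse d
        set nR1 := S.nl (s.take (r + 1)).reverse (d + 1)
        set P := S.t d ^ ((s[j] - 1) / (q - 1)) * (PP q S.D s[j]).eval (vv q S.D d)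
        set y := S.Ee.eval (S.t d) ^ (s.take j).sum
        linear_combination (Fj * A1 * nj1 * q0) * n2 - (A1 * q0 * FR * nR1) * n1 -
          (y * nj * nR1) * h1 - (nj * nR1 * q1 * Fj * (A + B * P)) * p1
      -- the denominators
      have hpoly : ∀ j, 0 ≤ j → j < s.length → ∀ᶠ d in atTop,
          Z j d * ell q S.D d ^ (s.drop j).sum * (Q (r + 1) * X ^
            (NN q (s.take (r + 1)).reverse - NN q (s.take j).reverse) : k[X]).eval (S.t d) =
            (Q j).eval (S.t d) := by
        intro j _ hj
        filter_upwards [hne] with d e1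
        have f2 := S.nl_ne (s.take (r + 1)).reverse d
        have hmono : NN q (s.take j).reverse ≤ NN q (s.take (r + 1)).reverse :=
          NN_take_mono s (by omega)
        have hsum : (s.take (r + 1)).reverse.sum = (s.take j).reverse.sum + (s.drop j).sum := by
          rw [sum_take_drop, List.sum_reverse, List.take_of_length_le (by omega)]
        have hx : S.nl (s.take (r + 1)).reverse d = S.nl (s.take j).reverse d *
            (ell q S.D d ^ (s.drop j).sum *
              S.t d ^ (NN q (s.take (r + 1)).reverse - NN q (s.take j).reverse)) := by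
          rw [nl, nl, hsum, pow_add (ell q S.D d)]
          have : S.t d ^ NN q (s.take (r + 1)).reverse = S.t d ^ NN q (s.take j).reverse *
              S.t d ^ (NN q (s.take (r + 1)).reverse - NN q (s.take j).reverse) := by
            rw [← pow_add]
            congr 1
            omega
          rw [this]
          ring
        simp only [hZ, eval_mul, eval_pow, eval_X]
        rw [div_mul_eq_mul_div, div_mul_eq_mul_div, div_eq_iff (mul_ne_zero e1 f2), hx]
        ring
      have hone : ∀ᶠ d in atTop, Z s.length d = 1 := by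
        filter_upwards [hne] with d e1
        simp only [hZ, hr]
        exact div_self (mul_ne_zero e1 (S.nl_ne _ d))
      have hdesc := S.desc hN hs 0 (Z := Z)
        (M := fun j => Q (r + 1) * X ^
            (NN q (s.take (r + 1)).reverse - NN q (s.take j).reverse)) (N := Q)
        (fun j => mul_ne_zero hQr (pow_ne_zero _ X_ne_zero)) hone hpoly hstep
      -- ζ(s) = 0
      have hall : ∀ᶠ d in atTop, ∀ j ∈ range (s.length + 1), Z j d = SS q S.D (s.drop j) d := by
        rw [Filter.eventually_all_finset]
        intro j hj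
        rw [Finset.mem_range] at hj
        obtain ⟨_, _, h1⟩ := hdesc j (Nat.zero_le _) (by omega)
        exact h1
      have hrep : S.Rep (fun d => ∑ j ∈ range (r + 1 + 1), S.φ ((Q j).eval (S.t d)) *
          S.gl (s.take j).reverse d) 0 := by
        rw [← h]
        exact S.rep_sum _ fun j _ => S.rep_mul (S.rep_poly (Q j)) (S.gam_rep (take_pos hs j))
      have hsmall : S.Small fun d => S.φ ((Q (r + 1)).eval (S.t d) *
          S.nl (s.take (r + 1)).reverse d) * S.zeta s := by
        refine S.rep_small.1 (S.rep_congr hrep ?_)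
        filter_upwards [hne, hall] with d e1 e2
        rw [← S.split hs d, Finset.mul_sum, hr]
        refine Finset.sum_congr rfl fun j hj => ?_
        have hj' : j ∈ range (s.length + 1) := by rwa [hr]
        rw [← e2 j hj', gl]
        have f2 := S.nl_ne (s.take (r + 1)).reverse d
        have hx : Z j d * ((Q (r + 1)).eval (S.t d) * S.nl (s.take (r + 1)).reverse d) =
            (Q j).eval (S.t d) * S.nl (s.take j).reverse d := by
          simp only [hZ]
          rw [div_mul_cancel₀ _ (mul_ne_zero e1 f2)]
        have hx' := congrArg S.φ hx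
        simp only [map_mul] at hx' ⊢
        linear_combination (-(S.zg (s.take j).reverse d)) * hx'
      obtain ⟨n, c, hc, hlow⟩ := S.poly_lower hQr
      have hzero : S.zeta s = 0 := by
        refine S.small_const (n := n + NN q (s.take (r + 1)).reverse) hc ?_ hsmall
        filter_upwards [hlow] with d e1
        rw [map_mul, norm_mul, pow_add, ← mul_assoc]
        exact mul_le_mul e1 (S.nl_lower _ d) (pow_nonneg (norm_nonneg _) _) (norm_nonneg _)
      -- contradiction
      obtain ⟨Φ, hCh, hZΦ⟩ := hdesc 0 le_rfl (Nat.zero_le _)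
      rw [List.drop_zero] at hCh hZΦ
      have hdeg := hCh.natDegree
      have hsum1 : 1 ≤ s.sum := by
        have h1 : 0 < s.length := by omega
        have h2 : 1 ≤ s[0] := hs _ (List.getElem_mem h1)
        have h3 : s[0] ≤ s.sum := List.single_le_sum (fun _ _ => Nat.zero_le _) _
          (List.getElem_mem h1)
        omega
      have hlim := S.tendsto_SS hs
      rw [hzero] at hlim
      have hlt := S.natDegree_lt_of_tendsto (Z := fun d => SS q S.D s d) hsum1 hdeg.le
        (Eventually.of_forall fun d => hCh.sum S.hq S.one_le_f S.br_ne' hs d) hlim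
      omega

end Setup

end Pool.Agent.ZQ
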