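import Pool.Agent.Work.MP_43901b_nt.H.MzvSum

/-!
# KinfS: the completion at infinity as a setting
-/

namespace Pool.Agent.ZQ

open Polynomial Finset Filter

section

variable (F : Type*) [Field F]

theorem ks_alg (x : RatFunc F) :
    Valued.v (algebraMap (RatFunc F) (Kinf F) x) = RatFunc.inftyValuationDef F x := by
  let _ := RatFunc.inftyValued F
  exact Valued.valuedCompletion_apply x

theorem ks_X : Valued.v (algebraMap (RatFunc F) (Kinf F) RatFunc.X) =
    (WithZero.exp 1 : WithZero (Multiplicative ℤ)) := by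
  rw [ks_alg, ← RatFunc.inftyValuation_apply, RatFunc.inftyValuation.X]

theorem ks_nontriv :
    (Valued.v : Valuation (Kinf F) (WithZero (Multiplicative ℤ))).IsNontrivial := by
  refine ⟨algebraMap (RatFunc F) (Kinf F) RatFunc.X, ?_, ?_⟩
  · rw [ks_X]
    simp
  · rw [ks_X]
    simp

noncomputable instance rankOneKinf :
    Valuation.RankOne (Valued.v : Valuation (Kinf F) (WithZero (Multiplicative ℤ))) := by
  haveI := ks_nontriv F
  haveI : MulArchimedean (MonoidWithZeroHom.ValueGroup₀
      (.ofClass (Valued.v : Valuation (Kinf F) (WithZero (Multiplicative ℤ))))) :=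
    MulArchimedean.comap (MonoidWithZeroHom.ValueGroup₀.embedding).toMonoidHom
      MonoidWithZeroHom.ValueGroup₀.embedding_strictMono
  exact (Valuation.nonempty_rankOne_iff_mulArchimedean.2 this).some

end

open scoped Valued

section

variable (F : Type*) [Field F]

instance completeKinf : @CompleteSpace (Kinf F)
    (Valued.toNormedField (Kinf F) (WithZero (Multiplicative ℤ))).toMetricSpace.toUniformSpace := by
  let _ := RatFunc.inftyValued F
  exact UniformSpace.Completion.completeSpace (RatFunc F)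

instance charPRatFunc (p : ℕ) [CharP F p] : CharP (RatFunc F) p :=
  charP_of_injective_algebraMap (algebraMap F (RatFunc F)).injective p

instance charPKinf (p : ℕ) [CharP F p] : CharP (Kinf F) p :=
  charP_of_injective_algebraMap (algebraMap (RatFunc F) (Kinf F)).injective p

variable {F} [Fintype F] {p f : ℕ} [Fact p.Prime] [CharP F p]

/-- the setting given by `F(t)` and its completion at infinity -/
noncomputable def theSetup (hf : 1 ≤ f) (hq : Fintype.card F = p ^ f) :
    Setup p (Fintype.card F) (RatFunc F) (Kinf F) where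
  f := f
  one_le_f := hf
  hq := hq
  φ := algebraMap (RatFunc F) (Kinf F)
  O := (algebraMap F[X] (RatFunc F)).range
  θ := RatFunc.X
  norm_ge := by
    rintro _ ⟨P, rfl⟩ hP
    have hP0 : P ≠ 0 := by
      intro h
      rw [h, map_zero] at hP
      exact hP rfl
    rw [Valued.toNormedField.one_le_norm_iff, ks_alg, RatFunc.inftyValuation.polynomial _ hP0]
    rw [← WithZero.exp_zero, WithZero.exp_le_exp]
    exact Int.natCast_nonneg _
  frac := by
    intro x
    refine ⟨algebraMap F[X] (RatFunc F) x.denom, ⟨_, rfl⟩, ?_, x.num, ?_⟩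
    · exact (map_ne_zero_iff _ (IsFractionRing.injective F[X] (RatFunc F))).2
        x.denom_ne_zero
    · have h1 := x.num_div_denom
      have h2 : algebraMap F[X] (RatFunc F) x.denom ≠ 0 :=
        (map_ne_zero_iff _ (IsFractionRing.injective F[X] (RatFunc F))).2
          x.denom_ne_zero
      rw [div_eq_iff h2] at h1
      rw [h1, mul_comm]
  θ_mem := ⟨X, RatFunc.algebraMap_X⟩
  hθ := by
    rw [Valued.toNormedField.one_lt_norm_iff, ks_X, ← WithZero.exp_zero, WithZero.exp_lt_exp]
    exact zero_lt_one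

theorem theSetup_φ (hf : 1 ≤ f) (hq : Fintype.card F = p ^ f) :
    (theSetup hf hq).φ = algebraMap (RatFunc F) (Kinf F) := rfl

theorem theSetup_θ (hf : 1 ≤ f) (hq : Fintype.card F = p ^ f) :
    (theSetup hf hq).θ = RatFunc.X := rfl

theorem mzv_eq (hf : 1 ≤ f) (hq : Fintype.card F = p ^ f) {s : List ℕ} (hs : ∀ a ∈ s, 1 ≤ a) :
    mzv F s = (theSetup hf hq).zeta s :=
  ((theSetup hf hq).hasSum_zeta rfl (ψ := algebraMap F[X] (RatFunc F))
    RatFunc.algebraMap_X hs).tsum_eq

theorem summable_mzv (hf : 1 ≤ f) (hq : Fintype.card F = p ^ f) {s : List ℕ}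
    (hs : ∀ a ∈ s, 1 ≤ a) :
    Summable fun a : Idx F s.length => ∏ i, ((toKinf (a.1 i))⁻¹) ^ s.get i :=
  ((theSetup hf hq).hasSum_zeta rfl (ψ := algebraMap F[X] (RatFunc F))
    RatFunc.algebraMap_X hs).summable

theorem mzv_single_ne (hf : 1 ≤ f) (hq : Fintype.card F = p ^ f) {w : ℕ} (hw : 1 ≤ w) :
    mzv F [w] ≠ 0 := by
  rw [mzv_eq hf hq (s := [w]) (by simpa using hw)]
  exact (theSetup hf hq).zeta_single_ne hw

theorem zetaLike_zeta (hf : 1 ≤ f) (hq : Fintype.card F = p ^ f) {s : List ℕ}
    (hs : ∀ a ∈ s, 1 ≤ a) (h : ZetaLike F s) : ∃ c : RatFunc F,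
      (theSetup hf hq).zeta s = (theSetup hf hq).φ c * (theSetup hf hq).zeta [s.sum] := by
  obtain ⟨hl, c, hc⟩ := h
  have hsum : 1 ≤ s.sum := by
    rcases s with _ | ⟨a, s⟩
    · simp at hl
    · have := hs a (by simp)
      rw [List.sum_cons]
      omega
  refine ⟨c, ?_⟩
  rw [← mzv_eq hf hq hs, ← mzv_eq hf hq (s := [s.sum]) (by simpa using hsum), theSetup_φ, ← hc,
    div_mul_cancel₀ _ (mzv_single_ne hf hq hsum)]

end

end Pool.Agent.ZQ
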