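import Pool.Agent.Work.MP_43901b_nt.H.RepA

/-!
# RepB: uniqueness, lower bounds, inverse, shift
-/

namespace Pool.Agent.ZQ

open Polynomial Finset Filter

variable {p q : ℕ} {k L : Type*} [Fact p.Prime] [Field k] [CharP k p] [NormedField L]
  [CompleteSpace L] [IsUltrametricDist L] [CharP L p] (S : Setup p q k L)

section Sq

variable {q : ℕ} (hq0 : q ≠ 0) {k : Type*} [Field k]

include hq0

theorem sq_eq_expand (G : PowerSeries k) : sq q G = PowerSeries.expand q hq0 G := by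
  ext n
  rw [sq, PowerSeries.coeff_mk, PowerSeries.coeff_expand]

theorem sq_add (G H : PowerSeries k) : sq q (G + H) = sq q G + sq q H := by
  rw [sq_eq_expand hq0, sq_eq_expand hq0, sq_eq_expand hq0, map_add]

theorem sq_sub (G H : PowerSeries k) : sq q (G - H) = sq q G - sq q H := by
  rw [sq_eq_expand hq0, sq_eq_expand hq0, sq_eq_expand hq0, map_sub]

theorem sq_neg (G : PowerSeries k) : sq q (-G) = -sq q G := by
  rw [sq_eq_expand hq0, sq_eq_expand hq0, map_neg]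

theorem sq_mul (G H : PowerSeries k) : sq q (G * H) = sq q G * sq q H := by
  rw [sq_eq_expand hq0, sq_eq_expand hq0, sq_eq_expand hq0, map_mul]

theorem sq_pow (G : PowerSeries k) (n : ℕ) : sq q (G ^ n) = sq q G ^ n := by
  rw [sq_eq_expand hq0, sq_eq_expand hq0, map_pow]

theorem sq_zero : sq q (0 : PowerSeries k) = 0 := by
  rw [sq_eq_expand hq0, map_zero]

theorem sq_one : sq q (1 : PowerSeries k) = 1 := by
  rw [sq_eq_expand hq0, map_one]

theorem sq_sum {ι : Type*} (T : Finset ι) (G : ι → PowerSeries k) :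
    sq q (∑ i ∈ T, G i) = ∑ i ∈ T, sq q (G i) := by
  rw [sq_eq_expand hq0, map_sum]
  exact Finset.sum_congr rfl fun i _ => (sq_eq_expand hq0 _).symm

theorem sq_const (G : PowerSeries k) :
    PowerSeries.constantCoeff (sq q G) = PowerSeries.constantCoeff G := by
  rw [sq_eq_expand hq0, PowerSeries.constantCoeff_expand]

theorem sq_coe (P : k[X]) : sq q (P : PowerSeries k) = ((expand k q P : k[X]) : PowerSeries k) := by
  ext n
  unfold sq
  rw [PowerSeries.coeff_mk, Polynomial.coeff_coe, Polynomial.coeff_coe,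
    Polynomial.coeff_expand (Nat.pos_of_ne_zero hq0)]

theorem sq_dvd {G : PowerSeries k} {M : ℕ} (h : PowerSeries.X ^ M ∣ G) :
    PowerSeries.X ^ (q * M) ∣ sq q G := by
  rw [PowerSeries.X_pow_dvd_iff] at h ⊢
  intro n hn
  rw [sq, PowerSeries.coeff_mk]
  split_ifs with h2
  · refine h _ ?_
    exact (Nat.div_lt_iff_lt_mul (Nat.pos_of_ne_zero hq0)).2 (by rwa [mul_comm] at hn)
  · rfl

end Sq

namespace Setup

private theorem rb_tendsto (P : k[X]) :
    Tendsto (fun d => S.φ (P.eval (S.t d))) atTop (nhds (S.φ (P.coeff 0))) := by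
  have h0 : Tendsto (fun d => S.φ (S.t d)) atTop (nhds 0) :=
    tendsto_zero_iff_norm_tendsto_zero.2 S.tendsto_t
  have h1 : Tendsto (fun d => (P.map S.φ).eval (S.φ (S.t d))) atTop
      (nhds ((P.map S.φ).eval 0)) :=
    ((P.map S.φ).continuous.tendsto 0).comp h0
  have e1 : (fun d => (P.map S.φ).eval (S.φ (S.t d))) = fun d => S.φ (P.eval (S.t d)) := by
    funext d
    rw [eval_map, eval₂_hom]
  have e2 : (P.map S.φ).eval 0 = S.φ (P.coeff 0) := by
    rw [← coeff_zero_eq_eval_zero, coeff_map]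
  rwa [e1, e2] at h1

private theorem rb_lower {P : k[X]} (hP : P ≠ 0) : ∃ c : ℝ, 0 < c ∧ ∀ᶠ d in atTop,
    c * ‖S.φ (S.t d)‖ ^ P.natTrailingDegree ≤ ‖S.φ (P.eval (S.t d))‖ := by
  have hdvd : X ^ P.natTrailingDegree ∣ P :=
    X_pow_dvd_iff.2 fun d hd => coeff_eq_zero_of_lt_natTrailingDegree hd
  obtain ⟨R, hR⟩ := hdvd
  have hR0 : R.coeff 0 ≠ 0 := by
    have h1 : P.coeff P.natTrailingDegree ≠ 0 := by
      have := trailingCoeff_nonzero_iff_nonzero.2 hP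
      exact this
    have h2 : P.coeff P.natTrailingDegree = R.coeff 0 := by
      conv_lhs => rw [hR]
      have h3 := coeff_X_pow_mul R P.natTrailingDegree 0
      rw [zero_add] at h3
      conv_lhs => rw [← hR]
      conv_rhs => rw [← h3]
      rw [← hR]
    rwa [h2] at h1
  have hpos : 0 < ‖S.φ (R.coeff 0)‖ :=
    norm_pos_iff.2 ((map_ne_zero S.φ).2 hR0)
  have h1 := (S.rb_tendsto R).norm
  have h2 : ∀ᶠ d in atTop, ‖S.φ (R.coeff 0)‖ / 2 < ‖S.φ (R.eval (S.t d))‖ :=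
    h1.eventually_const_lt (half_lt_self hpos)
  refine ⟨‖S.φ (R.coeff 0)‖ / 2, half_pos hpos, h2.mono fun d hd => ?_⟩
  have e : S.φ (P.eval (S.t d)) = S.φ (S.t d) ^ P.natTrailingDegree * S.φ (R.eval (S.t d)) := by
    conv_lhs => rw [hR]
    rw [eval_mul, eval_pow, eval_X, map_mul, map_pow]
  rw [e, norm_mul, norm_pow, mul_comm]
  exact mul_le_mul_of_nonneg_left hd.le (pow_nonneg (norm_nonneg _) _)

theorem poly_lower {P : k[X]} (hP : P ≠ 0) : ∃ (n : ℕ) (c : ℝ), 0 < c ∧ ∀ᶠ d in atTop,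
    c * ‖S.φ (S.t d)‖ ^ n ≤ ‖S.φ (P.eval (S.t d))‖ := by
  obtain ⟨c, hc, h⟩ := S.rb_lower hP
  exact ⟨_, c, hc, h⟩

theorem poly_ne {P : k[X]} (hP : P ≠ 0) : ∀ᶠ d in atTop, P.eval (S.t d) ≠ 0 := by
  obtain ⟨n, c, hc, h⟩ := S.poly_lower hP
  refine h.mono fun d hd h0 => ?_
  rw [h0, map_zero, norm_zero] at hd
  exact absurd hd (not_le.2 (mul_pos hc (pow_pos (S.norm_t_pos d) n)))

/-- a lower bound with an explicit exponent -/
private theorem rb_rep_lower {α : ℕ → L} {G : PowerSeries k} (h : S.Rep α G) {n : ℕ}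
    (hn : PowerSeries.coeff n G ≠ 0) :
    ∃ c : ℝ, 0 < c ∧ ∀ᶠ d in atTop, c * ‖S.φ (S.t d)‖ ^ n ≤ ‖α d‖ := by
  set P : k[X] := PowerSeries.trunc (n + 1) G with hPdef
  have hPn : P.coeff n ≠ 0 := by
    rw [hPdef, PowerSeries.coeff_trunc, if_pos (Nat.lt_succ_self n)]
    exact hn
  have hP : P ≠ 0 := by
    intro h0
    rw [h0, coeff_zero] at hPn
    exact hPn rfl
  have hm : P.natTrailingDegree ≤ n := natTrailingDegree_le_of_ne_zero hPn
  obtain ⟨c, hc, h1⟩ := S.rb_lower hP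
  obtain ⟨C, hC⟩ := h (n + 1)
  have h2 : Tendsto (fun d => max C 0 * ‖S.φ (S.t d)‖) atTop (nhds 0) := by
    have := S.tendsto_t.const_mul (max C 0)
    rwa [mul_zero] at this
  have h3 : ∀ᶠ d in atTop, max C 0 * ‖S.φ (S.t d)‖ < c / 2 :=
    h2.eventually_lt_const (half_pos hc)
  refine ⟨c / 2, half_pos hc, ?_⟩
  filter_upwards [h1, hC, h3] with d h1 hC h3
  have ht0 : 0 ≤ ‖S.φ (S.t d)‖ := norm_nonneg _
  have ht1 : ‖S.φ (S.t d)‖ ≤ 1 := (S.norm_t_lt d).le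
  have h4 : ‖S.φ (S.t d)‖ ^ n ≤ ‖S.φ (S.t d)‖ ^ P.natTrailingDegree :=
    pow_le_pow_of_le_one ht0 ht1 hm
  have h5 : c * ‖S.φ (S.t d)‖ ^ n ≤ ‖S.φ (P.eval (S.t d))‖ :=
    (mul_le_mul_of_nonneg_left h4 hc.le).trans h1
  have h6 : ‖α d - S.φ (P.eval (S.t d))‖ ≤ c / 2 * ‖S.φ (S.t d)‖ ^ n := by
    refine hC.trans ?_
    calc C * ‖S.φ (S.t d)‖ ^ (n + 1) ≤ max C 0 * ‖S.φ (S.t d)‖ ^ (n + 1) :=
          mul_le_mul_of_nonneg_right (le_max_left _ _) (pow_nonneg ht0 _)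
      _ = max C 0 * ‖S.φ (S.t d)‖ * ‖S.φ (S.t d)‖ ^ n := by rw [pow_succ]; ring
      _ ≤ c / 2 * ‖S.φ (S.t d)‖ ^ n := mul_le_mul_of_nonneg_right h3.le (pow_nonneg ht0 _)
  have h7 : ‖S.φ (P.eval (S.t d))‖ ≤ ‖α d‖ + ‖α d - S.φ (P.eval (S.t d))‖ := by
    have h8 := norm_sub_norm_le (S.φ (P.eval (S.t d))) (α d)
    rw [norm_sub_rev] at h8
    linarith
  linarith

theorem rep_lower {α : ℕ → L} {G : PowerSeries k} (h : S.Rep α G) (hG : G ≠ 0) :
    ∃ (n : ℕ) (c : ℝ), 0 < c ∧ ∀ᶠ d in atTop, c * ‖S.φ (S.t d)‖ ^ n ≤ ‖α d‖ := by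
  obtain ⟨n, hn⟩ : ∃ n, PowerSeries.coeff n G ≠ 0 := by
    by_contra hcon
    push Not at hcon
    exact hG (PowerSeries.ext fun n => by rw [hcon n, map_zero])
  obtain ⟨c, hc, h1⟩ := S.rb_rep_lower h hn
  exact ⟨n, c, hc, h1⟩

private theorem rb_sub {α β : ℕ → L} {G H : PowerSeries k} (h : S.Rep α G) (h' : S.Rep β H) :
    S.Rep (fun d => α d - β d) (G - H) := by
  have h1 := S.rep_add h (S.rep_mul (S.rep_C (-1)) h')
  have e1 : (fun d => α d + S.φ (-1) * β d) = fun d => α d - β d := by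
    funext d
    rw [map_neg, map_one]
    ring
  have e2 : G + PowerSeries.C (-1) * H = G - H := by
    rw [map_neg, map_one]
    ring
  rw [e1, e2] at h1
  exact h1

theorem rep_unique {α : ℕ → L} {G H : PowerSeries k} (h : S.Rep α G) (h' : S.Rep α H) :
    G = H := by
  by_contra hne
  obtain ⟨n, c, hc, h1⟩ := S.rep_lower (S.rb_sub h h') (sub_ne_zero.2 hne)
  obtain ⟨d, hd⟩ := h1.exists
  rw [sub_self, norm_zero] at hd
  exact absurd hd (not_le.2 (mul_pos hc (pow_pos (S.norm_t_pos d) n)))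

theorem rep_inv {α : ℕ → L} {G : PowerSeries k} (h : S.Rep α G)
    (hG : PowerSeries.constantCoeff G ≠ 0) : S.Rep (fun d => (α d)⁻¹) G⁻¹ := by
  intro M
  have hG0 : PowerSeries.coeff 0 G ≠ 0 := by
    rwa [PowerSeries.coeff_zero_eq_constantCoeff_apply]
  obtain ⟨c, hc, h1⟩ := S.rb_rep_lower h hG0
  set P : k[X] := PowerSeries.trunc M G⁻¹ with hPdef
  have h2 := S.rb_sub (S.rep_C 1) (S.rep_mul h (S.rep_poly P))
  have hdvd : PowerSeries.X ^ M ∣ PowerSeries.C (1 : k) - G * (P : PowerSeries k) := by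
    have e : PowerSeries.C (1 : k) - G * (P : PowerSeries k) =
        G * (G⁻¹ - (P : PowerSeries k)) := by
      rw [mul_sub, PowerSeries.mul_inv_cancel G hG, map_one]
    rw [e]
    refine Dvd.dvd.mul_left ?_ G
    rw [PowerSeries.X_pow_dvd_iff]
    intro m hm
    rw [map_sub, Polynomial.coeff_coe, hPdef, PowerSeries.coeff_trunc, if_pos hm, sub_self]
  obtain ⟨C, hC⟩ := S.rep_dvd h2 hdvd
  refine ⟨c⁻¹ * C, ?_⟩
  filter_upwards [h1, hC] with d h1 hC
  rw [pow_zero, mul_one] at h1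
  have hα : 0 < ‖α d‖ := hc.trans_le h1
  have hα0 : α d ≠ 0 := norm_pos_iff.1 hα
  have e : (α d)⁻¹ - S.φ (P.eval (S.t d)) =
      (α d)⁻¹ * (S.φ 1 - α d * S.φ (P.eval (S.t d))) := by
    rw [mul_sub, map_one, mul_one, ← mul_assoc, inv_mul_cancel₀ hα0, one_mul]
  rw [e, norm_mul, norm_inv, mul_assoc]
  exact mul_le_mul (inv_anti₀ hc h1) hC (norm_nonneg _) (inv_nonneg.2 hc.le)

theorem rep_shift {α : ℕ → L} {G : PowerSeries k} (h : S.Rep α G) :
    S.Rep (fun d => α (d + 1)) (sq q G) := by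
  intro M
  obtain ⟨C, hC⟩ := h M
  have hC1 : ∀ᶠ d in atTop, ‖α (d + 1) - S.φ ((PowerSeries.trunc M G).eval (S.t (d + 1)))‖ ≤
      C * ‖S.φ (S.t (d + 1))‖ ^ M := (tendsto_add_atTop_nat 1).eventually hC
  have hdvd : X ^ M ∣ expand k q (PowerSeries.trunc M G) - PowerSeries.trunc M (sq q G) := by
    rw [X_pow_dvd_iff]
    intro n hn
    rw [coeff_sub, coeff_expand (by have := S.two_le; omega), PowerSeries.coeff_trunc, PowerSeries.coeff_trunc,
      if_pos hn, if_pos (lt_of_le_of_lt (Nat.div_le_self n q) hn)]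
    unfold sq
    rw [PowerSeries.coeff_mk, sub_self]
  obtain ⟨C', hC'⟩ := S.poly_small hdvd
  refine ⟨max C 0 + C', ?_⟩
  filter_upwards [hC1] with d h1
  have ht0 : 0 ≤ ‖S.φ (S.t d)‖ := norm_nonneg _
  have e1 : (PowerSeries.trunc M G).eval (S.t (d + 1)) =
      (expand k q (PowerSeries.trunc M G)).eval (S.t d) := by
    rw [expand_eval, S.t_succ]
  have h2 : ‖α (d + 1) - S.φ ((PowerSeries.trunc M G).eval (S.t (d + 1)))‖ ≤
      max C 0 * ‖S.φ (S.t d)‖ ^ M := by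
    refine h1.trans ?_
    refine mul_le_mul (le_max_left _ _) ?_ (pow_nonneg (norm_nonneg _) _) (le_max_right _ _)
    exact pow_le_pow_left₀ (norm_nonneg _) (S.norm_t_succ_le d) M
  have h3 := hC' d
  rw [eval_sub, map_sub, ← e1] at h3
  have e2 : α (d + 1) - S.φ ((PowerSeries.trunc M (sq q G)).eval (S.t d)) =
      (α (d + 1) - S.φ ((PowerSeries.trunc M G).eval (S.t (d + 1)))) +
      (S.φ ((PowerSeries.trunc M G).eval (S.t (d + 1))) -
        S.φ ((PowerSeries.trunc M (sq q G)).eval (S.t d))) := by ring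
  show ‖α (d + 1) - S.φ ((PowerSeries.trunc M (sq q G)).eval (S.t d))‖ ≤ _
  rw [e2, add_mul]
  exact (norm_add_le _ _).trans (add_le_add h2 h3)

end Setup

end Pool.Agent.ZQ
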