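import Pool.Agent.Work.MP_43901b_nt.H.Pade
import Pool.Agent.Work.MP_43901b_nt.H.Liou
import Pool.Agent.Work.MP_43901b_nt.H.RepB

/-!
# Lift (M-L): small relations at t_d come from functional relations

Strong induction on `T.card` (for all `G`, `g`, `ρ`).

If all `G i`, `i ∈ T`, are 0, take `Q i = C (ρ i d)` for every `d`.
Otherwise let `i₁ ∈ T`, `G i₁ ≠ 0`; `rep_lower`: `c₁ ‖t_d‖^(k₀) ≤ ‖g_{i₁} d‖` for large `d`, `c₁ > 0`.
Choose `n` and `C₀` with `‖φ ρ_i(d)‖ ‖t_d‖^n ≤ C₀` for all `i ∈ T` and large `d` (`Gro`, take the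
maximum of the finitely many `n`; `‖t_d‖ ≤ 1`).  `pade` with `C = n + k₀ + 1`: `N`, `P`; let `i₀ ∈ T`
with `P i₀ ≠ 0`.  `Δ d = Σ_{i∈T} ρ_i(d) P_i(t_d)`.

Step 1: `Δ d = 0` for large `d`.  `φ(Δ d) g_{i₁} d = φ(P_{i₁}(t_d)) Σ φ(ρ_i d) g_i d +
Σ φ(ρ_i d) (φ(P_i(t_d)) g_{i₁} d - φ(P_{i₁}(t_d)) g_i d)`.  The first term is `Small`; the brackets are
represented by `P_i G_{i₁} - P_{i₁} G_i`, so are `O(‖t_d‖^(N+C))` (`rep_dvd`), and the second term is
`O(‖t_d‖^(N+C-n))`.  Hence `‖φ(Δ d)‖ c₁ ‖t_d‖^(k₀) ≤ C' ‖t_d‖^(N + k₀ + 1)`, so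
`‖φ(Δ d)‖ ≤ C'' ‖t_d‖^(N+1)`.  By `liouville` `Δ d = 0` or `c ‖t_d‖^N ≤ ‖φ (Δ d)‖ ≤ C'' ‖t_d‖^(N+1)`,
and the latter is impossible for large `d` as `‖t_d‖ → 0`.

Step 2: `T' = T.erase i₀`, `G'_i = P_{i₀} G_i - P_i G_{i₀}`,
`g'_i d = φ(P_{i₀}(t_d)) g_i d - φ(P_i(t_d)) g_{i₀} d`; `Rep (g'_i) (G'_i)`, and for large `d`
`Σ_{T'} φ(ρ_i) g'_i = φ(P_{i₀}(t_d)) Σ_{T'} φ(ρ_i) g_i - (Σ_{T'} φ(ρ_i P_i(t_d))) g_{i₀}
 = φ(P_{i₀}(t_d)) Σ_T φ(ρ_i) g_i` (as `Δ d = 0`), which is `Small`.  By the induction hypothesis, for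
large `d` there is `Q'` with `Σ_{T'} Q'_i G'_i = 0` and `ρ_i d = Q'_i(t_d)` for `i ∈ T'`.
Put `λ = (P_{i₀}(t_d))⁻¹` (`poly_ne`), `Q_i = C λ * P_{i₀} * Q'_i` for `i ∈ T'` and
`Q_{i₀} = - C λ * Σ_{T'} P_i Q'_i`: then `Σ_T Q_i G_i = C λ * Σ_{T'} Q'_i (P_{i₀} G_i - P_i G_{i₀}) = 0`,
`Q_i(t_d) = ρ_i d` for `i ∈ T'`, and `Q_{i₀}(t_d) = -λ Σ_{T'} P_i(t_d) ρ_i d = ρ_{i₀} d`.
-/

namespace Pool.Agent.ZQ

open Polynomial Finset Filter

variable {p q : ℕ} {k L : Type*} [Fact p.Prime] [Field k] [CharP k p] [NormedField L]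
  [CompleteSpace L] [IsUltrametricDist L] [CharP L p] (S : Setup p q k L)

namespace Setup

private theorem lif_sub {α β : ℕ → L} {G H : PowerSeries k} (h : S.Rep α G) (h' : S.Rep β H) :
    S.Rep (fun d => α d - β d) (G - H) := by
  have h1 := S.rep_add h (S.rep_mul (S.rep_C (-1)) h')
  have e1 : (fun d => α d + S.φ (-1) * β d) = fun d => α d - β d := by
    funext d
    rw [map_neg, map_one]
    ring
  have e2 : G + PowerSeries.C (-1) * H = G - H := by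
    rw [map_neg, map_one]
    ring
  rw [e1, e2] at h1
  exact h1

private theorem lif_small_congr {α β : ℕ → L} (h : S.Small α) (he : ∀ᶠ d in atTop, α d = β d) :
    S.Small β :=
  S.rep_small.1 (S.rep_congr (S.rep_small.2 h) he)

/-- a common constant -/
private theorem lif_max {ι : Type*} (T : Finset ι) (f : ι → ℕ → ℝ) (u : ℕ → ℝ)
    (hu : ∀ d, 0 ≤ u d) (h : ∀ i ∈ T, ∃ C : ℝ, ∀ᶠ d in atTop, f i d ≤ C * u d) :
    ∃ C : ℝ, 0 ≤ C ∧ ∀ᶠ d in atTop, ∀ i ∈ T, f i d ≤ C * u d := by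
  classical
  induction T using Finset.induction_on with
  | empty => exact ⟨0, le_rfl, Eventually.of_forall fun d i hi => absurd hi (Finset.notMem_empty i)⟩
  | insert a A _ ih =>
    obtain ⟨C, hC, h1⟩ := ih fun i hi => h i (Finset.mem_insert_of_mem hi)
    obtain ⟨C', h2⟩ := h a (Finset.mem_insert_self a A)
    refine ⟨max C C', hC.trans (le_max_left _ _), ?_⟩
    filter_upwards [h1, h2] with d h1 h2 i hi
    rcases Finset.mem_insert.1 hi with rfl | hi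
    · exact h2.trans (mul_le_mul_of_nonneg_right (le_max_right _ _) (hu d))
    · exact (h1 i hi).trans (mul_le_mul_of_nonneg_right (le_max_left _ _) (hu d))

/-- a common exponent for the growth -/
private theorem lif_gro {ι : Type*} (T : Finset ι) (ρ : ι → ℕ → k) (hr : ∀ i ∈ T, S.Gro (ρ i)) :
    ∃ (n : ℕ) (C : ℝ), 0 ≤ C ∧ ∀ᶠ d in atTop, ∀ i ∈ T,
      ‖S.φ (ρ i d)‖ * ‖S.φ (S.t d)‖ ^ n ≤ C := by
  classical
  induction T using Finset.induction_on with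
  | empty =>
    exact ⟨0, 0, le_rfl, Eventually.of_forall fun d i hi => absurd hi (Finset.notMem_empty i)⟩
  | insert a A _ ih =>
    obtain ⟨n, C, hC, h1⟩ := ih fun i hi => hr i (Finset.mem_insert_of_mem hi)
    obtain ⟨n', C', h2⟩ := hr a (Finset.mem_insert_self a A)
    refine ⟨max n n', max C C', hC.trans (le_max_left _ _), ?_⟩
    filter_upwards [h1, h2] with d h1 h2 i hi
    have ht0 : 0 ≤ ‖S.φ (S.t d)‖ := norm_nonneg _
    have ht1 : ‖S.φ (S.t d)‖ ≤ 1 := (S.norm_t_lt d).le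
    rcases Finset.mem_insert.1 hi with rfl | hi
    · exact (mul_le_mul_of_nonneg_left (pow_le_pow_of_le_one ht0 ht1 (le_max_right n n'))
        (norm_nonneg _)).trans (h2.trans (le_max_right _ _))
    · exact (mul_le_mul_of_nonneg_left (pow_le_pow_of_le_one ht0 ht1 (le_max_left n n'))
        (norm_nonneg _)).trans ((h1 i hi).trans (le_max_left _ _))

/-- Step 1 -/
private theorem lif_zero {ι : Type*} [DecidableEq ι] (T : Finset ι) (G : ι → PowerSeries k)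
    (g : ι → ℕ → L) (ρ : ι → ℕ → k) (hg : ∀ i ∈ T, S.Rep (g i) (G i))
    (hd : ∀ i ∈ T, S.Den (ρ i)) {n : ℕ} {C₀ : ℝ} (hC₀ : 0 ≤ C₀)
    (hgro : ∀ᶠ d in atTop, ∀ i ∈ T, ‖S.φ (ρ i d)‖ * ‖S.φ (S.t d)‖ ^ n ≤ C₀)
    (h : S.Small fun d => ∑ i ∈ T, S.φ (ρ i d) * g i d) {i₁ : ι} (hi₁ : i₁ ∈ T) {k₀ : ℕ}
    {c₁ : ℝ} (hc₁ : 0 < c₁)
    (hlow : ∀ᶠ d in atTop, c₁ * ‖S.φ (S.t d)‖ ^ k₀ ≤ ‖g i₁ d‖) {N : ℕ} {P : ι → k[X]}
    (hP : ∀ i ∈ T, (P i).natDegree ≤ N)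
    (hdvd : ∀ i ∈ T, PowerSeries.X ^ (N + (n + k₀ + 1)) ∣
        ((P i : PowerSeries k) * G i₁ - (P i₁ : PowerSeries k) * G i)) :
    ∀ᶠ d in atTop, (∑ i ∈ T, ρ i d * (P i).eval (S.t d)) = 0 := by
  obtain ⟨c, hc, hli⟩ := S.liouville T hd hP
  -- the brackets
  let br' : ι → ℕ → L := fun i d =>
    S.φ ((P i).eval (S.t d)) * g i₁ d - S.φ ((P i₁).eval (S.t d)) * g i d
  have hbr : ∀ i ∈ T, ∃ C : ℝ, ∀ᶠ d in atTop,
      ‖br' i d‖ ≤ C * ‖S.φ (S.t d)‖ ^ (N + (n + k₀ + 1)) := by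
    intro i hi
    exact S.rep_dvd (lif_sub S (S.rep_mul (S.rep_poly (P i)) (hg i₁ hi₁))
      (S.rep_mul (S.rep_poly (P i₁)) (hg i hi))) (hdvd i hi)
  obtain ⟨C', hC', hbr'⟩ := lif_max T (fun i d => ‖br' i d‖)
    (fun d => ‖S.φ (S.t d)‖ ^ (N + (n + k₀ + 1))) (fun d => by positivity) hbr
  obtain ⟨C₂, hC₂⟩ := S.poly_bdd (P i₁)
  obtain ⟨C₃, hC₃⟩ := S.small_mul h (β := fun d => S.φ ((P i₁).eval (S.t d)))
    ⟨C₂, Eventually.of_forall hC₂⟩ (N + k₀ + 1)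
  have hid : ∀ d, S.φ (∑ i ∈ T, ρ i d * (P i).eval (S.t d)) * g i₁ d =
      S.φ ((P i₁).eval (S.t d)) * (∑ i ∈ T, S.φ (ρ i d) * g i d) +
        ∑ i ∈ T, S.φ (ρ i d) * br' i d := by
    intro d
    rw [map_sum, Finset.sum_mul, Finset.mul_sum, ← Finset.sum_add_distrib]
    refine Finset.sum_congr rfl fun i _ => ?_
    show S.φ (ρ i d * (P i).eval (S.t d)) * g i₁ d = _ + S.φ (ρ i d) *
      (S.φ ((P i).eval (S.t d)) * g i₁ d - S.φ ((P i₁).eval (S.t d)) * g i d)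
    rw [map_mul]
    ring
  have htend : ∀ᶠ d in atTop, (max C₃ 0 + C' * C₀) / c₁ * ‖S.φ (S.t d)‖ < c := by
    have h1 := S.tendsto_t.const_mul ((max C₃ 0 + C' * C₀) / c₁)
    rw [mul_zero] at h1
    exact h1.eventually (gt_mem_nhds hc)
  filter_upwards [hC₃, hbr', hgro, hlow, htend] with d e1 e2 e3 e4 e5
  rcases hli d with h1 | h1
  · exact h1
  exfalso
  have ht : 0 < ‖S.φ (S.t d)‖ := S.norm_t_pos d
  set x := ‖S.φ (S.t d)‖ with hx
  set Δ := ∑ i ∈ T, ρ i d * (P i).eval (S.t d) with hΔ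
  have e6 : ‖∑ i ∈ T, S.φ (ρ i d) * br' i d‖ ≤ C' * C₀ * x ^ (N + k₀ + 1) := by
    refine IsUltrametricDist.norm_sum_le_of_forall_le_of_nonneg (by positivity) fun i hi => ?_
    rw [norm_mul]
    have e7 : x ^ (N + (n + k₀ + 1)) = x ^ n * x ^ (N + k₀ + 1) := by
      rw [← pow_add]
      congr 1
      ring
    calc ‖S.φ (ρ i d)‖ * ‖br' i d‖ ≤ ‖S.φ (ρ i d)‖ * (C' * x ^ (N + (n + k₀ + 1))) :=
          mul_le_mul_of_nonneg_left (e2 i hi) (norm_nonneg _)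
      _ = C' * (‖S.φ (ρ i d)‖ * x ^ n) * x ^ (N + k₀ + 1) := by rw [e7]; ring
      _ ≤ C' * C₀ * x ^ (N + k₀ + 1) := by
          refine mul_le_mul_of_nonneg_right (mul_le_mul_of_nonneg_left (e3 i hi) hC') ?_
          positivity
  have e8 : ‖S.φ Δ‖ * ‖g i₁ d‖ ≤ (max C₃ 0 + C' * C₀) * x ^ (N + k₀ + 1) := by
    rw [← norm_mul, hid d, add_mul]
    refine (norm_add_le _ _).trans (add_le_add (e1.trans ?_) e6)
    exact mul_le_mul_of_nonneg_right (le_max_left _ _) (by positivity)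
  have e9 : ‖S.φ Δ‖ * (c₁ * x ^ k₀) ≤ (max C₃ 0 + C' * C₀) * x ^ (N + k₀ + 1) :=
    (mul_le_mul_of_nonneg_left e4 (norm_nonneg _)).trans e8
  have e10 : c * x ^ N * (c₁ * x ^ k₀) ≤ (max C₃ 0 + C' * C₀) * x ^ (N + k₀ + 1) :=
    (mul_le_mul_of_nonneg_right h1 (by positivity)).trans e9
  have e11 : c * (c₁ * x ^ (N + k₀)) ≤ ((max C₃ 0 + C' * C₀) * x) * x ^ (N + k₀) := by
    calc c * (c₁ * x ^ (N + k₀)) = c * x ^ N * (c₁ * x ^ k₀) := by rw [pow_add]; ring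
      _ ≤ _ := e10
      _ = _ := by rw [pow_succ]; ring
  have e12 : c * c₁ ≤ (max C₃ 0 + C' * C₀) * x := by
    have hxp : 0 < x ^ (N + k₀) := pow_pos ht _
    rw [← mul_assoc] at e11
    exact le_of_mul_le_mul_right e11 hxp
  have e13 : c ≤ (max C₃ 0 + C' * C₀) / c₁ * x := by
    rw [div_mul_eq_mul_div, le_div_iff₀ hc₁]
    exact e12
  exact absurd e5 (not_lt.2 e13)

theorem lift {ι : Type*} [DecidableEq ι] (T : Finset ι) (G : ι → PowerSeries k)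
    (g : ι → ℕ → L) (ρ : ι → ℕ → k) (hg : ∀ i ∈ T, S.Rep (g i) (G i))
    (hd : ∀ i ∈ T, S.Den (ρ i)) (hr : ∀ i ∈ T, S.Gro (ρ i))
    (h : S.Small fun d => ∑ i ∈ T, S.φ (ρ i d) * g i d) :
    ∀ᶠ d in atTop, ∃ Q : ι → k[X], (∑ i ∈ T, (Q i : PowerSeries k) * G i = 0) ∧
      ∀ i ∈ T, ρ i d = (Q i).eval (S.t d) := by
  induction hcard : T.card using Nat.strong_induction_on generalizing T G g with
  | _ m ih =>
    by_cases hG0 : ∀ i ∈ T, G i = 0
    · refine Eventually.of_forall fun d => ⟨fun i => C (ρ i d), ?_, fun i _ => ?_⟩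
      · exact Finset.sum_eq_zero fun i hi => by rw [hG0 i hi, mul_zero]
      · rw [eval_C]
    push Not at hG0
    obtain ⟨i₁, hi₁, hG₁⟩ := hG0
    obtain ⟨k₀, c₁, hc₁, hlow⟩ := S.rep_lower (hg i₁ hi₁) hG₁
    obtain ⟨n, C₀, hC₀, hgro⟩ := lif_gro S T ρ hr
    obtain ⟨N, P, ⟨i₀, hi₀, hP₀⟩, hP, hdvd⟩ := pade T G hi₁ (n + k₀ + 1)
    have hΔ := lif_zero S T G g ρ hg hd hC₀ hgro h hi₁ hc₁ hlow hP hdvd
    let g' : ι → ℕ → L := fun i d =>
      S.φ ((P i₀).eval (S.t d)) * g i d - S.φ ((P i).eval (S.t d)) * g i₀ d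
    let G' : ι → PowerSeries k := fun i => (P i₀ : PowerSeries k) * G i - (P i : PowerSeries k) * G i₀
    have hg' : ∀ i ∈ T.erase i₀, S.Rep (g' i) (G' i) := by
      intro i hi
      exact lif_sub S (S.rep_mul (S.rep_poly (P i₀)) (hg i (Finset.mem_of_mem_erase hi)))
        (S.rep_mul (S.rep_poly (P i)) (hg i₀ hi₀))
    obtain ⟨C₂, hC₂⟩ := S.poly_bdd (P i₀)
    have hsm := S.small_mul h (β := fun d => S.φ ((P i₀).eval (S.t d)))
      ⟨C₂, Eventually.of_forall hC₂⟩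
    have hsm' : S.Small fun d => ∑ i ∈ T.erase i₀, S.φ (ρ i d) * g' i d := by
      refine lif_small_congr S hsm ?_
      filter_upwards [hΔ] with d hd0
      have e1 : ∑ i ∈ T, S.φ (ρ i d) * g' i d = ∑ i ∈ T.erase i₀, S.φ (ρ i d) * g' i d := by
        rw [← Finset.add_sum_erase T _ hi₀]
        show S.φ (ρ i₀ d) *
          (S.φ ((P i₀).eval (S.t d)) * g i₀ d - S.φ ((P i₀).eval (S.t d)) * g i₀ d) + _ = _
        rw [sub_self, mul_zero, zero_add]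
      have e2 : ∑ i ∈ T, S.φ (ρ i d) * g' i d =
          S.φ ((P i₀).eval (S.t d)) * (∑ i ∈ T, S.φ (ρ i d) * g i d) -
            S.φ (∑ i ∈ T, ρ i d * (P i).eval (S.t d)) * g i₀ d := by
        rw [map_sum, Finset.sum_mul, Finset.mul_sum, ← Finset.sum_sub_distrib]
        refine Finset.sum_congr rfl fun i _ => ?_
        show S.φ (ρ i d) *
          (S.φ ((P i₀).eval (S.t d)) * g i d - S.φ ((P i).eval (S.t d)) * g i₀ d) = _
        rw [map_mul]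
        ring
      rw [← e1, e2, hd0, map_zero, zero_mul, sub_zero]
    have hlt : (T.erase i₀).card < m := by
      rw [← hcard]
      exact Finset.card_erase_lt_of_mem hi₀
    have hih := ih _ hlt (T.erase i₀) G' g' hg'
      (fun i hi => hd i (Finset.mem_of_mem_erase hi))
      (fun i hi => hr i (Finset.mem_of_mem_erase hi)) hsm' rfl
    filter_upwards [hih, hΔ, S.poly_ne hP₀] with d h1 h2 h3
    obtain ⟨Q', hQ1, hQ2⟩ := h1
    set lam := ((P i₀).eval (S.t d))⁻¹ with hlam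
    refine ⟨fun i => if i = i₀ then -(C lam * ∑ j ∈ T.erase i₀, P j * Q' j)
      else C lam * P i₀ * Q' i, ?_, ?_⟩
    · rw [← Finset.add_sum_erase T _ hi₀]
      have e1 : ∑ i ∈ T.erase i₀, (((if i = i₀ then -(C lam * ∑ j ∈ T.erase i₀, P j * Q' j)
          else C lam * P i₀ * Q' i : k[X])) : PowerSeries k) * G i =
          ∑ i ∈ T.erase i₀, ((C lam * P i₀ * Q' i : k[X]) : PowerSeries k) * G i := by
        refine Finset.sum_congr rfl fun i hi => ?_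
        rw [if_neg (Finset.ne_of_mem_erase hi)]
      have e3 : ((∑ j ∈ T.erase i₀, P j * Q' j : k[X]) : PowerSeries k) =
          ∑ j ∈ T.erase i₀, (P j : PowerSeries k) * (Q' j : PowerSeries k) := by
        rw [← Polynomial.coeToPowerSeries.ringHom_apply, map_sum]
        refine Finset.sum_congr rfl fun j _ => ?_
        rw [map_mul]
        rfl
      show (((if i₀ = i₀ then -(C lam * ∑ j ∈ T.erase i₀, P j * Q' j)
          else C lam * P i₀ * Q' i₀ : k[X])) : PowerSeries k) * G i₀ + _ = 0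
      rw [e1, if_pos rfl, Polynomial.coe_neg, Polynomial.coe_mul, e3]
      have e4 : ∑ i ∈ T.erase i₀, ((C lam * P i₀ * Q' i : k[X]) : PowerSeries k) * G i =
          ((C lam : k[X]) : PowerSeries k) *
            ∑ i ∈ T.erase i₀, (P i₀ : PowerSeries k) * (Q' i : PowerSeries k) * G i := by
        rw [Finset.mul_sum]
        refine Finset.sum_congr rfl fun i _ => ?_
        rw [Polynomial.coe_mul, Polynomial.coe_mul]
        ring
      rw [e4]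
      have e5 : (∑ i ∈ T.erase i₀, (P i₀ : PowerSeries k) * (Q' i : PowerSeries k) * G i) -
          (∑ j ∈ T.erase i₀, (P j : PowerSeries k) * (Q' j : PowerSeries k)) * G i₀ = 0 := by
        rw [← hQ1, Finset.sum_mul, ← Finset.sum_sub_distrib]
        refine Finset.sum_congr rfl fun i _ => ?_
        show _ = (Q' i : PowerSeries k) *
          ((P i₀ : PowerSeries k) * G i - (P i : PowerSeries k) * G i₀)
        ring
      linear_combination ((C lam : k[X]) : PowerSeries k) * e5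
    · intro i hi
      by_cases hii : i = i₀
      · subst hii
        show ρ i d = (if i = i then -(C lam * ∑ j ∈ T.erase i, P j * Q' j)
          else C lam * P i * Q' i).eval (S.t d)
        rw [if_pos rfl, eval_neg, eval_mul, eval_C, eval_finsetSum]
        rw [← Finset.add_sum_erase T _ hi] at h2
        have e1 : ∑ j ∈ T.erase i, (P j * Q' j).eval (S.t d) =
            ∑ j ∈ T.erase i, ρ j d * (P j).eval (S.t d) := by
          refine Finset.sum_congr rfl fun j hj => ?_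
          rw [eval_mul, hQ2 j hj, mul_comm]
        rw [e1]
        have e2 : lam * (P i).eval (S.t d) = 1 := inv_mul_cancel₀ h3
        linear_combination (-ρ i d) * e2 + lam * h2
      · show ρ i d = (if i = i₀ then -(C lam * ∑ j ∈ T.erase i₀, P j * Q' j)
          else C lam * P i₀ * Q' i).eval (S.t d)
        rw [if_neg hii, eval_mul, eval_mul, eval_C, inv_mul_cancel₀ h3, one_mul]
        exact hQ2 i (Finset.mem_erase.2 ⟨hii, hi⟩)

end Setup

end Pool.Agent.ZQ
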