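import Mathlib

/-!
# MDefs: multizeta values of `F[t]` for a finite field `F`

`A = F[t]`, `K = F(t)`, and `K_∞ = F((1/t))` is Mathlib's completion
`RatFunc.CompletionAtInfty` of `K` at the place at infinity.
-/

namespace Pool.Agent.ZQ

open Polynomial

noncomputable instance instDecEqRatFunc (F : Type*) [Field F] : DecidableEq (RatFunc F) :=
  Classical.decEq _

/-- `K_∞ = F((1/t))`, the completion of `F(t)` at infinity -/
abbrev Kinf (F : Type*) [Field F] : Type _ := RatFunc.CompletionAtInfty F

/-- the tuples `(a_1, ..., a_r)` of monic polynomials over `F` with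
`deg a_1 > deg a_2 > ... > deg a_r` -/
def Idx (F : Type*) [Field F] (r : ℕ) : Type _ :=
  {a : Fin r → F[X] // (∀ i, (a i).Monic) ∧ StrictAnti fun i => (a i).natDegree}

/-- the element of `K_∞` defined by a polynomial -/
noncomputable def toKinf {F : Type*} [Field F] (a : F[X]) : Kinf F :=
  algebraMap (RatFunc F) (Kinf F) (algebraMap F[X] (RatFunc F) a)

/-- the multizeta value `ζ(s_1, ..., s_r)`, the sum of `1/(a_1^{s_1} ... a_r^{s_r})` over all monic
`a_i` with `deg a_1 > ... > deg a_r` -/
noncomputable def mzv (F : Type*) [Field F] (s : List ℕ) : Kinf F :=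
  ∑' a : Idx F s.length, ∏ i, ((toKinf (a.1 i))⁻¹) ^ s.get i

/-- `s` is zeta-like over `F[t]`: the depth is at least 2 and `ζ(s)/ζ(weight)` lies in `F(t)` -/
def ZetaLike (F : Type*) [Field F] (s : List ℕ) : Prop :=
  2 ≤ s.length ∧ ∃ c : RatFunc F, mzv F s / mzv F [s.sum] = algebraMap _ (Kinf F) c

end Pool.Agent.ZQ
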