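import Pool.Agent.Work.MP_43901b_nt.H.Indep
import Pool.Agent.Work.MP_43901b_nt.H.Lift
import Pool.Agent.Work.MP_43901b_nt.H.DenSS

/-!
# MainT: a zeta-like tuple has telescoping polynomials
-/

namespace Pool.Agent.ZQ

open Polynomial Finset Filter

variable {p q : ℕ} {k L : Type*} [Fact p.Prime] [Field k] [CharP k p] [NormedField L]
  [CompleteSpace L] [IsUltrametricDist L] [CharP L p] (S : Setup p q k L)

namespace Setup

theorem NN_take_le {u : List ℕ} (hu : ∀ a ∈ u, 1 ≤ a) (hne : u ≠ []) (j : ℕ) :
    NN q (u.take j).reverse ≤ (u.sum - 1) / (q - 1) := by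
  rcases Nat.eq_zero_or_pos (q - 1) with h0 | h0
  · have : ∀ l : List ℕ, NN q l = 0 := by
      intro l
      induction l with
      | nil => rw [NN]
      | cons a l ih => rw [NN, h0, Nat.div_zero, ih]
    rw [this]
    exact Nat.zero_le _
  · have h1 : NN q (u.take j).reverse ≤ NN q (u.take (max j u.length)).reverse :=
      NN_take_mono u (le_max_left _ _)
    rw [List.take_of_length_le (le_max_right j u.length)] at h1
    have h2 : ∀ a ∈ u.reverse, 1 ≤ a := fun a ha => hu a (List.mem_reverse.1 ha)
    have h3 := NN_le q h2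
    rw [List.length_reverse, List.sum_reverse] at h3
    have h4 : 0 < u.length := List.length_pos_iff.2 hne
    refine h1.trans ?_
    rw [Nat.le_div_iff_mul_le h0, mul_comm]
    omega

theorem zeta_single (w : ℕ) (hw : 1 ≤ w) (d : ℕ) :
    S.zeta [w] = S.φ (SS q S.D [w] d) + S.zg [w] d := by
  have h1 : ∀ a ∈ [w], 1 ≤ a := fun a ha => by rw [List.mem_singleton.1 ha]; exact hw
  have h3 := S.split h1 d
  have h5 : S.zg [] d = 1 := by rw [zg]
  simp only [List.length_singleton, Finset.sum_range_succ, Finset.sum_range_zero, zero_add,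
    List.take_zero, List.reverse_nil, List.drop_zero, h5, one_mul, List.take_succ_cons,
    List.take_nil, List.drop_succ_cons, List.drop_nil, SS_nil, map_one, mul_one,
    List.reverse_singleton] at h3
  rw [← h3]

theorem main (hN : NoTop q S.D) {a : ℕ} {s : List ℕ} (ha : 1 ≤ a) (hs : ∀ b ∈ s, 1 ≤ b) {c : k}
    (h : S.zeta (a :: s) = S.φ c * S.zeta [a + s.sum]) : ∃ R R' : k[X], Ch q S.D s R' ∧
      R.comp (vp q S.D) = bet S.D ^ (a + s.sum) *
        (R + (PP q S.D a * R' - C c * PP q S.D (a + s.sum))) ∧
      (q - 1) * R.natDegree < a + s.sum := by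
  classical
  obtain ⟨u, hu⟩ : ∃ u, u = a :: s := ⟨_, rfl⟩
  obtain ⟨w, hw⟩ : ∃ w, w = a + s.sum := ⟨_, rfl⟩
  have huw : u.sum = w := by rw [hu, hw, List.sum_cons]
  have hw1 : 1 ≤ w := by omega
  have hup : ∀ b ∈ u, 1 ≤ b := by
    intro b hb
    rw [hu] at hb
    rcases List.mem_cons.1 hb with rfl | hb
    · exact ha
    · exact hs b hb
  have hune : u ≠ [] := by rw [hu]; exact List.cons_ne_nil _ _
  have hwp : ∀ b ∈ [w], 1 ≤ b := fun b hb => by rw [List.mem_singleton.1 hb]; exact hw1
  rw [← hu, ← hw] at h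
  obtain ⟨r, hr⟩ : ∃ r, r = u.length := ⟨_, rfl⟩
  have hr1 : 1 ≤ r := by
    rw [hr]
    exact List.length_pos_iff.2 hune
  obtain ⟨Nw, hNw⟩ : ∃ Nw, Nw = (w - 1) / (q - 1) := ⟨_, rfl⟩
  have hNle : ∀ j, NN q (u.take j).reverse ≤ Nw := by
    intro j
    rw [hNw, ← huw]
    exact NN_take_le hup hune j
  have hNN1 : NN q [w] = Nw := by rw [NN, NN, hNw, add_zero]
  -- the data
  let G : ℕ → PowerSeries k := fun j =>
    if j ≤ r then ((X ^ (Nw - NN q (u.take j).reverse) : k[X]) : PowerSeries k) *
      S.Gam (u.take j).reverse else S.Gam [w]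
  let g : ℕ → ℕ → L := fun j d =>
    if j ≤ r then S.φ ((X ^ (Nw - NN q (u.take j).reverse) : k[X]).eval (S.t d)) *
      S.gl (u.take j).reverse d else S.gl [w] d
  let Z0 : ℕ → k := fun d => SS q S.D u d - c * SS q S.D [w] d
  let ρ : ℕ → ℕ → k := fun j d =>
    if j = 0 then Z0 d * ell q S.D d ^ w else
      if j ≤ r then SS q S.D (u.drop j) d * ell q S.D d ^ (u.drop j).sum else -c
  have hlift := S.lift (range (r + 2)) G g ρ
    (by
      intro j _
      by_cases hj : j ≤ r
      · simp only [G, g, if_pos hj]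
        exact S.rep_mul (S.rep_poly _) (S.gam_rep (take_pos hup j))
      · simp only [G, g, if_neg hj]
        exact S.gam_rep hwp)
    (by
      intro j _
      by_cases hj0 : j = 0
      · simp only [ρ, if_pos hj0, Z0]
        have h1 := S.den_SS u
        have h2 := S.den_mul (S.den_const (-c)) (S.den_SS [w])
        rw [huw] at h1
        rw [List.sum_singleton] at h2
        have h3 := S.den_add h1 h2
        refine (congrArg S.Den (funext fun d => ?_)).mp h3
        ring
      · by_cases hj : j ≤ r
        · simp only [ρ, if_neg hj0, if_pos hj]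
          exact S.den_SS _
        · simp only [ρ, if_neg hj0, if_neg hj]
          exact S.den_const _)
    (by
      intro j _
      by_cases hj0 : j = 0
      · simp only [ρ, if_pos hj0]
        refine S.gro_bdd w (C := 1 + ‖S.φ c‖) fun d => ?_
        simp only [Z0]
        rw [map_sub, map_mul]
        refine (norm_sub_le _ _).trans (add_le_add (S.norm_SS_le hup d) ?_)
        rw [norm_mul]
        exact mul_le_of_le_one_right (norm_nonneg _) (S.norm_SS_le hwp d)
      · by_cases hj : j ≤ r
        · simp only [ρ, if_neg hj0, if_pos hj]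
          exact S.gro_bdd _ (C := 1) fun d => S.norm_SS_le (drop_pos hup j) d
        · simp only [ρ, if_neg hj0, if_neg hj]
          exact S.gro_const _)
    (by
      intro M
      refine ⟨0, Eventually.of_forall fun d => ?_⟩
      have hterm : ∀ j ∈ range (r + 1),
          S.φ (ρ j d) * g j d = S.φ (S.t d ^ Nw * ell q S.D d ^ w) *
            (S.zg (u.take j).reverse d * S.φ (SS q S.D (u.drop j) d)) -
            (if j = 0 then S.φ (S.t d ^ Nw * ell q S.D d ^ w) *
              (S.φ c * S.φ (SS q S.D [w] d)) else 0) := by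
        intro j hj
        rw [Finset.mem_range] at hj
        have hj' : j ≤ r := by omega
        have e1 : S.t d ^ Nw = S.t d ^ (Nw - NN q (u.take j).reverse) *
            S.t d ^ NN q (u.take j).reverse := by
          rw [← pow_add, Nat.sub_add_cancel (hNle j)]
        have e2 := sum_take_drop u j
        rw [huw] at e2
        simp only [g, if_pos hj', eval_pow, eval_X, gl, nl]
        by_cases hj0 : j = 0
        · subst hj0
          simp only [ρ, if_pos rfl, Z0, List.take_zero, List.reverse_nil, List.drop_zero,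
            List.sum_nil, pow_zero, mul_one, NN, Nat.sub_zero, map_one, zg, map_sub, map_mul,
            map_pow]
          simp only [if_true]
          ring
        · simp only [ρ, if_neg hj0, if_pos hj', sub_zero, e1, ← e2, map_mul, map_pow]
          rw [pow_add (S.φ (ell q S.D d))]
          ring
      have hlast : S.φ (ρ (r + 1) d) * g (r + 1) d =
          -(S.φ (S.t d ^ Nw * ell q S.D d ^ w) * (S.φ c * S.zg [w] d)) := by
        simp only [ρ, g, if_neg (Nat.succ_ne_zero r), if_neg (show ¬ r + 1 ≤ r by omega), gl, nl,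
          hNN1, List.sum_singleton, map_neg]
        ring
      have hsum0 : ∑ j ∈ range (r + 1), (if j = 0 then S.φ (S.t d ^ Nw * ell q S.D d ^ w) *
              (S.φ c * S.φ (SS q S.D [w] d)) else 0) = S.φ (S.t d ^ Nw * ell q S.D d ^ w) *
              (S.φ c * S.φ (SS q S.D [w] d)) := by
        rw [Finset.sum_ite_eq' (range (r + 1)) 0, if_pos (Finset.mem_range.2 (by omega))]
      have hzero : ∑ j ∈ range (r + 2), S.φ (ρ j d) * g j d = 0 := by
        rw [Finset.sum_range_succ, hlast, Finset.sum_congr rfl hterm, Finset.sum_sub_distrib,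
          hsum0, ← Finset.mul_sum, hr, S.split hup d, h, S.zeta_single w hw1 d]
        ring
      show ‖∑ j ∈ range (r + 2), S.φ (ρ j d) * g j d‖ ≤ _
      rw [hzero, norm_zero, zero_mul])
  -- relations
  have hrel : ∀ Q : ℕ → k[X], ∑ i ∈ range (r + 2), (Q i : PowerSeries k) * G i = 0 →
      (∑ j ∈ range (r + 1), ((Q j * X ^ (Nw - NN q (u.take j).reverse) : k[X]) : PowerSeries k) *
        S.Gam (u.take j).reverse) + (Q (r + 1) : PowerSeries k) * S.Gam [w] = 0 := by
    intro Q hQ
    rw [← hQ, Finset.sum_range_succ _ (r + 1)]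
    congr 1
    · refine Finset.sum_congr rfl fun j hj => ?_
      rw [Finset.mem_range] at hj
      simp only [G, if_pos (show j ≤ r by omega), Polynomial.coe_mul]
      ring
    · simp only [G, if_neg (show ¬ r + 1 ≤ r by omega)]
  have hind := S.indep hN hup
  rw [← hr] at hind
  obtain ⟨d₁, P, hP, hPρ⟩ := hlift.exists
  have hPr : P r ≠ 0 := by
    intro h0
    have h1 := hPρ r (by rw [Finset.mem_range]; omega)
    rw [h0, eval_zero] at h1
    simp only [ρ, if_neg (show r ≠ 0 by omega), if_pos (le_refl r)] at h1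
    rw [hr, List.drop_length] at h1
    simp [SS] at h1
  have hXne : ∀ n : ℕ, (X ^ n : k[X]) ≠ 0 := fun n => pow_ne_zero _ X_ne_zero
  have hcross : ∀ Q : ℕ → k[X], ∑ i ∈ range (r + 2), (Q i : PowerSeries k) * G i = 0 →
      ∀ j ≤ r, Q (r + 1) * P j = P (r + 1) * Q j := by
    intro Q hQ j hj
    have h1 := hrel Q hQ
    have h2 := hrel P hP
    have h3 : ∑ j ∈ range (r + 1), (((Q (r + 1) * P j - P (r + 1) * Q j) *
        X ^ (Nw - NN q (u.take j).reverse) : k[X]) : PowerSeries k) *
        S.Gam (u.take j).reverse = 0 := by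
      have h4 : ∑ j ∈ range (r + 1), (((Q (r + 1) * P j - P (r + 1) * Q j) *
          X ^ (Nw - NN q (u.take j).reverse) : k[X]) : PowerSeries k) *
          S.Gam (u.take j).reverse =
          (Q (r + 1) : PowerSeries k) * (∑ j ∈ range (r + 1), ((P j *
            X ^ (Nw - NN q (u.take j).reverse) : k[X]) : PowerSeries k) *
            S.Gam (u.take j).reverse) -
          (P (r + 1) : PowerSeries k) * (∑ j ∈ range (r + 1), ((Q j *
            X ^ (Nw - NN q (u.take j).reverse) : k[X]) : PowerSeries k) *
            S.Gam (u.take j).reverse) := by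
        rw [Finset.mul_sum, Finset.mul_sum, ← Finset.sum_sub_distrib]
        refine Finset.sum_congr rfl fun i _ => ?_
        push_cast
        ring
      rw [h4]
      linear_combination (Q (r + 1) : PowerSeries k) * h2 - (P (r + 1) : PowerSeries k) * h1
    have h6 := hind _ h3 j hj
    rcases mul_eq_zero.1 h6 with h7 | h7
    · exact sub_eq_zero.mp h7
    · exact absurd h7 (hXne _)
  have hP1 : P (r + 1) ≠ 0 := by
    intro h0
    have h2 := hrel P hP
    rw [h0, Polynomial.coe_zero, zero_mul, add_zero] at h2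
    have h6 := hind _ h2 r (le_refl r)
    rcases mul_eq_zero.1 h6 with h7 | h7
    · exact hPr h7
    · exact absurd h7 (hXne _)
  -- the values
  have hval : ∀ᶠ d in atTop, ∀ j ≤ r,
      (P (r + 1)).eval (S.t d) * ρ j d = -c * (P j).eval (S.t d) := by
    filter_upwards [hlift] with d hd j hj
    obtain ⟨Q, hQ, hQρ⟩ := hd
    have h1 := hQρ j (by rw [Finset.mem_range]; omega)
    have h2 := hQρ (r + 1) (by rw [Finset.mem_range]; omega)
    have h3 : ρ (r + 1) d = -c := by
      simp only [ρ, if_neg (Nat.succ_ne_zero r), if_neg (show ¬ r + 1 ≤ r by omega)]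
    rw [h3] at h2
    rw [h1, h2, ← eval_mul, ← eval_mul, hcross Q hQ j hj]
  have hρr : ∀ d, ρ r d = 1 := by
    intro d
    simp only [ρ, if_neg (show r ≠ 0 by omega), if_pos (le_refl r)]
    rw [hr, List.drop_length]
    simp [SS]
  have hr1' : ∀ᶠ d in atTop, (P (r + 1)).eval (S.t d) = -c * (P r).eval (S.t d) := by
    filter_upwards [hval] with d hd
    have h1 := hd r (le_refl r)
    rwa [hρr, mul_one] at h1
  have hc : c ≠ 0 := by
    intro h0
    obtain ⟨d, hd1, hd2⟩ := (hr1'.and (S.poly_ne hP1)).exists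
    rw [h0, neg_zero, zero_mul] at hd1
    exact hd2 hd1
  have hfin : ∀ j ≤ r, ∀ᶠ d in atTop, ρ j d * (P r).eval (S.t d) = (P j).eval (S.t d) := by
    intro j hj
    filter_upwards [hval, hr1'] with d hd hd1
    have h1 := hd j hj
    rw [hd1, mul_assoc] at h1
    have h2 := mul_left_cancel₀ (neg_ne_zero.2 hc) h1
    rw [mul_comm]
    exact h2
  -- downward induction
  have hdesc := S.desc hN hup 1 (Z := fun j d => SS q S.D (u.drop j) d) (M := fun _ => P r)
    (N := P) (fun _ => hPr)
    (Eventually.of_forall fun d => by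
      show SS q S.D (u.drop u.length) d = 1
      rw [List.drop_length, SS_nil])
    (by
      intro j hj1 hj
      filter_upwards [hfin j (by omega)] with d hd
      simp only [ρ, if_neg (show j ≠ 0 by omega), if_pos (show j ≤ r by omega)] at hd
      exact hd)
    (by
      intro j hj1 hj
      refine Eventually.of_forall fun d => ?_
      show SS q S.D (u.drop j) (d + 1) = SS q S.D (u.drop j) d +
        ps q S.D d u[j] * SS q S.D (u.drop (j + 1)) d
      rw [List.drop_eq_getElem_cons hj, SS_succ])
  obtain ⟨R', hR', -⟩ := hdesc 1 le_rfl (by omega)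
  have hdrop1 : u.drop 1 = s := by rw [hu, List.drop_succ_cons, List.drop_zero]
  rw [hdrop1] at hR'
  have hR'sum := hR'.sum S.hq S.one_le_f S.br_ne' hs
  -- the top
  obtain ⟨Φ, hfe, hΦ⟩ := S.rat_tel (W := w)
    (G := PP q S.D a * R' - C c * PP q S.D w) (Z := Z0) (M := P r) (N := P 0) hPr
    (by
      filter_upwards [hfin 0 (Nat.zero_le r)] with d hd
      simp only [ρ, if_true] at hd
      exact hd)
    (by
      refine Eventually.of_forall fun d => ?_
      have e1 : Z0 (d + 1) - Z0 d = ps q S.D d a * SS q S.D s d - c * ps q S.D d w := by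
        simp only [Z0]
        rw [hu, SS_succ, SS_succ, SS_nil]
        ring
      have e2 := ps_mul_ell S.D S.br_ne' d a
      have e3 := ps_mul_ell S.D S.br_ne' d w
      have e4 : ell q S.D d ^ w = ell q S.D d ^ a * ell q S.D d ^ s.sum := by
        rw [← pow_add, hw]
      rw [e1, eval_sub, eval_mul, eval_mul, eval_C, ← hR'sum d, ← e2, ← e3]
      rw [sub_mul]
      congr 1
      · rw [e4]
        ring
      · ring)
  have hdeg1 : (q - 1) * Φ.natDegree ≤ w := by
    refine natDegree_le_of_fe S.two_le S.D_ne hfe ?_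
    have e1 : (q - 1) * (PP q S.D a * R').natDegree ≤ w := by
      calc (q - 1) * (PP q S.D a * R').natDegree
          ≤ (q - 1) * ((PP q S.D a).natDegree + R'.natDegree) :=
            Nat.mul_le_mul_left _ natDegree_mul_le
        _ ≤ (a - 1) + s.sum := by
            rw [mul_add, hR'.natDegree]
            exact Nat.add_le_add_right (PP_natDegree S.two_le S.D a) _
        _ ≤ w := by omega
    have e2 : (q - 1) * (C c * PP q S.D w).natDegree ≤ w := by
      rw [natDegree_C_mul hc]
      exact (PP_natDegree S.two_le S.D w).trans (Nat.sub_le _ _)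
    have e3 : (PP q S.D a * R' - C c * PP q S.D w).natDegree ≤
        max (PP q S.D a * R').natDegree (C c * PP q S.D w).natDegree := natDegree_sub_le _ _
    rcases le_max_iff.1 e3 with e4 | e4
    · exact (Nat.mul_le_mul_left _ e4).trans e1
    · exact (Nat.mul_le_mul_left _ e4).trans e2
  have hlim : Tendsto (fun d => S.φ (Z0 d)) atTop (nhds 0) := by
    have h1 := (S.tendsto_SS hup).sub ((S.tendsto_SS hwp).const_mul (S.φ c))
    rw [h, sub_self] at h1
    refine h1.congr fun d => ?_
    simp only [Z0]
    rw [map_sub, map_mul]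
  refine ⟨Φ, R', hR', ?_, ?_⟩
  · rw [← hw]
    exact hfe
  · rw [← hw]
    exact S.natDegree_lt_of_tendsto hw1 hdeg1 hΦ hlim

end Setup

end Pool.Agent.ZQ
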