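import Pool.Agent.Work.MP_43901b_nt.H.Tup
import Pool.Agent.Work.MP_43901b_nt.H.Zg
import Pool.Agent.Work.MP_43901b_nt.H.MDefs

/-!
# MzvSum: the multizeta series converges to zeta s
-/

namespace Pool.Agent.ZQ

open Polynomial Finset Filter

variable {p q : ℕ} {k L : Type*} [Fact p.Prime] [Field k] [CharP k p] [NormedField L]
  [CompleteSpace L] [IsUltrametricDist L] [CharP L p] (S : Setup p q k L)
  {F : Type*} [Field F] [Fintype F] (hF : Fintype.card F = q) {ψ : F[X] →+* k}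
  (hψ : ψ X = S.θ)

namespace Setup

include hF in
private theorem norm_const_le (c : F) : ‖S.φ (ψ (C c))‖ ≤ 1 := by
  have hcq : c ^ q = c := by
    rw [← hF]
    exact FiniteField.pow_card c
  have h1 : (S.φ (ψ (C c))) ^ q = S.φ (ψ (C c)) := by
    rw [← map_pow, ← map_pow, ← C_pow, hcq]
  by_contra hcon
  push Not at hcon
  have h2 : ‖S.φ (ψ (C c))‖ ^ q = ‖S.φ (ψ (C c))‖ := by rw [← norm_pow, h1]
  have h3 : ‖S.φ (ψ (C c))‖ ^ 1 < ‖S.φ (ψ (C c))‖ ^ q :=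
    pow_lt_pow_right₀ hcon (by have := S.two_le; omega)
  rw [h2, pow_one] at h3
  exact lt_irrefl _ h3

include hF in
private theorem norm_const_eq {c : F} (hc : c ≠ 0) : ‖S.φ (ψ (C c))‖ = 1 := by
  refine le_antisymm (S.norm_const_le hF c) ?_
  have h1 := S.norm_const_le hF (ψ := ψ) c⁻¹
  have h2 : S.φ (ψ (C c)) * S.φ (ψ (C c⁻¹)) = 1 := by
    rw [← map_mul, ← map_mul, ← C_mul, mul_inv_cancel₀ hc, C_1, map_one, map_one]
  have h3 : ‖S.φ (ψ (C c))‖ * ‖S.φ (ψ (C c⁻¹))‖ = 1 := by rw [← norm_mul, h2, norm_one]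
  calc 1 = ‖S.φ (ψ (C c))‖ * ‖S.φ (ψ (C c⁻¹))‖ := h3.symm
    _ ≤ ‖S.φ (ψ (C c))‖ * 1 := mul_le_mul_of_nonneg_left h1 (norm_nonneg _)
    _ = _ := mul_one _

include hF hψ

theorem norm_psi {P : F[X]} (hP : P ≠ 0) :
    ‖S.φ (ψ P)‖ = ‖S.φ S.θ‖ ^ P.natDegree := by
  have hY : 1 < ‖S.φ S.θ‖ := S.hθ
  have hY0 : 0 < ‖S.φ S.θ‖ := zero_lt_one.trans hY
  have hterm : ∀ i, ‖S.φ (ψ (C (P.coeff i) * X ^ i))‖ ≤ ‖S.φ S.θ‖ ^ i := by
    intro i
    rw [map_mul, map_mul, norm_mul, map_pow, map_pow, norm_pow, hψ]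
    exact mul_le_of_le_one_left (pow_nonneg hY0.le i) (S.norm_const_le hF _)
  have hlead : P.coeff P.natDegree ≠ 0 := by
    rw [coeff_natDegree]
    exact leadingCoeff_ne_zero.2 hP
  have hsmall : ‖∑ i ∈ range P.natDegree, S.φ (ψ (C (P.coeff i) * X ^ i))‖ <
      ‖S.φ S.θ‖ ^ P.natDegree := by
    rcases Nat.eq_zero_or_pos P.natDegree with h0 | h0
    · rw [h0, Finset.sum_range_zero, norm_zero, pow_zero]
      exact zero_lt_one
    · obtain ⟨k', hk'⟩ : ∃ k', P.natDegree = k' + 1 := ⟨P.natDegree - 1, by omega⟩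
      rw [hk']
      refine lt_of_le_of_lt (IsUltrametricDist.norm_sum_le_of_forall_le_of_nonneg
        (pow_nonneg hY0.le k') fun i hi => ?_) (pow_lt_pow_right₀ hY (Nat.lt_succ_self k'))
      rw [Finset.mem_range] at hi
      exact (hterm i).trans (pow_le_pow_right₀ hY.le (by omega))
  have hbig : ‖S.φ (ψ (C (P.coeff P.natDegree) * X ^ P.natDegree))‖ =
      ‖S.φ S.θ‖ ^ P.natDegree := by
    rw [map_mul, map_mul, norm_mul, S.norm_const_eq hF hlead, one_mul, map_pow, map_pow,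
      norm_pow, hψ]
  have hsum : S.φ (ψ P) = (∑ i ∈ range P.natDegree, S.φ (ψ (C (P.coeff i) * X ^ i))) +
      S.φ (ψ (C (P.coeff P.natDegree) * X ^ P.natDegree)) := by
    rw [← Finset.sum_range_succ (fun i => S.φ (ψ (C (P.coeff i) * X ^ i))), ← map_sum, ← map_sum,
      ← as_sum_range_C_mul_X_pow]
  rw [hsum, IsUltrametricDist.norm_add_eq_max_of_norm_ne_norm (by rw [hbig]; exact hsmall.ne),
    hbig, max_eq_right hsmall.le]

theorem psi_inj : Function.Injective ψ := by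
  rw [injective_iff_map_eq_zero]
  intro P h
  by_contra hP
  have h1 := S.norm_psi hF hψ hP
  rw [h, map_zero, norm_zero] at h1
  have h2 : 0 < ‖S.φ S.θ‖ ^ P.natDegree := pow_pos (zero_lt_one.trans S.hθ) _
  rw [← h1] at h2
  exact lt_irrefl _ h2

private theorem norm_f_le {s : List ℕ} (hs : ∀ a ∈ s, 1 ≤ a) (a : Idx F s.length)
    (i : Fin s.length) :
    ‖∏ i, ((S.φ (ψ (a.1 i)))⁻¹) ^ s.get i‖ ≤ ‖S.φ S.θ‖⁻¹ ^ (a.1 i).natDegree := by
  have hY : 1 < ‖S.φ S.θ‖ := S.hθ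
  have hY0 : 0 ≤ ‖S.φ S.θ‖⁻¹ := inv_nonneg.2 (norm_nonneg _)
  have hY1 : ‖S.φ S.θ‖⁻¹ ≤ 1 := (inv_lt_one_of_one_lt₀ hY).le
  rw [norm_prod]
  have hterm : ∀ j, ‖((S.φ (ψ (a.1 j)))⁻¹) ^ s.get j‖ =
      (‖S.φ S.θ‖⁻¹ ^ (a.1 j).natDegree) ^ s.get j := by
    intro j
    rw [norm_pow, norm_inv, S.norm_psi hF hψ (a.2.1 j).ne_zero, ← inv_pow]
  rw [Finset.prod_congr rfl fun j _ => hterm j, ← Finset.mul_prod_erase _ _ (Finset.mem_univ i)]
  have h1 : ∏ j ∈ univ.erase i, (‖S.φ S.θ‖⁻¹ ^ (a.1 j).natDegree) ^ s.get j ≤ 1 :=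
    Finset.prod_le_one (fun j _ => pow_nonneg (pow_nonneg hY0 _) _)
      fun j _ => pow_le_one₀ (pow_nonneg hY0 _) (pow_le_one₀ hY0 hY1)
  have h2 : (‖S.φ S.θ‖⁻¹ ^ (a.1 i).natDegree) ^ s.get i ≤ ‖S.φ S.θ‖⁻¹ ^ (a.1 i).natDegree := by
    have h3 : 1 ≤ s.get i := hs _ (List.get_mem s i)
    calc (‖S.φ S.θ‖⁻¹ ^ (a.1 i).natDegree) ^ s.get i ≤ (‖S.φ S.θ‖⁻¹ ^ (a.1 i).natDegree) ^ 1 :=
          pow_le_pow_of_le_one (pow_nonneg hY0 _) (pow_le_one₀ hY0 hY1) h3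
      _ = _ := pow_one _
  calc (‖S.φ S.θ‖⁻¹ ^ (a.1 i).natDegree) ^ s.get i *
        ∏ j ∈ univ.erase i, (‖S.φ S.θ‖⁻¹ ^ (a.1 j).natDegree) ^ s.get j
      ≤ ‖S.φ S.θ‖⁻¹ ^ (a.1 i).natDegree * 1 :=
        mul_le_mul h2 h1 (Finset.prod_nonneg fun j _ => pow_nonneg (pow_nonneg hY0 _) _)
          (pow_nonneg hY0 _)
    _ = _ := mul_one _

theorem hasSum_zeta {s : List ℕ} (hs : ∀ a ∈ s, 1 ≤ a) :
    HasSum (fun a : Idx F s.length => ∏ i, ((S.φ (ψ (a.1 i)))⁻¹) ^ s.get i) (S.zeta s) := by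
  classical
  have hY : 1 < ‖S.φ S.θ‖ := S.hθ
  have hY0 : 0 ≤ ‖S.φ S.θ‖⁻¹ := inv_nonneg.2 (norm_nonneg _)
  have hY1 : ‖S.φ S.θ‖⁻¹ < 1 := inv_lt_one_of_one_lt₀ hY
  have hval : Function.Injective (fun a : Idx F s.length => a.1) := fun a b h => Subtype.ext h
  let T : ℕ → Finset (Idx F s.length) := fun d =>
    (tup F s.length d).preimage (fun a => a.1) hval.injOn
  have hmemT : ∀ d (a : Idx F s.length), a ∈ T d ↔ ∀ i, (a.1 i).natDegree < d := by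
    intro d a
    rw [Finset.mem_preimage, mem_tup]
    exact ⟨fun h => h.2.2, fun h => ⟨a.2.1, a.2.2, h⟩⟩
  have hsummable : Summable
      (fun a : Idx F s.length => ∏ i, ((S.φ (ψ (a.1 i)))⁻¹) ^ s.get i) := by
    refine NonarchimedeanAddGroup.summable_of_tendsto_cofinite_zero ?_
    rw [tendsto_zero_iff_norm_tendsto_zero, Metric.tendsto_nhds]
    intro ε hε
    rw [Filter.eventually_cofinite]
    obtain ⟨d, hd⟩ := exists_pow_lt_of_lt_one hε hY1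
    refine (T d).finite_toSet.subset fun a ha => ?_
    rw [Finset.mem_coe, hmemT]
    by_contra hcon
    apply ha
    push Not at hcon
    obtain ⟨i, hi⟩ := hcon
    rw [Real.dist_eq, sub_zero, abs_of_nonneg (norm_nonneg _)]
    exact ((S.norm_f_le hF hψ hs a i).trans (pow_le_pow_of_le_one hY0 hY1.le hi)).trans_lt hd
  have hTmono : Monotone T := by
    intro d d' hdd' a ha
    rw [hmemT] at ha ⊢
    exact fun i => (ha i).trans_le hdd'
  have hTall : ∀ a : Idx F s.length, ∃ d, a ∈ T d := by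
    intro a
    refine ⟨(∑ i, (a.1 i).natDegree) + 1, (hmemT _ a).2 fun i => ?_⟩
    have := Finset.single_le_sum (f := fun i => (a.1 i).natDegree) (fun _ _ => Nat.zero_le _)
      (Finset.mem_univ i)
    exact Nat.lt_succ_of_le this
  have hT : Tendsto T atTop atTop := Filter.tendsto_atTop_finset_of_monotone hTmono hTall
  have hsumT : ∀ d, ∑ a ∈ T d, ∏ i, ((S.φ (ψ (a.1 i)))⁻¹) ^ s.get i = S.φ (SS q S.D s d) := by
    intro d
    have h1 := Finset.sum_preimage (fun a : Idx F s.length => a.1) (tup F s.length d) hval.injOn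
      (fun b : Fin s.length → F[X] => ∏ i, ((S.φ (ψ (b i)))⁻¹) ^ s.get i)
      (fun b hb hnot => by
        exfalso
        apply hnot
        have := mem_tup.1 hb
        exact ⟨⟨b, this.1, this.2.1⟩, rfl⟩)
    have hψ' : ψ X ^ q - ψ X = S.D := by
      rw [hψ]
      rfl
    rw [← sum_tup S.hq S.one_le_f S.D S.br_ne' hF hψ' (S.psi_inj hF hψ) hs d, map_sum]
    refine h1.trans (Finset.sum_congr rfl fun b _ => ?_)
    rw [map_prod]
    refine Finset.prod_congr rfl fun i _ => ?_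
    rw [map_pow, map_inv₀]
  have h2 := hsummable.hasSum.comp hT
  have h3 : Tendsto (fun d => ∑ a ∈ T d, ∏ i, ((S.φ (ψ (a.1 i)))⁻¹) ^ s.get i) atTop
      (nhds (S.zeta s)) := by
    refine (S.tendsto_SS hs).congr fun d => ?_
    rw [hsumT]
  have h4 := tendsto_nhds_unique h2 h3
  rw [← h4]
  exact hsummable.hasSum

end Setup

end Pool.Agent.ZQ
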