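import Pool.Agent.Work.MP_43901b_nt.H.Base

/-!
# Norms: `‖[i]‖`, `‖v_d‖`, `‖ℓ_d‖`
-/

namespace Pool.Agent.ZQ

open Polynomial Finset

/-- `1 + q + ... + q^(d-1)` -/
def rr (q d : ℕ) : ℕ := ∑ i ∈ range d, q ^ i

theorem rr_zero (q : ℕ) : rr q 0 = 0 := by simp [rr]

theorem rr_succ (q d : ℕ) : rr q (d + 1) = rr q d + q ^ d := by
  unfold rr
  rw [Finset.sum_range_succ]

theorem rr_mono {q : ℕ} : Monotone (rr q) := by
  refine monotone_nat_of_le_succ fun d => ?_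
  rw [rr_succ]
  omega

theorem le_rr {q : ℕ} (hq : 1 ≤ q) (d : ℕ) : d ≤ rr q d := by
  induction d with
  | zero => exact Nat.zero_le _
  | succ d ih =>
    rw [rr_succ]
    have := Nat.one_le_pow d q hq
    omega

theorem rr_mul {q : ℕ} (hq : 1 ≤ q) (d : ℕ) : (q - 1) * rr q d + 1 = q ^ d := by
  induction d with
  | zero => rw [rr_zero, mul_zero, pow_zero, zero_add]
  | succ d ih =>
    obtain ⟨r, rfl⟩ : ∃ r, q = r + 1 := ⟨q - 1, by omega⟩
    rw [rr_succ, mul_add, pow_succ]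
    simp only [Nat.add_sub_cancel] at ih ⊢
    linarith

variable {p f q : ℕ} [Fact p.Prime] (hq : q = p ^ f) (hf : 1 ≤ f) {L : Type*} [NormedField L]
  [IsUltrametricDist L] [CharP L p] (D : L) (hD : 1 < ‖D‖)

include hq hf hD

omit [Fact p.Prime] [IsUltrametricDist L] [CharP L p] hq hf in
theorem nD_ne : D ≠ 0 := by
  rintro rfl
  rw [norm_zero] at hD
  linarith

omit [CharP L p] in
theorem norm_br (i : ℕ) : ‖br q D (i + 1)‖ = ‖D‖ ^ q ^ i := by
  have h2 := two_le_q hq hf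
  induction i with
  | zero => rw [br_one, pow_zero, pow_one]
  | succ i ih =>
    have hlt : ‖D‖ ^ q ^ i < ‖D‖ ^ q ^ (i + 1) :=
      pow_lt_pow_right₀ hD (Nat.pow_lt_pow_right (by omega) (Nat.lt_succ_self i))
    rw [br_succ, IsUltrametricDist.norm_add_eq_max_of_norm_ne_norm, ih, norm_pow,
      max_eq_right hlt.le]
    rw [ih, norm_pow]
    exact hlt.ne

omit [CharP L p] in
theorem br_ne (i : ℕ) : br q D (i + 1) ≠ 0 := by
  rw [← norm_pos_iff, norm_br hq hf D hD]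
  exact pow_pos (zero_lt_one.trans hD) _

omit [CharP L p] in
theorem norm_vv {d : ℕ} (hd : 1 ≤ d) : ‖vv q D d‖ = ‖D‖ ^ (q ^ d - 1) := by
  obtain ⟨e, rfl⟩ : ∃ e, d = e + 1 := ⟨d - 1, by omega⟩
  have h0 : ‖D‖ ≠ 0 := (zero_lt_one.trans hD).ne'
  have h1 : 1 ≤ q ^ (e + 1) := Nat.one_le_pow _ _ (q_pos hq)
  rw [vv, norm_div, norm_pow, norm_br hq hf D hD, ← pow_mul, ← pow_succ, div_eq_iff h0,
    ← pow_succ, Nat.sub_add_cancel h1]

omit [CharP L p] in
theorem norm_ell (d : ℕ) : ‖ell q D d‖ = ‖D‖ ^ rr q d := by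
  induction d with
  | zero => rw [ell_zero, norm_one, rr_zero, pow_zero]
  | succ d ih => rw [ell_succ, norm_mul, norm_neg, norm_br hq hf D hD, ih, rr_succ, pow_add]

omit [CharP L p] in
theorem norm_vv' {d : ℕ} (hd : 1 ≤ d) : ‖vv q D d‖ = ‖D‖ ^ ((q - 1) * rr q d) := by
  obtain ⟨e, rfl⟩ : ∃ e, d = e + 1 := ⟨d - 1, by omega⟩
  have h0 : ‖D‖ ≠ 0 := (zero_lt_one.trans hD).ne'
  rw [vv, norm_div, norm_pow, norm_br hq hf D hD, ← pow_mul, ← pow_succ, div_eq_iff h0,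
    ← pow_succ, rr_mul (q_pos hq)]

omit [CharP L p] in
theorem norm_ell_mul (d : ℕ) : ‖ell q D d‖ ^ (q - 1) * ‖D‖ = ‖D‖ ^ q ^ d := by
  induction d with
  | zero => rw [ell_zero, norm_one, one_pow, one_mul, pow_zero, pow_one]
  | succ d ih =>
    rw [ell_succ, norm_mul, norm_neg, norm_br hq hf D hD, mul_pow, mul_right_comm, ih, ← pow_mul,
      ← pow_add, pow_succ]
    congr 1
    have := q_pos hq
    obtain ⟨r, hr⟩ : ∃ r, q = r + 1 := ⟨q - 1, by omega⟩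
    rw [hr]
    simp only [Nat.add_sub_cancel]
    ring

omit [CharP L p] in
theorem one_le_norm_ell (d : ℕ) : 1 ≤ ‖ell q D d‖ := by
  induction d with
  | zero => rw [ell_zero, norm_one]
  | succ d ih =>
    rw [ell_succ, norm_mul, norm_neg, norm_br hq hf D hD]
    exact one_le_mul_of_one_le_of_one_le ih (one_le_pow₀ hD.le)

omit [CharP L p] in
theorem norm_ell_pow (d : ℕ) : ‖ell q D d‖ ^ (q - 1) = ‖D‖ ^ (q ^ d - 1) := by
  have h0 : ‖D‖ ≠ 0 := (zero_lt_one.trans hD).ne'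
  have h1 : 1 ≤ q ^ d := Nat.one_le_pow _ _ (q_pos hq)
  have h2 := norm_ell_mul hq hf D hD d
  have h3 : ‖D‖ ^ q ^ d = ‖D‖ ^ (q ^ d - 1) * ‖D‖ := by
    rw [← pow_succ, Nat.sub_add_cancel h1]
  rw [h3] at h2
  exact mul_right_cancel₀ h0 h2

omit [CharP L p] in
theorem vv_inj : Function.Injective (vv q D) := by
  have h2 := two_le_q hq hf
  have h0 : ∀ d, 1 ≤ d → ‖vv q D d‖ ≠ ‖vv q D 0‖ := by
    intro d hd
    rw [norm_vv hq hf D hD hd, vv_zero hq, norm_zero]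
    exact (pow_pos (zero_lt_one.trans hD) _).ne'
  intro d e h
  have h1 : ‖vv q D d‖ = ‖vv q D e‖ := by rw [h]
  rcases Nat.eq_zero_or_pos d with rfl | hd
  · rcases Nat.eq_zero_or_pos e with rfl | he
    · rfl
    · exact absurd h1.symm (h0 e he)
  · rcases Nat.eq_zero_or_pos e with rfl | he
    · exact absurd h1 (h0 d hd)
    · rw [norm_vv hq hf D hD hd, norm_vv hq hf D hD he] at h1
      have h3 := pow_right_injective₀ (zero_lt_one.trans hD) hD.ne' h1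
      have h4 : 1 ≤ q ^ d := Nat.one_le_pow _ _ (by omega)
      have h5 : 1 ≤ q ^ e := Nat.one_le_pow _ _ (by omega)
      have h6 : q ^ d = q ^ e := by omega
      exact Nat.pow_right_injective h2 h6

end Pool.Agent.ZQ
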