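import Pool.Agent.Work.MP_43901b_nt.H.RootE

/-!
# PowS: `ps q D d k` is the power sum over the monic polynomials of degree `d`
-/

namespace Pool.Agent.ZQ

open Polynomial Finset

section Mon

variable (F : Type*) [Field F] [Fintype F]

open Classical in
/-- the monic polynomials of degree `d` over `F` -/
noncomputable def mon (d : ℕ) : Finset F[X] :=
  (Finset.univ : Finset (Fin d → F)).image fun c => X ^ d + ∑ i : Fin d, C (c i) * X ^ (i : ℕ)

variable {F}

theorem mem_mon {d : ℕ} {n : F[X]} : n ∈ mon F d ↔ n.Monic ∧ n.natDegree = d := by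
  classical
  unfold mon
  rw [Finset.mem_image]
  constructor
  · rintro ⟨c, -, rfl⟩
    have h1 : (∑ i : Fin d, C (c i) * X ^ (i : ℕ) : F[X]).degree < d :=
      degree_sum_fin_lt c
    exact ⟨monic_X_pow_add h1, by
      rw [natDegree_add_eq_left_of_degree_lt (by rw [degree_X_pow]; exact h1), natDegree_X_pow]⟩
  · rintro ⟨h1, h2⟩
    refine ⟨fun i => n.coeff i, Finset.mem_univ _, ?_⟩
    rw [Fin.sum_univ_eq_sum_range (fun i => C (n.coeff i) * X ^ i) d]
    conv_rhs => rw [h1.as_sum, h2]

theorem card_mon (d : ℕ) : (mon F d).card = Fintype.card F ^ d := by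
  classical
  unfold mon
  rw [Finset.card_image_of_injective, Finset.card_univ, Fintype.card_fun, Fintype.card_fin]
  intro c c' h
  funext j
  have h1 := congrArg (fun p : F[X] => p.coeff (j : ℕ)) h
  have hj := j.2
  simp only [coeff_add, coeff_X_pow, finsetSum_coeff, coeff_C_mul] at h1
  have key : ∀ c : Fin d → F, ∑ x : Fin d, c x * (if (j : ℕ) = (x : ℕ) then 1 else 0) = c j := by
    intro c
    rw [Finset.sum_eq_single j]
    · simp
    · intro b _ hb
      rw [if_neg (fun h => hb (Fin.ext h.symm)), mul_zero]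
    · intro h; exact absurd (Finset.mem_univ _) h
  rw [key, key] at h1
  exact add_left_cancel h1

end Mon

private lemma ps_aux_coeff {q : ℕ} (hq2 : 2 ≤ q) {K : Type*} [Field K] (c : ℕ → K) (d : ℕ)
    (hc : ∀ i, d < i → c i = 0) :
    (((1 - ∑ i ∈ range (d + 1), C (c i) * X ^ q ^ i : K[X])) : PowerSeries K) = 1 - ser q c := by
  ext n
  rw [Polynomial.coeff_coe, coeff_sub, map_sub, coeff_ser]
  congr 1
  · rw [coeff_one, PowerSeries.coeff_one]
  · rw [finsetSum_coeff]
    simp_rw [coeff_C_mul_X_pow]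
    by_cases h : n = q ^ Nat.log q n
    · rw [if_pos h, Finset.sum_eq_single (Nat.log q n)]
      · rw [if_pos h]
      · intro b _ hb
        rw [if_neg]
        intro hn
        apply hb
        rw [hn, Nat.log_pow (by omega)]
      · intro hn
        rw [if_pos h]
        apply hc
        rw [Finset.mem_range] at hn
        omega
    · rw [if_neg h]
      refine Finset.sum_eq_zero fun i _ => ?_
      rw [if_neg]
      intro hn
      apply h
      rw [hn, Nat.log_pow (by omega)]

private lemma geom_inv {K : Type*} [Field K] (c : K) :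
    ((1 - C c * X : K[X]) : PowerSeries K) * PowerSeries.mk (fun j => c ^ j) = 1 := by
  ext n
  rw [Polynomial.coe_sub, Polynomial.coe_one, Polynomial.coe_mul, Polynomial.coe_C,
    Polynomial.coe_X, sub_mul, one_mul, map_sub, PowerSeries.coeff_mk, mul_assoc,
    PowerSeries.coeff_C_mul, PowerSeries.coeff_one]
  rcases n with _ | n
  · rw [PowerSeries.coeff_zero_X_mul]
    simp
  · rw [PowerSeries.coeff_succ_X_mul, PowerSeries.coeff_mk, if_neg (Nat.succ_ne_zero n), pow_succ,
      mul_comm c]
    exact sub_self _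

variable {p f q : ℕ} [Fact p.Prime] (hq : q = p ^ f) (hf : 1 ≤ f) {K : Type*} [Field K]
  [CharP K p] (D : K) (hb : ∀ i, br q D (i + 1) ≠ 0) {F : Type*} [Field F] [Fintype F]
  (hF : Fintype.card F = q) {ψ : F[X] →+* K} (hψ : ψ X ^ q - ψ X = D)
  (hinj : Function.Injective ψ)

include hq hf hb hF hψ hinj

theorem ps_eq_sum (d : ℕ) {k : ℕ} (hk : 1 ≤ k) :
    ∑ n ∈ mon F d, ((ψ n)⁻¹) ^ k = ps q D d k := by
  classical
  have hq2 := two_le_q hq hf
  have hx : ell q D d ≠ 0 := ell_ne D hb d
  set c : ℕ → K := fun i => (ell q D d)⁻¹ * ee q D d i with hc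
  have hcgt : ∀ i, d < i → c i = 0 := by
    intro i hi
    rw [hc]
    simp only
    rw [ee_gt hq D hb hi, mul_zero]
  set P : K[X] := 1 - ∑ i ∈ range (d + 1), C (c i) * X ^ q ^ i with hP
  set Q : K[X] := ∏ n ∈ mon F d, (1 - C ((ψ n)⁻¹) * X) with hQ
  have hn0 : ∀ n ∈ mon F d, ψ n ≠ 0 := by
    intro n hn h
    have h1 : n = 0 := hinj (by rw [h, map_zero])
    have h2 := (mem_mon.1 hn).1
    rw [h1] at h2
    exact h2.ne_zero rfl
  have hPeval : ∀ z, P.eval z = 1 - (ell q D d)⁻¹ * Ez q D d z := by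
    intro z
    rw [hP, eval_sub, eval_one, eval_finsetSum, Ez, Finset.mul_sum]
    congr 1
    refine Finset.sum_congr rfl fun i _ => ?_
    rw [eval_mul, eval_C, eval_pow, eval_X, hc]
    ring
  have hPQ : P = Q := by
    have hcard : (insert (0 : K) ((mon F d).image ψ)).card = q ^ d + 1 := by
      rw [Finset.card_insert_of_notMem, Finset.card_image_of_injective _ hinj, card_mon, hF]
      intro h
      obtain ⟨n, hn, h0⟩ := Finset.mem_image.1 h
      exact hn0 n hn h0
    have hPdeg : P.natDegree ≤ q ^ d := by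
      rw [hP]
      refine (natDegree_sub_le _ _).trans (max_le (by simp) ?_)
      refine natDegree_sum_le_of_forall_le _ _ fun i hi => ?_
      refine (natDegree_C_mul_X_pow_le _ _).trans ?_
      rw [Finset.mem_range] at hi
      exact Nat.pow_le_pow_right (by omega) (by omega)
    have hQdeg : Q.natDegree ≤ q ^ d := by
      rw [hQ]
      refine (natDegree_prod_le _ _).trans ?_
      refine (Finset.sum_le_card_nsmul _ _ 1 fun n _ => ?_).trans ?_
      · refine (natDegree_sub_le _ _).trans (max_le (by simp) ?_)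
        exact (natDegree_C_mul_le _ _).trans natDegree_X_le
      · rw [card_mon, hF]; simp
    refine eq_of_degree_sub_lt_of_eval_finset_eq (insert (0 : K) ((mon F d).image ψ)) ?_ ?_
    · rw [hcard]
      refine lt_of_le_of_lt (degree_le_natDegree) ?_
      have h1 : (P - Q).natDegree ≤ q ^ d := (natDegree_sub_le _ _).trans (max_le hPdeg hQdeg)
      exact_mod_cast Nat.lt_succ_of_le h1
    · intro z hz
      rcases Finset.mem_insert.1 hz with rfl | hz
      · rw [hPeval, hQ, eval_prod, Ez_zero hq, mul_zero, sub_zero]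
        symm
        refine Finset.prod_eq_one fun n _ => ?_
        simp
      · obtain ⟨n, hn, rfl⟩ := Finset.mem_image.1 hz
        obtain ⟨h1, h2⟩ := mem_mon.1 hn
        rw [hPeval, (Ez_main hq hf D hb hF hψ d).2 n h1 h2, inv_mul_cancel₀ hx, sub_self, hQ,
          eval_prod]
        symm
        refine Finset.prod_eq_zero hn ?_
        rw [eval_sub, eval_one, eval_mul, eval_C, eval_X, inv_mul_cancel₀ (hn0 n hn), sub_self]
  have hder : derivative P = C (-(ell q D d)⁻¹) := by
    rw [hP, derivative_sub, derivative_one, zero_sub, derivative_sum]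
    rw [Finset.sum_eq_single 0]
    · rw [hc]
      simp only
      rw [ee_zero D hb, mul_one, pow_zero, pow_one, derivative_C_mul_X, C_neg]
    · intro i _ hi
      rw [derivative_C_mul_X_pow]
      have h2 : ((q ^ i : ℕ) : K) = 0 := by
        obtain ⟨j, rfl⟩ := Nat.exists_eq_succ_of_ne_zero hi
        rw [Nat.cast_pow, natCast_q_eq_zero hq hf, zero_pow (Nat.succ_ne_zero j)]
      rw [h2, mul_zero, C_0, zero_mul]
    · intro h
      exact absurd (Finset.mem_range.2 (Nat.succ_pos d)) h
  have hderQ : derivative Q = ∑ n ∈ mon F d, (∏ m ∈ (mon F d).erase n, (1 - C ((ψ m)⁻¹) * X)) *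
      C (-(ψ n)⁻¹) := by
    rw [hQ, derivative_prod_finset]
    refine Finset.sum_congr rfl fun n _ => ?_
    congr 1
    rw [derivative_sub, derivative_one, zero_sub, derivative_C_mul_X, C_neg]
  set G : PowerSeries K := PowerSeries.mk fun n => gg q c n with hG
  have hPG : (P : PowerSeries K) * G = 1 := by
    rw [hP, ps_aux_coeff hq2 c d hcgt]
    exact gg_inv hq2 c
  set T : PowerSeries K := ∑ n ∈ mon F d, PowerSeries.C ((ψ n)⁻¹) *
    PowerSeries.mk (fun j => ((ψ n)⁻¹) ^ j) with hT
  have hPF : (P : PowerSeries K) * T = PowerSeries.C ((ell q D d)⁻¹) := by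
    have h1 : ((derivative Q : K[X]) : PowerSeries K) = PowerSeries.C (-(ell q D d)⁻¹) := by
      rw [← hPQ, hder, Polynomial.coe_C]
    have h1' : PowerSeries.C ((ell q D d)⁻¹) = -((derivative Q : K[X]) : PowerSeries K) := by
      rw [h1, map_neg, neg_neg]
    rw [h1', hderQ, hT, Finset.mul_sum]
    have h2 : ((∑ n ∈ mon F d, (∏ m ∈ (mon F d).erase n, (1 - C ((ψ m)⁻¹) * X)) *
        C (-(ψ n)⁻¹) : K[X]) : PowerSeries K) = ∑ n ∈ mon F d,
        (((∏ m ∈ (mon F d).erase n, (1 - C ((ψ m)⁻¹) * X)) * C (-(ψ n)⁻¹) : K[X]) :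
          PowerSeries K) :=
      map_sum (Polynomial.coeToPowerSeries.ringHom (R := K)) _ _
    rw [h2, ← Finset.sum_neg_distrib]
    refine Finset.sum_congr rfl fun n hn => ?_
    have h3 : P = (1 - C ((ψ n)⁻¹) * X) * ∏ m ∈ (mon F d).erase n, (1 - C ((ψ m)⁻¹) * X) := by
      rw [hPQ, hQ]
      exact (Finset.mul_prod_erase (mon F d) (fun n => 1 - C ((ψ n)⁻¹) * X) hn).symm
    rw [Polynomial.coe_mul, Polynomial.coe_C]
    conv_lhs => rw [h3, Polynomial.coe_mul]
    have h4 := geom_inv ((ψ n)⁻¹)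
    calc _ = ((∏ m ∈ (mon F d).erase n, (1 - C ((ψ m)⁻¹) * X) : K[X]) : PowerSeries K) *
          PowerSeries.C ((ψ n)⁻¹) * (((1 - C ((ψ n)⁻¹) * X : K[X]) : PowerSeries K) *
          PowerSeries.mk (fun j => ((ψ n)⁻¹) ^ j)) := by ring
      _ = _ := by
          rw [h4, mul_one, map_neg]
          ring
  have hFG : T = PowerSeries.C ((ell q D d)⁻¹) * G := by
    calc T = (P : PowerSeries K) * G * T := by rw [hPG, one_mul]
      _ = ((P : PowerSeries K) * T) * G := by ring
      _ = _ := by rw [hPF]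
  have h5 := congrArg (PowerSeries.coeff (k - 1)) hFG
  rw [PowerSeries.coeff_C_mul, hG, PowerSeries.coeff_mk, hT, map_sum] at h5
  have h6 : gg q c (k - 1) = ((ell q D d)⁻¹) ^ (k - 1) * (PP q D k).eval (vv q D d) := by
    have h7 : c = fun i => ((ell q D d)⁻¹) ^ q ^ i * (ev q D i).eval (vv q D d) := by
      funext i
      rw [hc]
      simp only
      rw [ee, inv_pow]
      field_simp
    have h8 := gg_map hq2 (Polynomial.evalRingHom (vv q D d)) (ev q D) (k - 1)
    simp only [coe_evalRingHom] at h8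
    rw [h7, gg_scale hq2, PP, h8]
  rw [h6, ← mul_assoc, ← pow_succ', Nat.sub_add_cancel hk] at h5
  rw [ps, div_eq_mul_inv, ← inv_pow, mul_comm, ← h5]
  refine Finset.sum_congr rfl fun n _ => ?_
  rw [PowerSeries.coeff_C_mul, PowerSeries.coeff_mk, ← pow_succ', Nat.sub_add_cancel hk]

end Pool.Agent.ZQ
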