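import Pool.Agent.Work.MP_43901b_nt.H.RepB

/-!
# RatPoly: a rational telescoping function is a polynomial
-/

namespace Pool.Agent.ZQ

open Polynomial Finset Filter

section Tel

variable {p f q : ℕ} [Fact p.Prime] (hq : q = p ^ f) (hf : 1 ≤ f) {K : Type*} [Field K]
  [CharP K p] (D : K) (hb : ∀ i, br q D (i + 1) ≠ 0)

include hq in
omit [CharP K p] in
theorem tel_zero {W : ℕ} (hW : 1 ≤ W) {Φ G : K[X]}
    (h : Φ.comp (vp q D) = bet D ^ W * (Φ + G)) : Φ.eval 0 = 0 := by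
  have e1 := congrArg (Polynomial.eval (-1)) h
  rw [eval_comp] at e1
  have e2 : (vp q D).eval (-1) = 0 := by
    rw [vp, eval_mul, eval_pow, eval_add, eval_X, eval_one, add_neg_cancel,
      zero_pow (q_pos hq).ne', mul_zero]
  have e3 : (bet D).eval (-1) = 0 := by
    rw [bet, eval_neg, eval_mul, eval_add, eval_X, eval_one, add_neg_cancel, mul_zero, neg_zero]
  rw [e2, eval_mul, eval_pow, e3, zero_pow (by omega), zero_mul] at e1
  exact e1

include hq hf hb in
/-- a solution of the functional equation gives the partial sums -/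
theorem tel_sum {W : ℕ} (hW : 1 ≤ W) {Φ G : K[X]}
    (h : Φ.comp (vp q D) = bet D ^ W * (Φ + G)) (d : ℕ) :
    (∑ i ∈ range d, G.eval (vv q D i) / ell q D i ^ W) * ell q D d ^ W =
      Φ.eval (vv q D d) := by
  have hD : D ≠ 0 := by
    have := hb 0
    rwa [zero_add, br_one] at this
  induction d with
  | zero => rw [Finset.sum_range_zero, zero_mul, vv_zero hq, tel_zero hq D hW h]
  | succ d ih =>
    have h1 := ell_ne D hb d
    rw [vv_succ hq hf D hD, ← eval_comp, h, eval_mul, eval_pow, eval_add, ← ih,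
      ell_succ' hq hf D hD, Finset.sum_range_succ, mul_pow]
    field_simp

end Tel

variable {p q : ℕ} {k L : Type*} [Fact p.Prime] [Field k] [CharP k p] [NormedField L]
  [CompleteSpace L] [IsUltrametricDist L] [CharP L p] (S : Setup p q k L)

namespace Setup

/-- `t_d⁻¹ = D v_d + θ^q` -/
theorem t_inv (d : ℕ) : (S.t d)⁻¹ = S.D * vv q S.D d + S.θ ^ q := by
  have h1 := S.vv_t d
  have h2 := S.t_ne d
  field_simp
  linear_combination (-1 : k) * h1

theorem t_to_v (Q : k[X]) {n : ℕ} (h : Q.natDegree ≤ n) : ∃ R : k[X],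
    (∀ d, R.eval (vv q S.D d) = ((S.t d)⁻¹) ^ n * Q.eval (S.t d)) ∧ (Q ≠ 0 → R ≠ 0) := by
  set R : k[X] := ∑ i ∈ range (n + 1), C (Q.coeff i) * (C S.D * X + C (S.θ ^ q)) ^ (n - i) with hR
  have hev : ∀ d, R.eval (vv q S.D d) = ((S.t d)⁻¹) ^ n * Q.eval (S.t d) := by
    intro d
    rw [hR, eval_finsetSum, eval_eq_sum_range' (p := Q) (n := n + 1) (by omega), Finset.mul_sum]
    refine Finset.sum_congr rfl fun i hi => ?_
    rw [eval_mul, eval_pow, eval_add, eval_mul, eval_C, eval_C, eval_C, eval_X, ← S.t_inv]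
    have hi' : i ≤ n := by
      rw [Finset.mem_range] at hi
      omega
    have h2 : ((S.t d)⁻¹) ^ n = ((S.t d)⁻¹) ^ (n - i) * ((S.t d)⁻¹) ^ i := by
      rw [← pow_add, Nat.sub_add_cancel hi']
    have h3 : ((S.t d)⁻¹) ^ i * (S.t d) ^ i = 1 := by
      rw [← mul_pow, inv_mul_cancel₀ (S.t_ne d), one_pow]
    rw [h2]
    linear_combination (-1) * Q.coeff i * ((S.t d)⁻¹) ^ (n - i) * h3
  refine ⟨R, hev, fun hQ hR0 => ?_⟩
  obtain ⟨d, hd⟩ := (S.poly_ne hQ).exists
  have h1 := hev d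
  rw [hR0, eval_zero] at h1
  exact mul_ne_zero (pow_ne_zero _ (inv_ne_zero (S.t_ne d))) hd h1.symm

theorem vv_poly_ne {P : k[X]} (hP : P ≠ 0) : ∀ᶠ d in atTop, P.eval (vv q S.D d) ≠ 0 := by
  classical
  have h1 : {d : ℕ | P.eval (vv q S.D d) = 0}.Finite := by
    have h2 : {d : ℕ | P.eval (vv q S.D d) = 0} = vv q S.D ⁻¹' (↑P.roots.toFinset : Set k) := by
      ext d
      simp [hP]
    rw [h2]
    exact (Finset.finite_toSet _).preimage S.vv_inj'.injOn
  have h2 := h1.compl_mem_cofinite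
  rw [Nat.cofinite_eq_atTop] at h2
  exact h2

theorem vv_poly_eq {P Q : k[X]}
    (h : ∀ᶠ d in atTop, P.eval (vv q S.D d) = Q.eval (vv q S.D d)) : P = Q := by
  by_contra hne
  have h1 := S.vv_poly_ne (sub_ne_zero.2 hne)
  obtain ⟨d, h2, h3⟩ := (h.and h1).exists
  rw [eval_sub, h2, sub_self] at h3
  exact h3 rfl

private theorem rp_coprime {M N : k[X]} (hM : M ≠ 0) : ∃ g M' N' : k[X], g ≠ 0 ∧ M = g * M' ∧
    N = g * N' ∧ IsCoprime N' M' := by
  classical
  set g := EuclideanDomain.gcd M N with hg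
  obtain ⟨M', hM'⟩ := EuclideanDomain.gcd_dvd_left M N
  obtain ⟨N', hN'⟩ := EuclideanDomain.gcd_dvd_right M N
  have hg0 : g ≠ 0 := by
    intro h
    rw [← hg, h, zero_mul] at hM'
    exact hM hM'
  refine ⟨g, M', N', hg0, hM', hN', ?_⟩
  have h1 := EuclideanDomain.gcd_eq_gcd_ab M N
  refine ⟨EuclideanDomain.gcdB M N, EuclideanDomain.gcdA M N, ?_⟩
  apply mul_left_cancel₀ hg0
  have h2 : g = g * M' * EuclideanDomain.gcdA M N + g * N' * EuclideanDomain.gcdB M N := by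
    conv_lhs => rw [hg, h1]
    rw [← hM', ← hN']
  calc g * (EuclideanDomain.gcdB M N * N' + EuclideanDomain.gcdA M N * M') =
      g * M' * EuclideanDomain.gcdA M N + g * N' * EuclideanDomain.gcdB M N := by ring
    _ = g := h2.symm
    _ = g * 1 := (mul_one g).symm

theorem rat_tel {W : ℕ} {G : k[X]} {Z : ℕ → k} {M N : k[X]} (hM : M ≠ 0)
    (h1 : ∀ᶠ d in atTop, Z d * ell q S.D d ^ W * M.eval (S.t d) = N.eval (S.t d))
    (h2 : ∀ᶠ d in atTop, (Z (d + 1) - Z d) * ell q S.D d ^ W = G.eval (vv q S.D d)) :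
    ∃ Φ : k[X], Φ.comp (vp q S.D) = bet S.D ^ W * (Φ + G) ∧
      ∀ᶠ d in atTop, Z d * ell q S.D d ^ W = Φ.eval (vv q S.D d) := by
  have h2q := S.two_le
  have hDne := S.D_ne
  obtain ⟨M₁, hM₁, hM₁0⟩ := S.t_to_v M (le_max_left M.natDegree N.natDegree)
  obtain ⟨N₁, hN₁, -⟩ := S.t_to_v N (le_max_right M.natDegree N.natDegree)
  obtain ⟨g, M₂, N₂, hg, hgM, hgN, hcop⟩ := rp_coprime (N := N₁) (hM₁0 hM)
  have hM₂0 : M₂ ≠ 0 := by
    rintro rfl
    rw [mul_zero] at hgM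
    exact hM₁0 hM hgM
  set ρ : ℕ → k := fun d => Z d * ell q S.D d ^ W with hρ
  have h3 : ∀ᶠ d in atTop, ρ d * M₂.eval (vv q S.D d) = N₂.eval (vv q S.D d) := by
    filter_upwards [h1, S.vv_poly_ne hg] with d hd hgd
    have e1 : ρ d * M₁.eval (vv q S.D d) = N₁.eval (vv q S.D d) := by
      rw [hM₁, hN₁, ← hd]
      simp only [hρ]
      ring
    rw [hgM, hgN, eval_mul, eval_mul] at e1
    apply mul_left_cancel₀ hgd
    linear_combination e1
  have hvp : ∀ d, (vp q S.D).eval (vv q S.D d) = vv q S.D (d + 1) := fun d =>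
    (vv_succ S.hq S.one_le_f S.D hDne d).symm
  have hell : ∀ d, ell q S.D (d + 1) = (bet S.D).eval (vv q S.D d) * ell q S.D d := fun d =>
    ell_succ' S.hq S.one_le_f S.D hDne d
  have hρs : ∀ᶠ d in atTop, ρ (d + 1) =
      (bet S.D).eval (vv q S.D d) ^ W * (ρ d + G.eval (vv q S.D d)) := by
    filter_upwards [h2] with d hd
    simp only [hρ]
    rw [← hd, hell, mul_pow]
    ring
  have hid : M₂.comp (vp q S.D) * (bet S.D ^ W * (N₂ + G * M₂)) = N₂.comp (vp q S.D) * M₂ := by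
    apply S.vv_poly_eq
    have h3' := (tendsto_add_atTop_nat 1).eventually h3
    filter_upwards [h3, h3', hρs] with d hd hd' hd2
    simp only [eval_mul, eval_comp, hvp, eval_pow, eval_add]
    rw [← hd, ← hd', hd2]
    ring
  have hcop2 : IsCoprime (N₂.comp (vp q S.D)) (M₂.comp (vp q S.D)) := by
    obtain ⟨u, v, huv⟩ := hcop
    refine ⟨u.comp (vp q S.D), v.comp (vp q S.D), ?_⟩
    rw [← mul_comp, ← mul_comp, ← add_comp, huv, one_comp]
  have hdvd : M₂.comp (vp q S.D) ∣ M₂ := by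
    refine hcop2.symm.dvd_of_dvd_mul_left ?_
    rw [← hid]
    exact dvd_mul_right _ _
  have hPdeg : (vp q S.D).natDegree = q := by
    rw [vp, natDegree_C_mul (pow_ne_zero _ hDne), natDegree_pow, add_comm,
      show (1 : k[X]) = C 1 from C_1.symm, natDegree_X_add_C, mul_one]
  have hM₂deg : M₂.natDegree = 0 := by
    have e1 := natDegree_le_of_dvd hdvd hM₂0
    rw [natDegree_comp, hPdeg] at e1
    by_contra h0
    have : 2 * M₂.natDegree ≤ M₂.natDegree * q := by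
      rw [mul_comm]
      exact Nat.mul_le_mul_left _ h2q
    omega
  obtain ⟨m, hm⟩ : ∃ m, M₂ = C m := ⟨M₂.coeff 0, eq_C_of_natDegree_eq_zero hM₂deg⟩
  have hm0 : m ≠ 0 := by
    rintro rfl
    rw [C_0] at hm
    exact hM₂0 hm
  obtain ⟨Φ, hΦ⟩ : ∃ Φ : k[X], Φ = C m⁻¹ * N₂ := ⟨_, rfl⟩
  have hN₂ : N₂ = C m * Φ := by
    rw [hΦ, ← mul_assoc, ← C_mul, mul_inv_cancel₀ hm0, C_1, one_mul]
  refine ⟨Φ, ?_, ?_⟩
  · have hCm : (C m : k[X]) ≠ 0 := by rwa [Ne, C_eq_zero]
    rw [hm, hN₂, C_comp, mul_comp, C_comp] at hid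
    apply mul_left_cancel₀ (mul_ne_zero hCm hCm)
    linear_combination (-1 : k[X]) * hid
  · filter_upwards [h3] with d hd
    rw [hm, hN₂, eval_mul, eval_C] at hd
    apply mul_right_cancel₀ hm0
    simp only [hρ] at hd
    linear_combination hd

end Setup

end Pool.Agent.ZQ
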