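import Pool.Agent.Work.MP_43901b_nt.H.EvId

/-!
# RootE: the zeros of `E_d`

`F` a finite field with `q` elements, `ψ : F[X] → K` a ring homomorphism, `θ = ψ X`, `D = θ^q - θ`.
`Ez d z = Σ_{i ≤ d} e_i(v_d) ℓ_d^(1-q^i) z^(q^i)`.
-/

namespace Pool.Agent.ZQ

open Polynomial Finset

section

variable {K : Type*} [Field K]

/-- the coefficient `e_i(v_d) ℓ_d^(1-q^i)` of `E_d` -/
noncomputable def ee (q : ℕ) (D : K) (d i : ℕ) : K :=
  (ev q D i).eval (vv q D d) * ell q D d / ell q D d ^ q ^ i

/-- the additive polynomial `E_d` -/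
noncomputable def Ez (q : ℕ) (D : K) (d : ℕ) (z : K) : K :=
  ∑ i ∈ range (d + 1), ee q D d i * z ^ q ^ i

end

variable {p f q : ℕ} [Fact p.Prime] (hq : q = p ^ f) (hf : 1 ≤ f) {K : Type*} [Field K]
  [CharP K p] (D : K) (hb : ∀ i, br q D (i + 1) ≠ 0)

include hq hf hb

omit [Fact p.Prime] [CharP K p] hq hf in
theorem ee_zero (d : ℕ) : ee q D d 0 = 1 := by
  rw [ee, ev_zero, eval_one, one_mul, pow_zero, pow_one, div_self (ell_ne D hb d)]

omit hf in
theorem ee_gt {d i : ℕ} (h : d < i) : ee q D d i = 0 := by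
  have hD : D ≠ 0 := by
    have := hb 0
    rwa [zero_add, br_one] at this
  have h1 : (ev q D i).eval (vv q D d) = 0 := by
    induction i, h using Nat.le_induction with
    | base =>
      rw [ev_succ, eval_mul, eval_mul, eval_sub, eval_C, eval_C, eval_mul, eval_C, eval_X,
        D_mul_vv D hD, sub_self, mul_zero, zero_mul]
    | succ i _ ih =>
      rw [ev_succ, eval_mul, eval_pow, ih, zero_pow (q_pos hq).ne', mul_zero]
  rw [ee, h1, zero_mul, zero_div]

theorem ee_succ (d i : ℕ) : ee q D (d + 1) (i + 1) =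
    ee q D d (i + 1) - ell q D d * (ee q D d i) ^ q / ell q D d ^ q := by
  have hD : D ≠ 0 := by
    have := hb 0
    rwa [zero_add, br_one] at this
  have h1 := ell_ne D hb d
  have h2 := ell_ne D hb (d + 1)
  have h3 := ev_comp hq hf D hb i
  have h4 : (ev q D (i + 1)).eval (vv q D (d + 1)) = (bet D).eval (vv q D d) ^ (q ^ (i + 1) - 1) *
      ((ev q D (i + 1)).eval (vv q D d) - (ev q D i).eval (vv q D d) ^ q) := by
    have := congrArg (Polynomial.eval (vv q D d)) h3
    rw [eval_comp, ← vv_succ hq hf D hD, eval_mul, eval_pow, eval_sub, eval_pow] at this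
    exact this
  have h5 : (bet D).eval (vv q D d) ≠ 0 := by
    intro h0
    rw [ell_succ' hq hf D hD, h0, zero_mul] at h2
    exact h2 rfl
  have h6 : (bet D).eval (vv q D d) ^ q ^ (i + 1) =
      (bet D).eval (vv q D d) ^ (q ^ (i + 1) - 1) * (bet D).eval (vv q D d) := by
    rw [← pow_succ, Nat.sub_add_cancel (Nat.one_le_pow _ _ (q_pos hq))]
  have h7 : (ell q D d ^ q ^ i) ^ q = ell q D d ^ q ^ (i + 1) := by
    rw [← pow_mul, ← pow_succ]
  rw [ee, ee, ee, h4, ell_succ' hq hf D hD, mul_pow, h6, div_pow, mul_pow, h7]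
  have h8 := pow_ne_zero (q ^ (i + 1) - 1) h5
  field_simp

/-- `[i+1] ee (d+1) (i+1) = (ℓ_{d+1}/ℓ_d^q) (ee d i)^q` -/
theorem ee_carl (d i : ℕ) : br q D (i + 1) * ee q D (d + 1) (i + 1) =
    ell q D (d + 1) * (ee q D d i) ^ q / ell q D d ^ q := by
  have hD : D ≠ 0 := by
    have := hb 0
    rwa [zero_add, br_one] at this
  have h1 := ell_ne D hb d
  have h2 := ell_ne D hb (d + 1)
  have h3 := br_mul_ev_comp hq hf D hb i
  have h4 : br q D (i + 1) * (ev q D (i + 1)).eval (vv q D (d + 1)) =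
      (bet D).eval (vv q D d) ^ q ^ (i + 1) * (ev q D i).eval (vv q D d) ^ q := by
    have := congrArg (Polynomial.eval (vv q D d)) h3
    rw [eval_mul, eval_C, eval_comp, ← vv_succ hq hf D hD, eval_mul, eval_pow, eval_pow] at this
    exact this
  have h5 : (bet D).eval (vv q D d) ≠ 0 := by
    intro h0
    rw [ell_succ' hq hf D hD, h0, zero_mul] at h2
    exact h2 rfl
  have h7 : (ell q D d ^ q ^ i) ^ q = ell q D d ^ q ^ (i + 1) := by
    rw [← pow_mul, ← pow_succ]
  rw [ee, ee, ← mul_div_assoc, ← mul_assoc, h4, div_pow, mul_pow, h7, ell_succ' hq hf D hD,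
    mul_pow]
  have h8 := pow_ne_zero (q ^ (i + 1)) h5
  field_simp

theorem Ez_pow (d : ℕ) (z : K) :
    (Ez q D d z) ^ q = ∑ i ∈ range (d + 1), (ee q D d i) ^ q * z ^ q ^ (i + 1) := by
  unfold Ez
  rw [sum_pow_q hq hf]
  refine Finset.sum_congr rfl fun i _ => ?_
  rw [mul_pow, ← pow_mul, ← pow_succ]

omit hf in
theorem Ez_tail (d : ℕ) (z : K) :
    Ez q D d z = z + ∑ i ∈ range (d + 1), ee q D d (i + 1) * z ^ q ^ (i + 1) := by
  unfold Ez
  rw [Finset.sum_range_succ', Finset.sum_range_succ _ d, ee_zero D hb,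
    ee_gt hq D hb (Nat.lt_succ_self d), pow_zero, pow_one, one_mul, zero_mul, add_zero, add_comm]

theorem Ez_succ (d : ℕ) (z : K) :
    Ez q D (d + 1) z = Ez q D d z - ell q D d * (Ez q D d z) ^ q / ell q D d ^ q := by
  rw [Ez_pow hq hf D hb, Ez_tail hq D hb d z, Ez, Finset.sum_range_succ', ee_zero D hb, pow_zero,
    pow_one, one_mul, Finset.mul_sum, Finset.sum_div, add_sub_assoc, ← Finset.sum_sub_distrib,
    add_comm]
  congr 1
  refine Finset.sum_congr rfl fun i _ => ?_
  rw [ee_succ hq hf D hb]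
  ring

omit hf hb in
theorem Ez_add (d : ℕ) (z w : K) : Ez q D d (z + w) = Ez q D d z + Ez q D d w := by
  unfold Ez
  rw [← Finset.sum_add_distrib]
  refine Finset.sum_congr rfl fun i _ => ?_
  rw [add_pow_qq hq, mul_add]

omit hf hb [CharP K p] in
theorem Ez_zero (d : ℕ) : Ez q D d 0 = 0 := by
  unfold Ez
  refine Finset.sum_eq_zero fun i _ => ?_
  rw [zero_pow (pow_ne_zero _ (q_pos hq).ne'), mul_zero]

omit hq hf hb [CharP K p] [Fact p.Prime] in
theorem Ez_smul (d : ℕ) {c : K} (hc : c ^ q = c) (z : K) :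
    Ez q D d (c * z) = c * Ez q D d z := by
  have hcq : ∀ i, c ^ q ^ i = c := by
    intro i
    induction i with
    | zero => rw [pow_zero, pow_one]
    | succ i ih => rw [pow_succ, pow_mul, ih, hc]
  unfold Ez
  rw [Finset.mul_sum]
  refine Finset.sum_congr rfl fun i _ => ?_
  rw [mul_pow, hcq]
  ring

theorem Ez_theta {θ : K} (hθ : θ ^ q - θ = D) (d : ℕ) (z : K) :
    Ez q D (d + 1) (θ * z) = θ * Ez q D (d + 1) z +
      ell q D (d + 1) * (Ez q D d z) ^ q / ell q D d ^ q := by
  rw [Ez_pow hq hf D hb, Ez, Ez, Finset.sum_range_succ', Finset.sum_range_succ' _ (d + 1),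
    ee_zero D hb, pow_zero, pow_one, pow_one, one_mul, one_mul, mul_add, Finset.mul_sum,
    Finset.mul_sum, Finset.sum_div, add_right_comm, ← Finset.sum_add_distrib]
  congr 1
  refine Finset.sum_congr rfl fun i _ => ?_
  have h1 := ee_carl hq hf D hb d i
  have h2 : br q D (i + 1) = θ ^ q ^ (i + 1) - θ := by rw [← hθ, br_theta hq]
  rw [h2] at h1
  rw [mul_pow]
  linear_combination (z ^ q ^ (i + 1)) * h1

variable {F : Type*} [Field F] [Fintype F] (hF : Fintype.card F = q) {ψ : F[X] →+* K}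
  (hψ : ψ X ^ q - ψ X = D)

include hF hψ

theorem Ez_main (d : ℕ) :
    (∀ a : F[X], a.degree < d → Ez q D d (ψ a) = 0) ∧
      ∀ n : F[X], n.Monic → n.natDegree = d → Ez q D d (ψ n) = ell q D d := by
  have hC : ∀ c : F, (ψ (C c)) ^ q = ψ (C c) := by
    intro c
    rw [← map_pow, ← C_pow, ← hF, FiniteField.pow_card]
  induction d with
  | zero =>
    refine ⟨fun a ha => ?_, fun n hn hd => ?_⟩
    · have h : a = 0 := by
        rw [← Polynomial.degree_eq_bot]
        rw [Nat.cast_zero, Nat.WithBot.lt_zero_iff] at ha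
        exact ha
      rw [h, map_zero, Ez_zero hq]
    · rw [hn.natDegree_eq_zero.1 hd, map_one, ell_zero, Ez, Finset.sum_range_one,
        ee_zero D hb, one_pow, one_mul]
  | succ d ih =>
    have hx := ell_ne D hb d
    have hmon : ∀ n : F[X], n.Monic → n.natDegree = d → Ez q D (d + 1) (ψ n) = 0 := by
      intro n hn hd
      rw [Ez_succ hq hf D hb, ih.2 n hn hd]
      field_simp
      ring
    have hlow : ∀ a : F[X], a.degree < ((d + 1 : ℕ) : WithBot ℕ) →
        Ez q D (d + 1) (ψ a) = 0 := by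
      intro a ha
      by_cases h : a.degree < d
      · rw [Ez_succ hq hf D hb, ih.1 a h, zero_pow (q_pos hq).ne']
        ring
      · have hd : a.degree = d := by
          refine le_antisymm ?_ (not_lt.1 h)
          by_cases h0 : a = 0
          · rw [h0, degree_zero]
            exact bot_le
          · rw [degree_eq_natDegree h0] at ha ⊢
            have := WithBot.coe_lt_coe.1 ha
            exact WithBot.coe_le_coe.2 (by simpa using Nat.lt_succ_iff.1 this)
        have hnd : a.natDegree = d := natDegree_eq_of_degree_eq_some hd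
        have ha0 : a ≠ 0 := by
          intro h0
          rw [h0, degree_zero] at hd
          exact absurd hd.symm (WithBot.coe_ne_bot)
        have hlc : a.leadingCoeff ≠ 0 := leadingCoeff_ne_zero.2 ha0
        have hm : (C a.leadingCoeff⁻¹ * a).Monic := by
          rw [Monic, leadingCoeff_mul, leadingCoeff_C, inv_mul_cancel₀ hlc]
        have hmd : (C a.leadingCoeff⁻¹ * a).natDegree = d := by
          rw [natDegree_C_mul (inv_ne_zero hlc), hnd]
        have e : a = C a.leadingCoeff * (C a.leadingCoeff⁻¹ * a) := by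
          rw [← mul_assoc, ← C_mul, mul_inv_cancel₀ hlc, C_1, one_mul]
        rw [e, map_mul, Ez_smul D _ (hC _), hmon _ hm hmd, mul_zero]
    refine ⟨hlow, fun n hn hd => ?_⟩
    have hc : n.divX.coeff d = 1 := by
      rw [coeff_divX, ← hd]
      exact hn
    have hnd : n.divX.natDegree = d := by
      rw [natDegree_divX_eq_natDegree_tsub_one, hd, Nat.add_sub_cancel]
    have hm : n.divX.Monic := by
      rw [Monic, leadingCoeff, hnd]
      exact hc
    have hn' : n = X * n.divX + C (n.coeff 0) := by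
      conv_lhs => rw [← divX_mul_X_add n]
      ring
    have h0 : Ez q D (d + 1) (ψ (C (n.coeff 0))) = 0 := by
      apply hlow
      refine lt_of_le_of_lt degree_C_le ?_
      exact_mod_cast Nat.succ_pos d
    rw [hn', map_add, map_mul, Ez_add hq, Ez_theta hq hf D hb hψ, hmon _ hm hnd,
      ih.2 _ hm hnd, h0]
    field_simp
    ring

end Pool.Agent.ZQ
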