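import Pool.Agent.Work.MP_43901b_nt.H.Defs

/-!
# TDefs: the setting of the transcendence part

`k` (which is `F_q(θ)` in the application) with its ring of integers `O` (`F_q[θ]`), embedded in a
complete nonarchimedean field `L`.  `t_d = θ^(-q^(d+1))`, `‖t_d‖ → 0`, `t_{d+1} = t_d^q`.
-/

namespace Pool.Agent.ZQ

open Polynomial Finset Filter

/-- The setting of the transcendence part. -/
structure Setup (p q : ℕ) (k L : Type*) [Fact p.Prime] [Field k] [CharP k p] [NormedField L]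
    [CompleteSpace L] [IsUltrametricDist L] [CharP L p] where
  f : ℕ
  one_le_f : 1 ≤ f
  hq : q = p ^ f
  φ : k →+* L
  O : Subring k
  θ : k
  norm_ge : ∀ x ∈ O, x ≠ 0 → 1 ≤ ‖φ x‖
  frac : ∀ x : k, ∃ e ∈ O, e ≠ 0 ∧ e * x ∈ O
  θ_mem : θ ∈ O
  hθ : 1 < ‖φ θ‖

namespace Setup

variable {p q : ℕ} {k L : Type*} [Fact p.Prime] [Field k] [CharP k p] [NormedField L]
  [CompleteSpace L] [IsUltrametricDist L] [CharP L p] (S : Setup p q k L)

/-- `D = θ^q - θ` -/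
def D : k := S.θ ^ q - S.θ

/-- `t_d = θ^(-q^(d+1))` -/
def t (d : ℕ) : k := (S.θ ^ q ^ (d + 1))⁻¹

/-- the sequence `α` is represented by the power series `G` at the points `t_d` -/
def Rep (α : ℕ → L) (G : PowerSeries k) : Prop :=
  ∀ M : ℕ, ∃ C : ℝ, ∀ᶠ d in atTop,
    ‖α d - S.φ ((PowerSeries.trunc M G).eval (S.t d))‖ ≤ C * ‖S.φ (S.t d)‖ ^ M

/-- `α d` is smaller than every power of `t_d` -/
def Small (α : ℕ → L) : Prop :=
  ∀ M : ℕ, ∃ C : ℝ, ∀ᶠ d in atTop, ‖α d‖ ≤ C * ‖S.φ (S.t d)‖ ^ M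

/-- bounded denominators -/
def Den (ρ : ℕ → k) : Prop := ∃ e ∈ S.O, e ≠ 0 ∧ ∀ d, e * ρ d ∈ S.O

/-- moderate growth -/
def Gro (ρ : ℕ → k) : Prop :=
  ∃ (n : ℕ) (C : ℝ), ∀ᶠ d in atTop, ‖S.φ (ρ d)‖ * ‖S.φ (S.t d)‖ ^ n ≤ C

/-- `zg (s_j, ..., s_1) d` is the sum over all `d_1 > ... > d_j ≥ d` of the products of the power
sums `S_{d_i}(s_i)` (the prefix is reversed) -/
noncomputable def zg : List ℕ → ℕ → L
  | [], _ => 1
  | n :: l, d => ∑' e : ℕ, S.φ (ps q S.D (d + e) n) * zg l (d + e + 1)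

/-- the limit of the multiple power sums -/
noncomputable def zeta (s : List ℕ) : L := S.zg s.reverse 0

end Setup

/-- `G(X^q)` -/
noncomputable def sq (q : ℕ) {k : Type*} [Field k] (G : PowerSeries k) : PowerSeries k :=
  PowerSeries.mk fun n => if q ∣ n then PowerSeries.coeff (n / q) G else 0

end Pool.Agent.ZQ
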