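import Pool.Agent.Work.MP_43901b_nt.H.Norms
import Pool.Agent.Work.MP_43901b_nt.H.GG

/-!
# Tbase: first properties of the setting
-/

namespace Pool.Agent.ZQ

open Polynomial Finset Filter

namespace Setup

variable {p q : ℕ} {k L : Type*} [Fact p.Prime] [Field k] [CharP k p] [NormedField L]
  [CompleteSpace L] [IsUltrametricDist L] [CharP L p] (S : Setup p q k L)

include S in
theorem two_le : 2 ≤ q := two_le_q S.hq S.one_le_f

theorem θ_ne : S.θ ≠ 0 := by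
  intro h
  have h1 := S.hθ
  rw [h, map_zero, norm_zero] at h1
  exact absurd h1 (not_lt.2 zero_le_one)

theorem t_ne (d : ℕ) : S.t d ≠ 0 := inv_ne_zero (pow_ne_zero _ S.θ_ne)

theorem t_succ (d : ℕ) : S.t (d + 1) = S.t d ^ q := by
  unfold t
  rw [pow_succ q (d + 1), pow_mul, inv_pow]

theorem norm_t (d : ℕ) : ‖S.φ (S.t d)‖ = ‖S.φ S.θ‖⁻¹ ^ q ^ (d + 1) := by
  unfold t
  rw [map_inv₀, map_pow, norm_inv, norm_pow, inv_pow]

private theorem tb_q : 0 < ‖S.φ S.θ‖⁻¹ ∧ ‖S.φ S.θ‖⁻¹ < 1 :=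
  ⟨inv_pos.2 (zero_lt_one.trans S.hθ), inv_lt_one_of_one_lt₀ S.hθ⟩

theorem norm_t_pos (d : ℕ) : 0 < ‖S.φ (S.t d)‖ := by
  rw [norm_t]
  exact pow_pos S.tb_q.1 _

theorem norm_t_lt (d : ℕ) : ‖S.φ (S.t d)‖ < 1 := by
  rw [norm_t]
  exact pow_lt_one₀ S.tb_q.1.le S.tb_q.2 (pow_ne_zero _ (by have := S.two_le; omega))

theorem norm_t_succ_le (d : ℕ) : ‖S.φ (S.t (d + 1))‖ ≤ ‖S.φ (S.t d)‖ := by
  rw [t_succ, map_pow, norm_pow]
  exact pow_le_of_le_one (norm_nonneg _) (S.norm_t_lt d).le (by have := S.two_le; omega)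

theorem tendsto_t : Tendsto (fun d => ‖S.φ (S.t d)‖) atTop (nhds 0) := by
  refine squeeze_zero (fun d => norm_nonneg _) (fun d => ?_)
    (tendsto_pow_atTop_nhds_zero_of_lt_one S.tb_q.1.le S.tb_q.2)
  rw [norm_t]
  refine pow_le_pow_of_le_one S.tb_q.1.le S.tb_q.2.le ?_
  have h2 := S.two_le
  calc d ≤ d + 1 := Nat.le_succ d
    _ ≤ q ^ (d + 1) := (Nat.lt_pow_self (by omega)).le

theorem norm_D : ‖S.φ S.D‖ = ‖S.φ S.θ‖ ^ q := by
  have h2 := S.two_le
  have h1 : ‖S.φ S.θ‖ < ‖S.φ S.θ‖ ^ q := by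
    calc ‖S.φ S.θ‖ = ‖S.φ S.θ‖ ^ 1 := (pow_one _).symm
      _ < _ := pow_lt_pow_right₀ S.hθ (by omega)
  unfold D
  rw [sub_eq_add_neg, map_add, map_pow, map_neg,
    IsUltrametricDist.norm_add_eq_max_of_norm_ne_norm, norm_pow, norm_neg, max_eq_left h1.le]
  rw [norm_pow, norm_neg]
  exact h1.ne'

theorem one_lt_D : 1 < ‖S.φ S.D‖ := by
  rw [norm_D]
  exact one_lt_pow₀ S.hθ (by have := S.two_le; omega)

theorem D_ne : S.D ≠ 0 := by
  intro h0
  have := S.one_lt_D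
  rw [h0, map_zero, norm_zero] at this
  linarith

theorem br_eq (i : ℕ) : br q S.D i = S.θ ^ q ^ i - S.θ := br_theta S.hq S.θ i

theorem map_br (D : k) (i : ℕ) : S.φ (br q D i) = br q (S.φ D) i := by
  unfold br
  rw [map_sum]
  exact Finset.sum_congr rfl fun l _ => map_pow _ _ _

theorem map_ell (D : k) (i : ℕ) : S.φ (ell q D i) = ell q (S.φ D) i := by
  unfold ell
  rw [map_prod]
  refine Finset.prod_congr rfl fun l _ => ?_
  rw [map_neg, S.map_br]

theorem map_vv (D : k) (d : ℕ) : S.φ (vv q D d) = vv q (S.φ D) d := by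
  unfold vv
  rw [map_div₀, map_pow, S.map_br]

theorem map_ev (D : k) (i : ℕ) : (ev q D i).map S.φ = ev q (S.φ D) i := by
  induction i with
  | zero => rw [ev_zero, ev_zero, Polynomial.map_one]
  | succ i ih =>
    rw [ev_succ, ev_succ, Polynomial.map_mul, Polynomial.map_mul, Polynomial.map_pow,
      Polynomial.map_sub, Polynomial.map_mul, map_X, map_C, map_C, map_C, map_inv₀, map_pow,
      S.map_br, S.map_br, ih]

theorem map_PP (D : k) (n : ℕ) : (PP q D n).map S.φ = PP q (S.φ D) n := by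
  unfold PP
  have h := gg_map S.two_le (mapRingHom S.φ) (ev q D) (n - 1)
  rw [coe_mapRingHom] at h
  rw [h]
  congr 1
  funext i
  exact S.map_ev D i

theorem map_eval (P : k[X]) (x : k) : S.φ (P.eval x) = (P.map S.φ).eval (S.φ x) := by
  rw [eval_map, eval₂_hom]

theorem map_ps (D : k) (d n : ℕ) : S.φ (ps q D d n) = ps q (S.φ D) d n := by
  unfold ps
  rw [map_div₀, map_pow, map_eval, S.map_PP, S.map_vv, S.map_ell]

theorem map_SS (D : k) (s : List ℕ) (d : ℕ) : S.φ (SS q D s d) = SS q (S.φ D) s d := by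
  induction s generalizing d with
  | nil => rw [SS, SS, map_one]
  | cons a s ih =>
    rw [SS, SS, map_sum]
    refine Finset.sum_congr rfl fun i _ => ?_
    rw [map_mul, map_ps, ih]

theorem br_ne' (i : ℕ) : br q S.D (i + 1) ≠ 0 := by
  intro h
  have h1 := br_ne S.hq S.one_le_f (S.φ S.D) S.one_lt_D i
  rw [← map_br, h, map_zero] at h1
  exact h1 rfl

theorem ell_ne' (d : ℕ) : ell q S.D d ≠ 0 := ell_ne S.D S.br_ne' d

theorem vv_inj' : Function.Injective (vv q S.D) := by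
  intro d e h
  apply vv_inj S.hq S.one_le_f (S.φ S.D) S.one_lt_D
  rw [← map_vv, ← map_vv, h]

/-- `D v_d t_d = 1 - θ^q t_d` -/
theorem vv_t (d : ℕ) : S.D * vv q S.D d * S.t d = 1 - S.θ ^ q * S.t d := by
  rw [D_mul_vv S.D S.D_ne, S.br_eq, sub_pow_q S.hq, ← pow_mul, ← pow_succ, sub_mul]
  congr 1
  unfold t
  exact mul_inv_cancel₀ (pow_ne_zero _ S.θ_ne)

/-- `[d+1] t_d = 1 - θ t_d` -/
theorem br_t (d : ℕ) : br q S.D (d + 1) * S.t d = 1 - S.θ * S.t d := by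
  rw [S.br_eq, sub_mul]
  congr 1
  unfold t
  exact mul_inv_cancel₀ (pow_ne_zero _ S.θ_ne)

theorem br_t_ne (d : ℕ) : 1 - S.θ * S.t d ≠ 0 := by
  rw [← S.br_t]
  exact mul_ne_zero (S.br_ne' d) (S.t_ne d)

end Setup

end Pool.Agent.ZQ
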